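import Pool.Agent.W_4b1b5d_h33.BadC

/-!
# No bad coincidence
-/

set_option autoImplicit false

namespace Pool.W4b1b5d.H33

open Pool.W4b1b5d.H3 Pool.W4b1b5d.SH Pool.W4b1b5d.H34 Polynomial Set Metric MeasureTheory

/-- continuity of a function on the closed half strip at real points -/
theorem BadD_real {s τ : ℝ} (hτ : 0 < τ) {E : Type*} [TopologicalSpace E] {f : ℂ → E}
    (hf : ContinuousOn f (Us s τ)) (w : ℝ) : ContinuousAt (fun w : ℝ => f (w : ℂ)) w := by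
  have h1 : ContinuousWithinAt f (Us s τ) (w : ℂ) := hf _ (Sh.SHGlueC_mem s hτ w)
  have h2 : ContinuousWithinAt (fun w : ℝ => (w : ℂ)) univ w :=
    Complex.continuous_ofReal.continuousWithinAt
  have h3 : ContinuousWithinAt (fun w : ℝ => f (w : ℂ)) univ w :=
    ContinuousWithinAt.comp (g := f) (f := fun w : ℝ => (w : ℂ)) (x := w) h1 h2
      (fun w _ => Sh.SHGlueC_mem s hτ w)
  exact (continuousWithinAt_univ _ _).1 h3

theorem BadD_contv {D : PD} {s τ : ℝ} (S : Sh D 2 s τ) (j : Fin S.n) (x : V2) :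
    ContinuousOn (fun v => S.P j x v) (Us s τ) := by
  intro v hv
  have hc : ContinuousWithinAt (fun z : V2 × ℂ => S.P j z.1 z.2) (univ ×ˢ Us s τ) (x, v) :=
    S.cont j (x, v) ⟨mem_univ _, hv⟩
  have h2 : ContinuousWithinAt (fun v : ℂ => ((x, v) : V2 × ℂ)) (Us s τ) v :=
    (by fun_prop : Continuous fun v : ℂ => ((x, v) : V2 × ℂ)).continuousWithinAt
  exact ContinuousWithinAt.comp (g := fun z : V2 × ℂ => S.P j z.1 z.2)
    (f := fun v : ℂ => ((x, v) : V2 × ℂ)) (x := v) hc h2 (fun v hv => ⟨mem_univ _, hv⟩)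

/-- TASK Bad (4).  **NB.**

Proof.  Suppose `S.P j x1 w0 = T.P i x1 w0` is off the circle, `R_Y ≠ 0`, and the labels at `w0` differ.
`glue` gives `i'` with `S.P j = T.P i'` near `(x1,w0)` and `i = i'` by its uniqueness; so for real `w` near
`w0`: `S.P j x1 w = T.P i x1 w`, off the circle, `R_Y(x1, ·) ≠ 0`, and the labels at `w` differ
(`lab_cont`).  The set of `w` with the property of `Trunc` has full measure, `D.CR` is countable and the
set of critical values of `g` (`crit_finite`) is finite, so there is such a `w` near `w0` outside of these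
sets, with the truncated form closed.  If `lab S j w` is not real, `NRL p S T` gives `i''` with
`S.P j x w = T.P i'' x w` for all `x`; at `x1` uniqueness in `glue` (at `(x1,w)`) gives `i'' = i`, and at
`x0` the labels of `j` and `i` agree, contradiction.  If `lab T i w` is not real, `NRL p T S` gives `j''`
with `T.P i x w = S.P j'' x w` for all `x`, and `glue` from `T` to `S` at `(x1,w)` gives `j'' = j` (both
`j` and `j''` agree with `T.P i` at `(x1,w)`).  So both labels are real: `bad_real`. -/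
theorem NB_of {D : PD} (p : PS D) (hDic : Dic p) {τ : ℝ} (hτ : 0 < τ) (hH : Ks 1 τ ⊆ D.H)
    (hH' : Ks (-1) τ ⊆ D.H) (S : Sh D 2 1 τ) (T : Sh D 2 (-1) τ)
    (hS : ∀ j (w : ℝ), CForm (mom S j w)) (hT : ∀ i (w : ℝ), CForm (mom T i w))
    (hN : NRL p S T) (hN' : NRL p T S) (hTr : Trunc S T) : NB p S T := by
  intro j i x1 w0 he0 ho0 hr0
  by_contra hne0
  have hx1ne : ∀ {P : ℂ}, D.l x1 < ‖P‖ ^ 2 → P ≠ 0 := by
    intro P h h0
    rw [h0, norm_zero] at h
    have := D.lpos x1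
    norm_num at h
    linarith
  have two : 1 ≤ 2 := by norm_num
  -- the two sheets agree near `w0`
  obtain ⟨i', hi', hiu⟩ := Sh.glue two hτ hH hH' S T j x1 w0 ho0 hr0
  have hii : i = i' := hiu i he0.symm
  subst hii
  have e1 : ∀ᶠ w : ℝ in nhds w0, S.P j x1 (w : ℂ) = T.P i x1 (w : ℂ) := by
    have hc : ContinuousAt (fun w : ℝ => ((x1, w) : V2 × ℝ)) w0 := by fun_prop
    exact hc.eventually hi'
  have cP : ContinuousAt (fun w : ℝ => S.P j x1 (w : ℂ)) w0 := BadD_real hτ (BadD_contv S j x1) w0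
  have e2 : ∀ᶠ w : ℝ in nhds w0, D.l x1 < ‖S.P j x1 (w : ℂ)‖ ^ 2 :=
    (cP.norm.pow 2).eventually (lt_mem_nhds ho0)
  have e3 : ∀ᶠ w : ℝ in nhds w0, D.R 1 x1 (S.P j x1 (w : ℂ) ^ 2) ≠ 0 := by
    have h1 : ContinuousAt (fun Y => D.R 1 x1 Y) (S.P j x1 (w0 : ℂ) ^ 2) :=
      (D.R_hasDerivAt 1 x1 (pow_ne_zero 2 (hx1ne ho0))).continuousAt
    have h2 : ContinuousAt (fun w : ℝ => D.R 1 x1 (S.P j x1 (w : ℂ) ^ 2)) w0 :=
      ContinuousAt.comp (g := fun Y => D.R 1 x1 Y) (f := fun w : ℝ => S.P j x1 (w : ℂ) ^ 2)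
        (x := w0) h1 (cP.pow 2)
    exact h2.eventually_ne hr0
  have e4 : ∀ᶠ w : ℝ in nhds w0, p.lab S j (w : ℂ) ≠ p.lab T i (w : ℂ) := by
    have h1 : ContinuousAt (fun w : ℝ => p.lab S j (w : ℂ)) w0 :=
      BadD_real hτ (p.lab_cont S j) w0
    have h2 : ContinuousAt (fun w : ℝ => p.lab T i (w : ℂ)) w0 :=
      BadD_real hτ (p.lab_cont T i) w0
    have h3 : ContinuousAt (fun w : ℝ => p.lab S j (w : ℂ) - p.lab T i (w : ℂ)) w0 := h1.sub h2
    filter_upwards [h3.eventually_ne (sub_ne_zero.2 hne0)] with w hw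
    exact sub_ne_zero.1 hw
  -- a good `w`
  have hdeg : 1 ≤ p.g.natDegree := by
    rw [p.gdeg]
    exact D.hM
  have hfin : {w : ℝ | ∃ T, p.g.eval T = (w : ℂ) ∧ p.g.derivative.eval T = 0}.Finite :=
    Set.Finite.preimage (f := fun w : ℝ => (w : ℂ)) (Complex.ofReal_injective.injOn)
      (crit_finite p.g hdeg)
  have hae : ∀ᵐ w : ℝ, w ∉ {w : ℝ | ∃ T, p.g.eval T = (w : ℂ) ∧ p.g.derivative.eval T = 0} :=
    hfin.countable.ae_notMem volume
  have hdense := MeasureTheory.Measure.dense_of_ae ((hTr j i).and hae)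
  obtain ⟨U, hU, hUo, hwU⟩ := _root_.mem_nhds_iff.1 (Filter.eventually_iff.1 ((e1.and e2).and (e3.and e4)))
  obtain ⟨w, hwU', hw⟩ := hdense.inter_open_nonempty U hUo ⟨w0, hwU⟩
  obtain ⟨⟨f1, f2⟩, f3, f4⟩ := hU hwU'
  obtain ⟨f5, f6⟩ := hw
  have hgj : p.g.derivative.eval (p.lab S j (w : ℂ)) ≠ 0 := fun h =>
    f6 ⟨_, p.lab_g S j (Sh.SHGlueC_mem 1 hτ w), h⟩
  have hgi : p.g.derivative.eval (p.lab T i (w : ℂ)) ≠ 0 := fun h =>
    f6 ⟨_, p.lab_g T i (Sh.SHGlueC_mem (-1) hτ w), h⟩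
  by_cases hj : (p.lab S j (w : ℂ)).im = 0
  · by_cases hi : (p.lab T i (w : ℂ)).im = 0
    · exact bad_real p hDic hτ S T j i w (hS j w) (hT i w) f5 x1 f2 f1 hj hi f4
    · obtain ⟨j', hj'⟩ := hN' i w hi hgi
      have h1 : ∀ x, T.P i x (w : ℂ) = S.P j' x (w : ℂ) := hj'.self_of_nhds
      have h0 : D.R 0 x1 (S.P j x1 (w : ℂ) ^ 2) = (w : ℂ) :=
        S.root j x1 w (Sh.SHGlueC_mem 1 hτ w)
      have h2 := S.exh_bdry two (Or.inl rfl) hτ hH x1 w (S.P j x1 (w : ℂ)) f2 h0 f3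
      have h3 : j' = j := h2.unique (by rw [← h1 x1, f1]) rfl
      subst h3
      apply f4
      unfold PS.lab
      rw [h1]
  · obtain ⟨i', hi''⟩ := hN j w hj hgj
    have h1 : ∀ x, S.P j x (w : ℂ) = T.P i' x (w : ℂ) := hi''.self_of_nhds
    have h0 : D.R 0 x1 (S.P j x1 (w : ℂ) ^ 2) = (w : ℂ) :=
      S.root j x1 w (Sh.SHGlueC_mem 1 hτ w)
    have h2 := T.exh_bdry two (Or.inr rfl) hτ hH' x1 w (S.P j x1 (w : ℂ)) f2 h0 f3
    have h3 : i' = i := h2.unique (h1 x1).symm f1.symm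
    subst h3
    apply f4
    unfold PS.lab
    rw [h1]

end Pool.W4b1b5d.H33
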