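import Pool.Agent.W_4b1b5d_h33.AsyB

/-!
# Asymptotics of `z`
-/

set_option autoImplicit false

namespace Pool.W4b1b5d.H33

open Pool.W4b1b5d.H3 Pool.W4b1b5d.SH Polynomial Set Metric

/-- TASK Asy (4).  `|k z/T - 1| ≤ 1/(2M)` (or any other small number `η > 0`) for large `T`, all `x`.

Proof.  Fix `T`.  Along the segment `y(t) = x0 + t (x - x0)` the function `γ t = k z(y(t),T)/T` is
continuous (`z_cont`) and `|γ^M - 1| ≤ C/|T|` (`z_pow`), so `root_path` for the polynomial `X^M - 1`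
gives `|γ 1 - γ 0| ≤ 2M (C/|T|)^(1/M)`, and `|γ 0 - 1|` is small by `z_x0` (`|kap Y - k Y| ≤ |c| + l`). -/
theorem z_ratio {D : PD} (p : PS D) (η : ℝ) (hη : 0 < η) : ∃ ρ : ℝ, 1 ≤ ρ ∧ ∀ (x : V2) (T : ℂ),
    p.g.eval T ∈ D.H → ρ ≤ ‖T‖ → ‖p.k * p.z x T / T - 1‖ ≤ η := by
  obtain ⟨C, hC, hp⟩ := z_pow p
  have hM := D.hM
  have hMpos : (0 : ℝ) < D.M := by exact_mod_cast hM
  set δ : ℝ := η / (4 * D.M) with hδ
  have hδ0 : 0 < δ := by positivity
  set c0 : ℝ := |p.w p.x0| + D.l p.x0 with hc0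
  have hl0 := D.lpos p.x0
  have hc00 : 0 ≤ c0 := by positivity
  refine ⟨1 + C / δ ^ D.M + 2 * c0 / η, by
    have : 0 ≤ C / δ ^ D.M := by positivity
    have : 0 ≤ 2 * c0 / η := by positivity
    linarith, fun x T hT hρ => ?_⟩
  have hq1 : 0 ≤ C / δ ^ D.M := by positivity
  have hq2 : 0 ≤ 2 * c0 / η := by positivity
  have h1 : 1 ≤ ‖T‖ := by linarith
  have hT0 : 0 < ‖T‖ := by linarith
  have hTne : T ≠ 0 := norm_pos_iff.mp hT0
  -- the path
  set γ : ℝ → ℂ := fun t => p.k * p.z (p.x0 + t • (x - p.x0)) T / T with hγ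
  have hγc : ContinuousOn γ (Icc 0 1) := by
    have h2 : Continuous fun t : ℝ => p.z (p.x0 + t • (x - p.x0)) T :=
      (p.z_cont hT).comp (by fun_prop)
    exact ((continuous_const.mul h2).div_const T).continuousOn
  have hdeg : (X ^ D.M - 1 : ℂ[X]).natDegree = D.M := by
    have := natDegree_X_pow_sub_C (n := D.M) (r := (1 : ℂ))
    simpa using this
  have hmon : (X ^ D.M - 1 : ℂ[X]).leadingCoeff = 1 := by
    have := (monic_X_pow_sub_C (1 : ℂ) (n := D.M) (by omega)).leadingCoeff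
    simpa using this
  have hpath := root_path (X ^ D.M - 1 : ℂ[X]) (by rw [hdeg]; omega) hγc hδ0.le (by
    intro t _
    rw [hdeg, hmon, norm_one, one_mul]
    have h3 := hp (p.x0 + t • (x - p.x0)) T hT h1
    have h4 : (X ^ D.M - 1 : ℂ[X]).eval (γ t)
        = ((p.k * p.z (p.x0 + t • (x - p.x0)) T) ^ D.M - T ^ D.M) / T ^ D.M := by
      simp only [hγ, eval_sub, eval_pow, eval_X, eval_one, div_pow]
      rw [sub_div, div_self (pow_ne_zero _ hTne)]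
    rw [h4, norm_div, norm_pow, div_le_iff₀ (by positivity)]
    refine h3.trans ?_
    obtain ⟨m, hm⟩ : ∃ m, D.M = m + 1 := ⟨D.M - 1, by omega⟩
    have h5 : C ≤ δ ^ D.M * ‖T‖ := by
      have : C / δ ^ D.M ≤ ‖T‖ := by linarith
      rwa [div_le_iff₀ (by positivity), mul_comm] at this
    calc C * ‖T‖ ^ (D.M - 1) ≤ (δ ^ D.M * ‖T‖) * ‖T‖ ^ (D.M - 1) :=
          mul_le_mul_of_nonneg_right h5 (by positivity)
      _ = δ ^ D.M * ‖T‖ ^ D.M := by
          rw [mul_assoc]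
          congr 1
          conv_rhs => rw [hm]
          rw [hm, Nat.add_sub_cancel]
          ring)
  rw [hdeg] at hpath
  have h6 : 2 * (D.M : ℝ) * δ = η / 2 := by
    rw [hδ]
    field_simp
    ring
  rw [h6] at hpath
  have e1 : γ 1 = p.k * p.z x T / T := by
    simp only [hγ, one_smul, add_sub_cancel]
  have e0 : γ 0 = p.k * p.z p.x0 T / T := by
    simp only [hγ, zero_smul, add_zero]
  -- the start
  have hs := p.z_spec p.x0 hT
  have hk := p.z_x0 hT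
  have h7 : ‖γ 0 - 1‖ ≤ η / 2 := by
    have h8 : γ 0 - 1 = -((p.w p.x0 : ℂ)
        + (starRingEnd ℂ) p.k * (D.l p.x0 : ℂ) ^ 2 / p.z p.x0 T) / T := by
      rw [e0]
      unfold kap at hk
      rw [eq_div_iff hTne, sub_mul, div_mul_cancel₀ _ hTne]
      linear_combination hk
    have hz0 : 0 < ‖p.z p.x0 T‖ := lt_trans hl0 hs.1
    have h9 : ‖(p.w p.x0 : ℂ) + (starRingEnd ℂ) p.k * (D.l p.x0 : ℂ) ^ 2 / p.z p.x0 T‖ ≤ c0 := by
      refine (norm_add_le _ _).trans ?_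
      rw [hc0]
      refine add_le_add (by rw [Complex.norm_real, Real.norm_eq_abs]) ?_
      rw [norm_div, norm_mul, RCLike.norm_conj, p.hk, one_mul, norm_pow, Complex.norm_real,
        Real.norm_eq_abs, abs_of_pos hl0, div_le_iff₀ hz0, sq]
      exact mul_le_mul_of_nonneg_left hs.1.le hl0.le
    rw [h8, norm_div, norm_neg, div_le_iff₀ hT0]
    have h10 : 2 * c0 / η ≤ ‖T‖ := by linarith
    rw [div_le_iff₀ hη] at h10
    linarith
  rw [← e1]
  calc ‖γ 1 - 1‖ = ‖(γ 1 - γ 0) + (γ 0 - 1)‖ := by congr 1; ring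
    _ ≤ ‖γ 1 - γ 0‖ + ‖γ 0 - 1‖ := norm_add_le _ _
    _ ≤ η := by linarith

/-- TASK Asy (5).  `|k z - T|` is bounded for large `T`.

Proof.  `(kz)^M - T^M = (kz - T) ∑_{j<M} (kz)^j T^(M-1-j)` and the sum is `T^(M-1) ∑ (kz/T)^j`, where
`|∑ (kz/T)^j - M| ≤ 1/2` if `η` in `z_ratio` is small.  So `|kz - T| ≤ 2 C`. -/
theorem z_asym {D : PD} (p : PS D) : ∃ ρ C : ℝ, ∀ (x : V2) (T : ℂ), p.g.eval T ∈ D.H →
    ρ ≤ ‖T‖ → ‖p.k * p.z x T - T‖ ≤ C := by
  obtain ⟨C, hC, hp⟩ := z_pow p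
  have hM := D.hM
  -- `∑ q^j` is continuous in `q`
  have hcont : ContinuousAt (fun q : ℂ => ∑ j ∈ Finset.range D.M, q ^ j) 1 := by
    fun_prop
  obtain ⟨η, hη, hball⟩ := Metric.continuousAt_iff.mp hcont (1 / 2) (by norm_num)
  obtain ⟨ρ, hρ1, hρ⟩ := z_ratio p (η / 2) (by positivity)
  refine ⟨ρ, 2 * C, fun x T hT hTρ => ?_⟩
  have h1 : 1 ≤ ‖T‖ := hρ1.trans hTρ
  have hT0 : 0 < ‖T‖ := by linarith
  have hTne : T ≠ 0 := norm_pos_iff.mp hT0
  set q := p.k * p.z x T / T with hq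
  have hq1 : dist q 1 < η := by
    rw [dist_eq_norm]
    exact lt_of_le_of_lt (hρ x T hT hTρ) (by linarith)
  have h2 := hball hq1
  have h3 : (∑ j ∈ Finset.range D.M, (1 : ℂ) ^ j) = D.M := by simp
  rw [h3, dist_eq_norm] at h2
  have h4 : (1 : ℝ) / 2 ≤ ‖∑ j ∈ Finset.range D.M, q ^ j‖ := by
    have h5 : ‖(D.M : ℂ)‖ ≤ ‖∑ j ∈ Finset.range D.M, q ^ j‖
        + ‖(D.M : ℂ) - ∑ j ∈ Finset.range D.M, q ^ j‖ := by
      have := norm_add_le (∑ j ∈ Finset.range D.M, q ^ j)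
        ((D.M : ℂ) - ∑ j ∈ Finset.range D.M, q ^ j)
      rwa [add_sub_cancel] at this
    rw [norm_sub_rev] at h2
    have h6 : ‖(D.M : ℂ)‖ = D.M := by simp
    have h7 : (1 : ℝ) ≤ D.M := by exact_mod_cast hM
    linarith
  have h8 : (p.k * p.z x T) ^ D.M - T ^ D.M
      = (p.k * p.z x T - T) * (T ^ (D.M - 1) * ∑ j ∈ Finset.range D.M, q ^ j) := by
    have h9 : p.k * p.z x T = q * T := by rw [hq, div_mul_cancel₀ _ hTne]
    have h10 : (∑ j ∈ Finset.range D.M, q ^ j) * (q - 1) = q ^ D.M - 1 := geom_sum_mul q D.M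
    have h11 : T * T ^ (D.M - 1) = T ^ D.M := by
      rw [← pow_succ']
      congr 1
      omega
    rw [h9, mul_pow]
    linear_combination (-(T * T ^ (D.M - 1))) * h10 + (1 - q ^ D.M) * h11
  have h12 := hp x T hT h1
  rw [h8, norm_mul, norm_mul, norm_pow] at h12
  have h13 : ‖p.k * p.z x T - T‖ * (1 / 2) * ‖T‖ ^ (D.M - 1) ≤ C * ‖T‖ ^ (D.M - 1) := by
    refine le_trans ?_ h12
    have : 0 ≤ ‖p.k * p.z x T - T‖ * ‖T‖ ^ (D.M - 1) := by positivity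
    nlinarith
  have h14 : 0 < ‖T‖ ^ (D.M - 1) := by positivity
  have h15 := le_of_mul_le_mul_right h13 h14
  linarith

end Pool.W4b1b5d.H33
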