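import Mathlib

/-!
# Local inverse of a polynomial
-/

set_option autoImplicit false

namespace Pool.W4b1b5d.H33

open Complex Metric Set Filter Topology Polynomial

theorem LocInv_homeo (g : ℂ[X]) (T0 : ℂ) (h : g.derivative.eval T0 ≠ 0) :
    ∃ e : OpenPartialHomeomorph ℂ ℂ, (∀ x, e x = g.eval x) ∧ T0 ∈ e.source := by
  have h1 := (g.hasStrictDerivAt T0).hasStrictFDerivAt_equiv h
  exact ⟨h1.toOpenPartialHomeomorph _, fun _ => rfl, h1.mem_toOpenPartialHomeomorph_source⟩

/-- TASK LocInv (1).  Inverse function theorem (`HasStrictDerivAt.localInverse` or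
`HasStrictDerivAt.toOpenPartialHomeomorph`); the derivative does not vanish near `T0`. -/
theorem loc_inv (g : ℂ[X]) (T0 : ℂ) (h : g.derivative.eval T0 ≠ 0) (r : ℝ) (hr : 0 < r) :
    ∃ (ε δ : ℝ) (θ : ℂ → ℂ), 0 < ε ∧ ε ≤ r ∧ 0 < δ ∧
      DifferentiableOn ℂ θ (ball (g.eval T0) ε) ∧ θ (g.eval T0) = T0 ∧
      (∀ v ∈ ball (g.eval T0) ε, g.eval (θ v) = v ∧ g.derivative.eval (θ v) ≠ 0) ∧
      (∀ T ∈ ball T0 δ, g.eval T ∈ ball (g.eval T0) ε ∧ θ (g.eval T) = T) := by
  obtain ⟨e, he, hs⟩ := LocInv_homeo g T0 h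
  have heT : g.eval T0 ∈ e.target := by
    rw [← he T0]
    exact e.map_source hs
  have hsymm : e.symm (g.eval T0) = T0 := by
    rw [← he T0]
    exact e.left_inv hs
  have hcont : ContinuousAt e.symm (g.eval T0) := e.symm.continuousAt heT
  have hd : ∀ᶠ v in 𝓝 (g.eval T0), g.derivative.eval (e.symm v) ≠ 0 := by
    have h1 : ContinuousAt (fun v => g.derivative.eval (e.symm v)) (g.eval T0) :=
      ContinuousAt.comp (g := fun T => g.derivative.eval T) g.derivative.continuous.continuousAt hcont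
    refine h1.eventually_ne ?_
    show g.derivative.eval (e.symm (g.eval T0)) ≠ 0
    rw [hsymm]
    exact h
  have ht : ∀ᶠ v in 𝓝 (g.eval T0), v ∈ e.target := e.open_target.mem_nhds heT
  obtain ⟨ε1, hε1, hb⟩ := Metric.mem_nhds_iff.1 (hd.and ht)
  have hε : 0 < min ε1 r := lt_min hε1 hr
  have hsub : ball (g.eval T0) (min ε1 r) ⊆ ball (g.eval T0) ε1 := ball_subset_ball (min_le_left _ _)
  have hcontg : ContinuousAt (fun T => g.eval T) T0 := g.continuous.continuousAt
  have h2 : ∀ᶠ T in 𝓝 T0, g.eval T ∈ ball (g.eval T0) (min ε1 r) :=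
    hcontg (ball_mem_nhds _ hε)
  have h3 : ∀ᶠ T in 𝓝 T0, T ∈ e.source := e.open_source.mem_nhds hs
  obtain ⟨δ, hδ, hb2⟩ := Metric.mem_nhds_iff.1 (h2.and h3)
  refine ⟨min ε1 r, δ, e.symm, hε, min_le_right _ _, hδ, ?_, hsymm, ?_, ?_⟩
  · intro v hv
    have h4 := hb (hsub hv)
    have h5 : HasDerivAt e (g.derivative.eval (e.symm v)) (e.symm v) := by
      have h6 : (e : ℂ → ℂ) = fun x => g.eval x := funext he
      rw [h6]
      exact g.hasDerivAt _
    exact (e.hasDerivAt_symm h4.2 h4.1 h5).differentiableAt.differentiableWithinAt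
  · intro v hv
    have h4 := hb (hsub hv)
    refine ⟨?_, h4.1⟩
    rw [← he]
    exact e.right_inv h4.2
  · intro T hT
    have h4 := hb2 hT
    refine ⟨h4.1, ?_⟩
    rw [← he]
    exact e.left_inv h4.2

/-- TASK LocInv (2).  Two continuous local inverses over a preconnected set which agree at one point
agree: the set where they agree is closed in `A`, and open in `A` because `g` is injective near `q v`
(`loc_inv` or strict derivative). -/
theorem sec_eq (g : ℂ[X]) {A : Set ℂ} (hA : IsPreconnected A) {q q' : ℂ → ℂ}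
    (hq : ContinuousOn q A) (hq' : ContinuousOn q' A) (h : ∀ v ∈ A, g.eval (q v) = v)
    (h' : ∀ v ∈ A, g.eval (q' v) = v) (hd : ∀ v ∈ A, g.derivative.eval (q v) ≠ 0) {v0 : ℂ}
    (hv0 : v0 ∈ A) (heq : q v0 = q' v0) : EqOn q q' A := by
  haveI : PreconnectedSpace A := isPreconnected_iff_preconnectedSpace.1 hA
  have c1 : Continuous (fun v : A => q v) := continuousOn_iff_continuous_restrict.1 hq
  have c2 : Continuous (fun v : A => q' v) := continuousOn_iff_continuous_restrict.1 hq'
  have hclosed : IsClosed {v : A | q v = q' v} := isClosed_eq c1 c2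
  have hopen : IsOpen {v : A | q v = q' v} := by
    rw [isOpen_iff_mem_nhds]
    intro v hv
    have hv' : q v = q' v := hv
    obtain ⟨e, he, hs⟩ := LocInv_homeo g (q v) (hd v v.2)
    have h1 : ∀ᶠ w : A in 𝓝 v, q w ∈ e.source := c1.continuousAt (e.open_source.mem_nhds hs)
    have h2 : ∀ᶠ w : A in 𝓝 v, q' w ∈ e.source := by
      refine c2.continuousAt (e.open_source.mem_nhds ?_)
      rw [← hv']
      exact hs
    filter_upwards [h1, h2] with w hw1 hw2
    refine e.injOn hw1 hw2 ?_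
    rw [he, he, h w w.2, h' w w.2]
  have huniv := IsClopen.eq_univ ⟨hclosed, hopen⟩ ⟨⟨v0, hv0⟩, heq⟩
  intro v hv
  have : (⟨v, hv⟩ : A) ∈ {v : A | q v = q' v} := by
    rw [huniv]
    exact mem_univ _
  exact this

/-- TASK LocInv (3).  For a real polynomial, a continuous inverse over a ball with real centre which is
real at the centre commutes with conjugation: `sec_eq` for `q v = θ v`, `q' v = conj (θ (conj v))`. -/
theorem sec_conj (g : ℂ[X]) (hg : ∀ T, g.eval ((starRingEnd ℂ) T) = (starRingEnd ℂ) (g.eval T))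
    (w0 : ℝ) (ε : ℝ) (hε : 0 < ε) (θ : ℂ → ℂ) (hθ : ContinuousOn θ (ball (w0 : ℂ) ε))
    (h0 : (θ w0).im = 0) (h : ∀ v ∈ ball (w0 : ℂ) ε, g.eval (θ v) = v)
    (hd : ∀ v ∈ ball (w0 : ℂ) ε, g.derivative.eval (θ v) ≠ 0) :
    ∀ v ∈ ball (w0 : ℂ) ε, θ ((starRingEnd ℂ) v) = (starRingEnd ℂ) (θ v) := by
  have hconj : ∀ v ∈ ball (w0 : ℂ) ε, (starRingEnd ℂ) v ∈ ball (w0 : ℂ) ε := by
    intro v hv
    rw [mem_ball, dist_eq_norm] at hv ⊢
    have h1 : (starRingEnd ℂ) v - w0 = (starRingEnd ℂ) (v - w0) := by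
      rw [map_sub, Complex.conj_ofReal]
    rw [h1, Complex.norm_conj]
    exact hv
  have key : EqOn θ (fun v => (starRingEnd ℂ) (θ ((starRingEnd ℂ) v))) (ball (w0 : ℂ) ε) := by
    refine sec_eq g (convex_ball (w0 : ℂ) ε).isPreconnected hθ ?_ h ?_ hd (mem_ball_self hε) ?_
    · refine Complex.continuous_conj.comp_continuousOn ?_
      exact hθ.comp Complex.continuous_conj.continuousOn hconj
    · intro v hv
      show g.eval ((starRingEnd ℂ) (θ ((starRingEnd ℂ) v))) = v
      rw [hg, h _ (hconj v hv), Complex.conj_conj]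
    · show θ w0 = (starRingEnd ℂ) (θ ((starRingEnd ℂ) w0))
      rw [Complex.conj_ofReal]
      exact (Complex.conj_eq_iff_im.2 h0).symm
  intro v hv
  have h1 := key hv
  have h2 : θ v = (starRingEnd ℂ) (θ ((starRingEnd ℂ) v)) := h1
  rw [h2, Complex.conj_conj]

/-- TASK LocInv (4).  `{T | Im g(T) ≠ 0}` is dense if `g` is not constant (open mapping theorem:
`AnalyticOnNhd.is_constant_or_isOpen` or `Complex`-open mapping; if `Im g = 0` on a ball then `g` is
constant there, hence everywhere). -/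
theorem im_dense (g : ℂ[X]) (hg : 1 ≤ g.natDegree) : Dense {T : ℂ | (g.eval T).im ≠ 0} := by
  rw [dense_iff_inter_open]
  intro O hO hne
  by_contra hcon
  have hreal : ∀ T ∈ O, (g.eval T).im = 0 := by
    intro T hT
    by_contra h
    exact hcon ⟨T, hT, h⟩
  have han : AnalyticOnNhd ℂ (fun T => g.eval T) univ :=
    (g.differentiable.differentiableOn).analyticOnNhd isOpen_univ
  rcases han.is_constant_or_isOpen isPreconnected_univ with ⟨w, hw⟩ | hop
  · have h1 : g = C w := by
      apply Polynomial.funext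
      intro T
      rw [eval_C]
      exact hw T (mem_univ T)
    rw [h1, natDegree_C] at hg
    omega
  · have h1 := hop O (subset_univ _) hO
    obtain ⟨T, hT⟩ := hne
    obtain ⟨ε, hε, hb⟩ := Metric.isOpen_iff.1 h1 (g.eval T) (mem_image_of_mem _ hT)
    have h2 : g.eval T + ((ε / 2 : ℝ) : ℂ) * I ∈ ball (g.eval T) ε := by
      rw [mem_ball, dist_eq_norm, add_sub_cancel_left, norm_mul, norm_I, mul_one,
        Complex.norm_real, Real.norm_eq_abs, abs_of_pos (half_pos hε)]
      exact half_lt_self hε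
    obtain ⟨T', hT', h3⟩ := hb h2
    have h4 := hreal T' hT'
    have h3 : g.eval T' = g.eval T + ((ε / 2 : ℝ) : ℂ) * I := h3
    rw [h3, add_im, hreal T hT] at h4
    simp at h4
    linarith

/-- TASK LocInv (5).  The fibres of a nonconstant polynomial are finite. -/
theorem fib_finite (g : ℂ[X]) (hg : 1 ≤ g.natDegree) {s : Set ℂ} (hs : s.Finite) :
    {T : ℂ | g.eval T ∈ s}.Finite := by
  have h1 : {T : ℂ | g.eval T ∈ s} ⊆ ⋃ v ∈ s, {T : ℂ | g.eval T = v} := by
    intro T hT
    exact mem_biUnion (show g.eval T ∈ s from hT) rfl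
  refine (hs.biUnion fun v _ => ?_).subset h1
  have h2 : g - C v ≠ 0 := by
    intro h
    rw [sub_eq_zero.1 h, natDegree_C] at hg
    omega
  refine (Polynomial.finite_setOf_isRoot h2).subset ?_
  intro T hT
  have hT : g.eval T = v := hT
  show (g - C v).eval T = 0
  rw [eval_sub, eval_C, hT, sub_self]

/-- TASK LocInv (6).  The critical values are a finite set. -/
theorem crit_finite (g : ℂ[X]) (hg : 1 ≤ g.natDegree) :
    {v : ℂ | ∃ T, g.eval T = v ∧ g.derivative.eval T = 0}.Finite := by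
  have h2 : g.derivative ≠ 0 := by
    intro h
    have h3 := natDegree_eq_zero_of_derivative_eq_zero h
    omega
  refine ((Polynomial.finite_setOf_isRoot h2).image (fun T => g.eval T)).subset ?_
  rintro v ⟨T, h1, h3⟩
  exact ⟨T, h3, h1⟩

end Pool.W4b1b5d.H33
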