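import Pool.Agent.W_4b1b5d_h33.LabB
import Pool.Agent.W_4b1b5d_h33.LocInv

/-!
# The domain in the label plane
-/

set_option autoImplicit false

namespace Pool.W4b1b5d.H33

open Pool.W4b1b5d.H3 Pool.W4b1b5d.SH Polynomial Set Metric

/-- The domain in the label plane. -/
def Om {D : PD} (p : PS D) : Set ℂ :=
  {T | p.g.eval T ∈ D.H ∧ p.g.eval ((starRingEnd ℂ) T) ∈ D.H}

/-- TASK EndE (1). -/
theorem Om_basic {D : PD} (p : PS D) : IsOpen (Om p) ∧ Dense (Om p) ∧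
    (∀ T ∈ Om p, (starRingEnd ℂ) T ∈ Om p) ∧ (∀ T ∈ Om p, T.im ≠ 0) := by
  have hdeg : 1 ≤ p.g.natDegree := by rw [p.gdeg]; exact D.hM
  refine ⟨?_, ?_, fun T hT => ⟨hT.2, by rw [Complex.conj_conj]; exact hT.1⟩,
    fun T hT => p.g_nonreal hT.1.1⟩
  · exact (D.H_open.preimage p.g.continuous).inter
      (D.H_open.preimage (p.g.continuous.comp Complex.continuous_conj))
  · have hfin : ({T : ℂ | p.g.eval T ∈ D.CV} ∪
        {T : ℂ | p.g.eval ((starRingEnd ℂ) T) ∈ D.CV}).Finite := by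
      refine (fib_finite p.g hdeg D.CV_finite).union ?_
      have h2 : {T : ℂ | p.g.eval ((starRingEnd ℂ) T) ∈ D.CV} =
          (starRingEnd ℂ) ⁻¹' {T : ℂ | p.g.eval T ∈ D.CV} := rfl
      rw [h2]
      exact (fib_finite p.g hdeg D.CV_finite).preimage
        (Function.Injective.injOn (starRingEnd ℂ).injective)
    refine ((im_dense p.g hdeg).diff_finite hfin).mono ?_
    rintro T ⟨h1, h2⟩
    have h3 : (p.g.eval ((starRingEnd ℂ) T)).im ≠ 0 := by
      rw [p.greal, Complex.conj_im]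
      exact neg_ne_zero.2 h1
    exact ⟨⟨h1, fun h => h2 (Or.inl h)⟩, ⟨h3, fun h => h2 (Or.inr h)⟩⟩

/-- The exceptional set. -/
def Fx {D : PD} (p : PS D) (x : V2) : Set ℂ :=
  {T | p.g.derivative.eval T = 0 ∨ p.g.eval T ∈ D.CV ∨ p.g.eval ((starRingEnd ℂ) T) ∈ D.CV ∨
    ∃ Y : ℂ, D.l x < ‖Y‖ ∧ D.R 1 x Y = 0 ∧ D.R 0 x Y = p.g.eval T}

/-- TASK EndE (2).  `g' ≠ 0`, `CV_finite`, `fib_finite`, the critical points are roots of the nonzero
polynomial `dpol x`. -/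
theorem Fx_finite {D : PD} (p : PS D) (x : V2) : (Fx p x).Finite := by
  have hdeg : 1 ≤ p.g.natDegree := by rw [p.gdeg]; exact D.hM
  have h1 : {T : ℂ | p.g.derivative.eval T = 0}.Finite := by
    have hne : p.g.derivative ≠ 0 := by
      intro h
      have := natDegree_eq_zero_of_derivative_eq_zero h
      omega
    exact Polynomial.finite_setOf_isRoot hne
  have h2 : {T : ℂ | p.g.eval T ∈ D.CV}.Finite := fib_finite p.g hdeg D.CV_finite
  have h3 : {T : ℂ | p.g.eval ((starRingEnd ℂ) T) ∈ D.CV}.Finite := by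
    have e : {T : ℂ | p.g.eval ((starRingEnd ℂ) T) ∈ D.CV} =
        (starRingEnd ℂ) ⁻¹' {T : ℂ | p.g.eval T ∈ D.CV} := rfl
    rw [e]
    exact h2.preimage (Function.Injective.injOn (starRingEnd ℂ).injective)
  have h4 : {Y : ℂ | D.l x < ‖Y‖ ∧ D.R 1 x Y = 0}.Finite := by
    have hne : D.dpol x ≠ 0 := by
      intro h0
      have h1 := (D.dpol_deg x).2
      rw [h0, leadingCoeff_zero] at h1
      have hM : (D.M : ℂ) ≠ 0 := by
        have := D.hM
        exact_mod_cast (by omega : D.M ≠ 0)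
      exact mul_ne_zero hM D.ha h1.symm
    refine (Polynomial.finite_setOf_isRoot hne).subset ?_
    rintro Y ⟨hY, hR⟩
    have hY0 : Y ≠ 0 := by
      rintro rfl
      rw [norm_zero] at hY
      exact absurd hY (not_lt.2 (D.lpos x).le)
    show (D.dpol x).eval Y = 0
    rw [← D.R_dpol x hY0, hR, zero_mul]
  have h5 : {T : ℂ | p.g.eval T ∈ (D.R 0 x) '' {Y : ℂ | D.l x < ‖Y‖ ∧ D.R 1 x Y = 0}}.Finite :=
    fib_finite p.g hdeg (h4.image _)
  refine (h1.union (h2.union (h3.union h5))).subset ?_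
  rintro T (h | h | h | ⟨Y, hY, hR1, hR0⟩)
  · exact Or.inl h
  · exact Or.inr (Or.inl h)
  · exact Or.inr (Or.inr (Or.inl h))
  · exact Or.inr (Or.inr (Or.inr ⟨Y, ⟨hY, hR1⟩, hR0⟩))

end Pool.W4b1b5d.H33
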