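import Pool.Agent.W_4b1b5d_h33.Lab

/-!
# Identity of Laurent polynomials
-/

set_option autoImplicit false

namespace Pool.W4b1b5d.H33

open Pool.W4b1b5d.H3 Pool.W4b1b5d.SH Polynomial Set Metric

/-- TASK EndE (3).  Identity of Laurent polynomials.  Multiply by `Y^M`:
`(pol x).eval Y = ∑_m g_m (k Y² + A Y + conj k l²)^m Y^(M-m)` for infinitely many `Y`. -/
theorem laurent_id {D : PD} (x : V2) (g : ℂ[X]) (hg : g.natDegree ≤ D.M) (k : ℂ) (A : ℝ)
    (s : Set ℂ) (hs : s.Infinite)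
    (h : ∀ Y ∈ s, Y ≠ 0 ∧ D.R 0 x Y = g.eval (kap k (D.l x) A Y)) :
    ∀ Y : ℂ, Y ≠ 0 → D.R 0 x Y = g.eval (kap k (D.l x) A Y) := by
  set Q : ℂ[X] := ∑ m ∈ Finset.range (D.M + 1), C (g.coeff m) *
    (C k * X ^ 2 + C (A : ℂ) * X + C ((starRingEnd ℂ) k * (D.l x : ℂ) ^ 2)) ^ m * X ^ (D.M - m)
    with hQ
  have hQe : ∀ Y : ℂ, Y ≠ 0 → Q.eval Y = g.eval (kap k (D.l x) A Y) * Y ^ D.M := by
    intro Y hY
    rw [hQ, Polynomial.eval_finsetSum, Polynomial.eval_eq_sum_range' (n := D.M + 1) (by omega),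
      Finset.sum_mul]
    refine Finset.sum_congr rfl fun m hm => ?_
    have hm' : m ≤ D.M := by
      have := Finset.mem_range.1 hm
      omega
    simp only [eval_mul, eval_C, eval_pow, eval_add, eval_X]
    have e : k * Y ^ 2 + (A : ℂ) * Y + (starRingEnd ℂ) k * (D.l x : ℂ) ^ 2 =
        kap k (D.l x) A Y * Y := by
      unfold kap
      field_simp
    rw [e, mul_pow]
    have e2 : Y ^ D.M = Y ^ m * Y ^ (D.M - m) := by
      rw [← pow_add]
      congr 1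
      omega
    rw [e2]
    ring
  have hpQ : D.pol x = Q := by
    refine Polynomial.eq_of_infinite_eval_eq _ _ (hs.mono fun Y hY => ?_)
    obtain ⟨h0, h1⟩ := h Y hY
    show (D.pol x).eval Y = Q.eval Y
    rw [hQe Y h0, ← D.R_pol x h0, h1]
  intro Y hY
  have h1 := D.R_pol x hY
  rw [hpQ, hQe Y hY] at h1
  exact mul_right_cancel₀ (pow_ne_zero _ hY) h1

end Pool.W4b1b5d.H33
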