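import Pool.Agent.W_4b1b5d_h33.Kap
import Pool.Agent.W_4b1b5d_h13.Entire

/-!
# Complex analysis in the label plane
-/

set_option autoImplicit false

namespace Pool.W4b1b5d.H33

open Complex Metric Set Filter Topology

/-- TASK Ent (1).  A function which is holomorphic on the dense open set `Ω`, which extends
holomorphically to a ball around every point not in `Ω` outside of a finite set `F`, and which is
locally bounded, extends to an entire function.

Proof.  Put `f1 T = limUnder (𝓝[Ω] T) f`.  On `Ω`, `f1 = f`; on the ball around `T ∉ Ω ∪ F`, `f1 = Z`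
(for `T'` in the ball, `𝓝[Ω] T'` is not trivial because `Ω` is dense, and `f = Z` near `T'` on `Ω`,
`Z` continuous at `T'`).  So `f1` is differentiable on the open set `Fᶜ`, and bounded near every point
of `F` (by continuity of `f1` on `Fᶜ` and density, `‖f1 T‖ ≤ C` for `‖T‖ < ρ`, `T ∉ F`).  Put
`G T = limUnder (𝓝[≠] T) f1`: `G = f1` on `Fᶜ`, and near a point `c` of `F`
`G = Function.update f1 c (limUnder (𝓝[≠] c) f1)`, which is differentiable by
`Complex.differentiableOn_update_limUnder_of_bddAbove`. -/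
theorem extend_entire (f : ℂ → ℂ) (Ω F : Set ℂ) (hΩ : IsOpen Ω) (hdense : Dense Ω)
    (hF : F.Finite) (hd : DifferentiableOn ℂ f Ω)
    (hloc : ∀ T, T ∉ Ω → T ∉ F → ∃ δ : ℝ, 0 < δ ∧ ∃ Z : ℂ → ℂ,
      DifferentiableOn ℂ Z (ball T δ) ∧ ∀ T' ∈ ball T δ, T' ∈ Ω → f T' = Z T')
    (hb : ∀ ρ : ℝ, ∃ C : ℝ, ∀ T ∈ Ω, ‖T‖ ≤ ρ → ‖f T‖ ≤ C) :
    ∃ G : ℂ → ℂ, Differentiable ℂ G ∧ ∀ T ∈ Ω, G T = f T := by
  have hNB : ∀ T : ℂ, (𝓝[Ω] T).NeBot := fun T => mem_closure_iff_nhdsWithin_neBot.1 (hdense T)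
  set f1 : ℂ → ℂ := fun T => limUnder (𝓝[Ω] T) f with hf1
  -- `f1 = f` on `Ω`
  have e1 : ∀ T ∈ Ω, f1 T = f T := by
    intro T hT
    haveI := hNB T
    have hc : ContinuousWithinAt f Ω T := (hd T hT).continuousWithinAt
    exact hc.tendsto.limUnder_eq
  -- `f1 = Z` near the points of the second kind
  have e2 : ∀ T (δ : ℝ) (Z : ℂ → ℂ), 0 < δ → DifferentiableOn ℂ Z (ball T δ) →
      (∀ T' ∈ ball T δ, T' ∈ Ω → f T' = Z T') → ∀ T' ∈ ball T δ, f1 T' = Z T' := by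
    intro T δ Z hδ hZ hfZ T' hT'
    haveI := hNB T'
    have hc : ContinuousAt Z T' :=
      ((hZ T' hT').differentiableAt (isOpen_ball.mem_nhds hT')).continuousAt
    have hl : Tendsto Z (𝓝[Ω] T') (𝓝 (Z T')) := hc.tendsto.mono_left nhdsWithin_le_nhds
    have hl2 : Tendsto f (𝓝[Ω] T') (𝓝 (Z T')) := by
      refine hl.congr' ?_
      filter_upwards [self_mem_nhdsWithin, nhdsWithin_le_nhds (isOpen_ball.mem_nhds hT')]
        with S hS1 hS2
      exact (hfZ S hS2 hS1).symm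
    exact hl2.limUnder_eq
  have hd1 : ∀ T, T ∉ F → DifferentiableAt ℂ f1 T := by
    intro T hTF
    by_cases hT : T ∈ Ω
    · refine ((hd T hT).differentiableAt (hΩ.mem_nhds hT)).congr_of_eventuallyEq ?_
      filter_upwards [hΩ.mem_nhds hT] with S hS using e1 S hS
    · obtain ⟨δ, hδ, Z, hZ, hfZ⟩ := hloc T hT hTF
      refine ((hZ T (mem_ball_self hδ)).differentiableAt
        (isOpen_ball.mem_nhds (mem_ball_self hδ))).congr_of_eventuallyEq ?_
      filter_upwards [isOpen_ball.mem_nhds (mem_ball_self hδ)] with S hS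
      exact e2 T δ Z hδ hZ hfZ S hS
  -- local bound
  have hb1 : ∀ ρ : ℝ, ∃ C : ℝ, ∀ T, T ∉ F → ‖T‖ < ρ → ‖f1 T‖ ≤ C := by
    intro ρ
    obtain ⟨C, hC⟩ := hb ρ
    refine ⟨C, fun T hTF hT => ?_⟩
    haveI := hNB T
    have hc : Tendsto (fun S => ‖f1 S‖) (𝓝[Ω] T) (𝓝 ‖f1 T‖) :=
      ((hd1 T hTF).continuousAt.tendsto.norm).mono_left nhdsWithin_le_nhds
    refine le_of_tendsto hc ?_
    have hball : {S : ℂ | ‖S‖ < ρ} ∈ 𝓝 T := (isOpen_lt continuous_norm continuous_const).mem_nhds hT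
    filter_upwards [self_mem_nhdsWithin, nhdsWithin_le_nhds hball] with S hS1 hS2
    rw [e1 S hS1]
    exact hC S hS1 (le_of_lt hS2)
  have hFo : IsOpen Fᶜ := hF.isClosed.isOpen_compl
  have hG : ∀ T, T ∉ F → limUnder (𝓝[≠] T) f1 = f1 T := by
    intro T hT
    have := (hd1 T hT).continuousAt.tendsto.mono_left (nhdsWithin_le_nhds (s := {T}ᶜ))
    exact this.limUnder_eq
  refine ⟨fun T => limUnder (𝓝[≠] T) f1, fun c => ?_, fun T hT => ?_⟩
  · by_cases hc : c ∈ F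
    · obtain ⟨C, hC⟩ := hb1 (‖c‖ + 1)
      have hn : (F \ {c})ᶜ ∈ 𝓝 c :=
        (hF.subset sdiff_subset).isClosed.isOpen_compl.mem_nhds (fun h => h.2 rfl)
      have hn2 : {S : ℂ | ‖S‖ < ‖c‖ + 1} ∈ 𝓝 c :=
        (isOpen_lt continuous_norm continuous_const).mem_nhds (by simp)
      set s := {S : ℂ | ‖S‖ < ‖c‖ + 1} ∩ (F \ {c})ᶜ with hs
      have hsn : s ∈ 𝓝 c := inter_mem hn2 hn
      have hsN : ∀ S ∈ s \ {c}, S ∉ F := fun S hS hcon => hS.1.2 ⟨hcon, hS.2⟩
      have h4 := Complex.differentiableOn_update_limUnder_of_bddAbove (f := f1) hsn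
        (fun S hS => (hd1 S (hsN S hS)).differentiableWithinAt)
        ⟨C, by rintro _ ⟨S, hS, rfl⟩; exact hC S (hsN S hS) hS.1.1⟩
      refine (h4.differentiableAt hsn).congr_of_eventuallyEq ?_
      filter_upwards [hsn] with S hS
      by_cases hSc : S = c
      · subst hSc; simp
      · rw [Function.update_of_ne hSc]
        exact hG S (hsN S ⟨hS, hSc⟩)
    · refine (hd1 c hc).congr_of_eventuallyEq ?_
      filter_upwards [hFo.mem_nhds hc] with S hS using hG S hS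
  · -- on `Ω` (also if `T ∈ F`)
    show limUnder (𝓝[≠] T) f1 = f T
    have hc : ContinuousAt f1 T := by
      refine (((hd T hT).differentiableAt (hΩ.mem_nhds hT)).congr_of_eventuallyEq ?_).continuousAt
      filter_upwards [hΩ.mem_nhds hT] with S hS using e1 S hS
    rw [(hc.tendsto.mono_left (nhdsWithin_le_nhds (s := {T}ᶜ))).limUnder_eq, e1 T hT]

/-- TASK Ent (2).  Liouville: `G T - T` is entire and bounded (by continuity and density the estimate
holds for all `‖T‖ > ρ`, and on the compact ball it is bounded by continuity). -/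
theorem liou (G : ℂ → ℂ) (hG : Differentiable ℂ G) (Ω : Set ℂ) (hdense : Dense Ω) (ρ C : ℝ)
    (hC : ∀ T ∈ Ω, ρ ≤ ‖T‖ → ‖G T - T‖ ≤ C) : ∃ A : ℂ, ∀ T, G T = T - A := by
  have hd : Differentiable ℂ fun T => G T - T := hG.sub differentiable_id
  have hC' : ∀ T, ρ < ‖T‖ → ‖G T - T‖ ≤ C := by
    intro T hT
    haveI : (𝓝[Ω] T).NeBot := mem_closure_iff_nhdsWithin_neBot.1 (hdense T)
    have hc : Tendsto (fun S => ‖G S - S‖) (𝓝[Ω] T) (𝓝 ‖G T - T‖) :=
      (hd.continuous.tendsto T).norm.mono_left nhdsWithin_le_nhds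
    refine le_of_tendsto hc ?_
    have hball : {S : ℂ | ρ < ‖S‖} ∈ 𝓝 T := (isOpen_lt continuous_const continuous_norm).mem_nhds hT
    filter_upwards [self_mem_nhdsWithin, nhdsWithin_le_nhds hball] with S hS1 hS2
    exact hC S hS1 (le_of_lt hS2)
  have hb : Bornology.IsBounded (range fun T => G T - T) := by
    obtain ⟨M, hM⟩ := (isCompact_closedBall (0 : ℂ) ρ).exists_bound_of_continuousOn
      hd.continuous.continuousOn
    refine isBounded_iff_forall_norm_le.2 ⟨max M C, ?_⟩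
    rintro _ ⟨T, rfl⟩
    rcases le_or_gt ‖T‖ ρ with h | h
    · exact (hM T (by simpa using h)).trans (le_max_left _ _)
    · exact (hC' T h).trans (le_max_right _ _)
  refine ⟨-(G 0 - 0), fun T => ?_⟩
  have := hd.apply_eq_apply_of_bounded hb T 0
  linear_combination this

/-- TASK Ent (3).  Pole argument and algebra.  `y T = k z T`, `y* T = conj (y (conj T))`.
The hypothesis at `T` and the conjugate of the hypothesis at `conj T` are
`y + l²/y* = T - A` and `y* + l²/y = T - conj A`.  Multiply by `y*` and by `y`: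
`(T - A) y* = (T - conj A) y`.

If `A` is not real: for `T ∈ Ω` near `conj A` (`T ≠ conj A`), insert `y* = y (T - conj A)/(T - A)` in
`y y* + l² = (T - A) y*`: `y² + l² (T - A)/(T - conj A) = (T - A) y`.  For `T → conj A` in `Ω`
(`Ω` is dense, `conj A` is not isolated) `y` stays bounded and `T - A → conj A - A ≠ 0`, but
`l² |T - A|/|T - conj A| → ∞`.  Contradiction.

If `A` is real then `T ≠ A` (`T` is not real), so `y* = y`, and `y + l²/y = T - A`, that is
`kap k l A (z T) = T` because `l²/(k z) = conj k l²/z`. -/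
theorem pole {k A : ℂ} {l : ℝ} (hk : ‖k‖ = 1) (hl : 0 < l) (Ω : Set ℂ) (hdense : Dense Ω)
    (hsymm : ∀ T ∈ Ω, (starRingEnd ℂ) T ∈ Ω) (him : ∀ T ∈ Ω, T.im ≠ 0) (z : ℂ → ℂ)
    (hz : ∀ T ∈ Ω, l < ‖z T‖) (hb : ∀ ρ : ℝ, ∃ C : ℝ, ∀ T ∈ Ω, ‖T‖ ≤ ρ → ‖z T‖ ≤ C)
    (h : ∀ T ∈ Ω, k * z T + (l : ℂ) ^ 2 / (starRingEnd ℂ) (k * z ((starRingEnd ℂ) T)) = T - A) :
    A.im = 0 ∧ ∀ T ∈ Ω, kap k l A.re (z T) = T := by
  have hk0 : k ≠ 0 := by
    rintro rfl
    rw [norm_zero] at hk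
    exact zero_ne_one hk
  have hkc : k * (starRingEnd ℂ) k = 1 := by
    rw [Complex.mul_conj, Complex.normSq_eq_norm_sq, hk]; norm_num
  obtain ⟨h1, h2⟩ := Pool.W4b1b5d.H13.alg_real (D := Ω) him hsymm hdense hl
    (z := fun T => k * z T) (A := A)
    (fun T hT => by rw [norm_mul, hk, one_mul]; exact (hz T hT).le)
    (fun T0 => by
      obtain ⟨C, hC⟩ := hb (‖T0‖ + 1)
      refine ⟨C, ?_⟩
      have hball : {S : ℂ | ‖S‖ < ‖T0‖ + 1} ∈ 𝓝 T0 :=
        (isOpen_lt continuous_norm continuous_const).mem_nhds (by simp)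
      filter_upwards [hball] with T hT hTΩ
      rw [norm_mul, hk, one_mul]
      exact hC T hTΩ (le_of_lt hT)) h
  refine ⟨h1, fun T hT => ?_⟩
  have e := h2 T hT
  have hA : (A.re : ℂ) = A := Complex.ext (by simp) (by simp [h1])
  have hzT : z T ≠ 0 := fun hcon => by
    have := hz T hT
    rw [hcon, norm_zero] at this
    linarith
  have e2 : (l : ℂ) ^ 2 / (k * z T) = (starRingEnd ℂ) k * (l : ℂ) ^ 2 / z T := by
    rw [div_eq_div_iff (mul_ne_zero hk0 hzT) hzT]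
    linear_combination (-(l : ℂ) ^ 2 * z T) * hkc
  rw [e2] at e
  unfold kap
  rw [hA]
  linear_combination e

/-- TASK Ent (4).  **The conclusion in the label plane.**  `z` is holomorphic on `Ω`, `Ω` is open,
dense, symmetric, without real points; `f T = k z T + l²/conj (k z (conj T))` extends
holomorphically to a ball around every point outside of `Ω` and outside of a finite set, `z` is locally
bounded and `k z T - T` is bounded for large `T`.  Then `kap k l A (z T) = T` on `Ω` with a real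
constant `A`.

Proof.  `f` is differentiable on `Ω`: `T ↦ conj (z (conj T))` is differentiable on `Ω`
(`DifferentiableAt.star_star` or `differentiableAt_conj_iff...`) and not zero.  `f` is locally bounded
(`‖l²/conj(..)‖ ≤ l`) and `‖f T - T‖ ≤ C + l` for large `T ∈ Ω`.  (1), (2), (3). -/
theorem tplane {k : ℂ} {l : ℝ} (hk : ‖k‖ = 1) (hl : 0 < l) (Ω F : Set ℂ) (hΩ : IsOpen Ω)
    (hdense : Dense Ω) (hsymm : ∀ T ∈ Ω, (starRingEnd ℂ) T ∈ Ω) (him : ∀ T ∈ Ω, T.im ≠ 0)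
    (hF : F.Finite) (z : ℂ → ℂ) (hd : DifferentiableOn ℂ z Ω) (hz : ∀ T ∈ Ω, l < ‖z T‖)
    (hb : ∀ ρ : ℝ, ∃ C : ℝ, ∀ T ∈ Ω, ‖T‖ ≤ ρ → ‖z T‖ ≤ C)
    (hloc : ∀ T, T ∉ Ω → T ∉ F → ∃ δ : ℝ, 0 < δ ∧ ∃ Z : ℂ → ℂ,
      DifferentiableOn ℂ Z (ball T δ) ∧ ∀ T' ∈ ball T δ, T' ∈ Ω →
        k * z T' + (l : ℂ) ^ 2 / (starRingEnd ℂ) (k * z ((starRingEnd ℂ) T')) = Z T')
    (ρ C : ℝ) (hC : ∀ T ∈ Ω, ρ ≤ ‖T‖ → ‖k * z T - T‖ ≤ C) :
    ∃ A : ℝ, ∀ T ∈ Ω, kap k l A (z T) = T := by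
  have hk0 : k ≠ 0 := by
    rintro rfl
    rw [norm_zero] at hk
    exact zero_ne_one hk
  have hz0 : ∀ T ∈ Ω, z T ≠ 0 := fun T hT hcon => by
    have := hz T hT
    rw [hcon, norm_zero] at this
    linarith
  set f : ℂ → ℂ := fun T => k * z T + (l : ℂ) ^ 2 / (starRingEnd ℂ) (k * z ((starRingEnd ℂ) T))
    with hf
  have hfd : DifferentiableOn ℂ f Ω := by
    intro T hT
    refine DifferentiableAt.differentiableWithinAt ?_
    have hTc := hsymm T hT
    have d1 : DifferentiableAt ℂ (fun T => k * z T) T :=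
      ((hd T hT).differentiableAt (hΩ.mem_nhds hT)).const_mul k
    have d2 : DifferentiableAt ℂ (fun T => k * z T) ((starRingEnd ℂ) T) :=
      ((hd _ hTc).differentiableAt (hΩ.mem_nhds hTc)).const_mul k
    have d3 : DifferentiableAt ℂ ((starRingEnd ℂ) ∘ (fun T => k * z T) ∘ (starRingEnd ℂ)) T :=
      differentiableAt_conj_conj_iff.2 d2
    refine d1.add ((differentiableAt_const _).div d3 ?_)
    exact (_root_.map_ne_zero _).2 (mul_ne_zero hk0 (hz0 _ hTc))
  have hsec : ∀ T ∈ Ω, ‖(l : ℂ) ^ 2 / (starRingEnd ℂ) (k * z ((starRingEnd ℂ) T))‖ ≤ l := by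
    intro T hT
    have h1 := hz _ (hsymm T hT)
    rw [norm_div, RCLike.norm_conj, norm_mul, hk, one_mul, norm_pow, Complex.norm_real,
      Real.norm_eq_abs, abs_of_pos hl, div_le_iff₀ (by linarith)]
    nlinarith
  obtain ⟨G, hGd, hG⟩ := extend_entire f Ω F hΩ hdense hF hfd hloc (fun ρ => by
    obtain ⟨C, hC⟩ := hb ρ
    refine ⟨C + l, fun T hT hTρ => ?_⟩
    refine (norm_add_le _ _).trans (add_le_add ?_ (hsec T hT))
    rw [norm_mul, hk, one_mul]
    exact hC T hT hTρ)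
  obtain ⟨A, hA⟩ := liou G hGd Ω hdense ρ (C + l) (fun T hT hTρ => by
    rw [hG T hT, hf]
    show ‖k * z T + (l : ℂ) ^ 2 / (starRingEnd ℂ) (k * z ((starRingEnd ℂ) T)) - T‖ ≤ C + l
    rw [add_sub_right_comm]
    exact (norm_add_le _ _).trans (add_le_add (hC T hT hTρ) (hsec T hT)))
  obtain ⟨-, h2⟩ := pole hk hl Ω hdense hsymm him z hz hb (A := A) (fun T hT => by
    have := hG T hT
    rw [hA] at this
    exact this.symm)
  exact ⟨A.re, h2⟩

end Pool.W4b1b5d.H33
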