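import Pool.Agent.W_4b1b5d_h33.ExtB

/-!
# Extension of `f` at real points
-/

set_option autoImplicit false

namespace Pool.W4b1b5d.H33

open Pool.W4b1b5d.H3 Pool.W4b1b5d.SH Polynomial Set Metric

/-- Pasting along the real axis. -/
theorem ExtD_paste {U : Set ℂ} {f1 f2 : ℂ → ℂ} (h1 : ContinuousOn f1 (U ∩ {v | 0 ≤ v.im}))
    (h2 : ContinuousOn f2 (U ∩ {v | v.im ≤ 0})) (h : ∀ v ∈ U, v.im = 0 → f1 v = f2 v) :
    ContinuousOn (fun v => if 0 ≤ v.im then f1 v else f2 v) U := by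
  classical
  have hcl : closure {v : ℂ | 0 ≤ v.im} = {v : ℂ | 0 ≤ v.im} :=
    (isClosed_le continuous_const Complex.continuous_im).closure_eq
  have hneg : {v : ℂ | ¬ 0 ≤ v.im} = {v : ℂ | v.im < 0} := by
    ext v
    simp
  refine ContinuousOn.if ?_ ?_ ?_
  · intro v hv
    have h3 := hv.2
    rw [Complex.frontier_setOfPred_le_im] at h3
    exact h v hv.1 h3
  · rw [hcl]
    exact h1
  · rw [hneg, Complex.closure_setOfPred_im_lt]
    exact h2

/-- Points of a small ball with real centre. -/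
theorem ExtD_mem {w0 ε τ : ℝ} (h : ε ≤ τ) {v : ℂ} (hv : v ∈ ball (w0 : ℂ) ε) : |v.im| < τ := by
  rw [mem_ball, dist_eq_norm] at hv
  have h1 := Complex.abs_im_le_norm (v - w0)
  have h2 : (v - w0).im = v.im := by simp
  rw [h2] at h1
  linarith

theorem ExtD_us1 {τ : ℝ} {v : ℂ} (h1 : 0 ≤ v.im) (h2 : |v.im| < τ) : v ∈ Us 1 τ :=
  ⟨by rwa [one_mul], by rw [one_mul]; exact (abs_lt.1 h2).2⟩

theorem ExtD_us2 {τ : ℝ} {v : ℂ} (h1 : v.im ≤ 0) (h2 : |v.im| < τ) : v ∈ Us (-1) τ :=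
  ⟨by linarith, by linarith [(abs_lt.1 h2).1]⟩

theorem ExtD_ks1 {τ : ℝ} {v : ℂ} (h1 : 0 < v.im) (h2 : |v.im| < τ) : v ∈ Ks 1 τ :=
  ⟨by rwa [one_mul], by rw [one_mul]; exact (abs_lt.1 h2).2⟩

theorem ExtD_ks2 {τ : ℝ} {v : ℂ} (h1 : v.im < 0) (h2 : |v.im| < τ) : v ∈ Ks (-1) τ :=
  ⟨by linarith, by linarith [(abs_lt.1 h2).1]⟩

theorem ExtD_mem0 (s : ℝ) {τ : ℝ} (hτ : 0 < τ) (w : ℝ) : (w : ℂ) ∈ Us s τ :=
  ⟨by simp, by simpa using hτ⟩

/-- The sheets are continuous in `v`. -/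
theorem ExtD_cont {D : PD} {s τ : ℝ} (S : Sh D 2 s τ) (j : Fin S.n) (x : V2) :
    ContinuousOn (fun v => S.P j x v) (Us s τ) := by
  have hc : Continuous (fun w : ℂ => ((x, w) : V2 × ℂ)) := by fun_prop
  exact (S.cont j).comp hc.continuousOn (fun v hv => ⟨mem_univ _, hv⟩)

theorem ExtD_ne {D : PD} {s τ : ℝ} (S : Sh D 2 s τ) (j : Fin S.n) (x : V2) {v : ℂ}
    (hv : v ∈ Us s τ) : S.P j x v ≠ 0 := by
  intro h
  have h1 := S.le j x v hv
  rw [h, norm_zero, zero_pow (by norm_num)] at h1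
  exact absurd (D.lpos x) (not_lt.2 h1)

/-- The set of the outer critical values is finite. -/
theorem ExtD_crit (D : PD) (x : V2) :
    {v : ℂ | ∃ Y : ℂ, D.l x < ‖Y‖ ∧ D.R 0 x Y = v ∧ D.R 1 x Y = 0}.Finite := by
  have hne : D.dpol x ≠ 0 := by
    intro h
    have h1 := (D.dpol_deg x).1
    rw [h, natDegree_zero] at h1
    have h2 := D.hM
    omega
  refine Set.Finite.subset (((D.dpol x).roots.toFinset.finite_toSet).image
    (fun Y => D.R 0 x Y)) ?_
  rintro v ⟨Y, hY, h1, h2⟩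
  have hY0 : Y ≠ 0 := by
    rintro rfl
    rw [norm_zero] at hY
    exact lt_asymm hY (D.lpos x)
  refine ⟨Y, ?_, h1⟩
  rw [Finset.mem_coe, Multiset.mem_toFinset, mem_roots hne, IsRoot.def, ← D.R_dpol x hY0, h2,
    zero_mul]

/-- The radius without outer critical values. -/
theorem ExtD_rad (D : PD) (x : V2) (w0 : ℂ)
    (hcrit : ∀ Y : ℂ, D.l x < ‖Y‖ → D.R 0 x Y = w0 → D.R 1 x Y ≠ 0) :
    ∃ ε : ℝ, 0 < ε ∧ ∀ v ∈ ball w0 ε,
      ∀ Y : ℂ, D.l x < ‖Y‖ → D.R 0 x Y = v → D.R 1 x Y ≠ 0 := by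
  have hop : IsOpen ({v : ℂ | ∃ Y : ℂ, D.l x < ‖Y‖ ∧ D.R 0 x Y = v ∧ D.R 1 x Y = 0}ᶜ) :=
    (ExtD_crit D x).isClosed.isOpen_compl
  obtain ⟨ε, hε, hb⟩ := Metric.isOpen_iff.1 hop w0 (by
    rintro ⟨Y, h1, h2, h3⟩
    exact hcrit Y h1 h2 h3)
  refine ⟨ε, hε, fun v hv Y h1 h2 h3 => hb hv ⟨Y, h1, h2, h3⟩⟩

/-- The two formulas agree on the real axis. -/
theorem ExtD_eq {k a b : ℂ} {l : ℝ} (hk : ‖k‖ = 1) (hl : 0 < l)
    (h : a = b ∨ (‖a‖ = l ∧ ‖b‖ = l)) :
    k * a + (l : ℂ) ^ 2 / (starRingEnd ℂ) (k * b) =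
      k * b + (l : ℂ) ^ 2 / (starRingEnd ℂ) (k * a) := by
  have key : ∀ c : ℂ, ‖c‖ = l → (l : ℂ) ^ 2 / (starRingEnd ℂ) (k * c) = k * c := by
    intro c hc
    have h1 : ‖k * c‖ = l := by rw [norm_mul, hk, one_mul, hc]
    have h2 : (l : ℂ) ^ 2 = k * c * (starRingEnd ℂ) (k * c) := by
      rw [Complex.mul_conj, Complex.normSq_eq_norm_sq, h1]
      push_cast
      ring
    have h3 : k * c ≠ 0 := by
      intro h0
      rw [h0, norm_zero] at h1
      exact hl.ne h1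
    have h4 : (starRingEnd ℂ) (k * c) ≠ 0 := (_root_.map_ne_zero _).2 h3
    rw [h2, mul_div_assoc, div_self h4, mul_one]
  rcases h with rfl | ⟨h1, h2⟩
  · rfl
  · rw [key a h1, key b h2, add_comm]

/-- TASK Ext (5).  Extension of `f T = k z(T) + l²/conj (k z(conj T))` near a real point `T0`.

Proof.  `w0 = g(T0)` is real; `loc_inv` (`r = τ`), `ex_sheet`: `j`, `i`; `sec_conj`:
`θ (conj v) = conj (θ v)`.  There is `ε' ≤ ε` such that no real `w` with `|w - w0| < ε'`, is an outer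
critical value of `R(x,·)` (the outer critical points are roots of `dpol x`, finitely many, and `w0` is
not a critical value by `hcrit`).  Put for `v ∈ ball w0 ε'`
`F v = k P_j(v)² + l²/conj (k P_i(conj v)²)` if `0 ≤ Im v` (`P_j` of `S`, `P_i` of `T`) and
`F v = k P_i(v)² + l²/conj (k P_j(conj v)²)` if `Im v < 0`.  It is continuous on the ball: on the real
points the two formulas agree by `bdry_eq`, because `l²/conj (k Y) = k l²/conj Y` and on the circle
`l²/conj Y = Y`.  It is differentiable where `Im v ≠ 0` (`Sh.dv_in`, `conj ∘ f ∘ conj`).  So it is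
differentiable (Painleve), `Z T = F (g T)`.  For `T' ∈ ball T0 δ'` with `g T', g (conj T') ∈ D.H`:
`T' = θ (g T')`, `conj T' = θ (conj (g T'))`, and `z_lab`. -/
theorem ext_real {D : PD} (p : PS D) {τ : ℝ} (hτ : 0 < τ) (hH : Ks 1 τ ⊆ D.H)
    (hH' : Ks (-1) τ ⊆ D.H) (S : Sh D 2 1 τ) (T : Sh D 2 (-1) τ) (hNB : NB p S T) (x : V2)
    (T0 : ℂ) (h0 : T0.im = 0) (hd : p.g.derivative.eval T0 ≠ 0)
    (hcrit : ∀ Y : ℂ, D.l x < ‖Y‖ → D.R 0 x Y = p.g.eval T0 → D.R 1 x Y ≠ 0) :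
    ∃ δ : ℝ, 0 < δ ∧ ∃ Z : ℂ → ℂ, DifferentiableOn ℂ Z (ball T0 δ) ∧
      ∀ T' ∈ ball T0 δ, p.g.eval T' ∈ D.H → p.g.eval ((starRingEnd ℂ) T') ∈ D.H →
        p.k * p.z x T' + (D.l x : ℂ) ^ 2 / (starRingEnd ℂ) (p.k * p.z x ((starRingEnd ℂ) T'))
          = Z T' := by
  classical
  have hk := p.hk
  have hl := D.lpos x
  have hk0 : p.k ≠ 0 := by
    intro h
    rw [h, norm_zero] at hk
    exact zero_ne_one hk
  have hT0c : (starRingEnd ℂ) T0 = T0 := Complex.conj_eq_iff_im.2 h0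
  obtain ⟨w0, hw0⟩ : ∃ w0 : ℝ, p.g.eval T0 = (w0 : ℂ) := by
    refine ⟨(p.g.eval T0).re, ?_⟩
    have h1 := p.greal T0
    rw [hT0c] at h1
    exact (Complex.conj_eq_iff_real.1 h1.symm).elim fun r hr => by rw [hr]; simp
  obtain ⟨ε, δ, θ, hε, hετ, hδ, hθd, hθ0, hθ, hθT⟩ := loc_inv p.g T0 hd τ hτ
  rw [hw0] at hθd hθ0 hθ hθT hcrit
  have hθc : ContinuousOn θ (ball (w0 : ℂ) ε) := hθd.continuousOn
  obtain ⟨j, hj⟩ := ex_sheet p (Or.inl rfl) hτ S w0 ε hε θ hθc hθ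
  obtain ⟨i, hi⟩ := ex_sheet p (Or.inr rfl) hτ T w0 ε hε θ hθc hθ
  obtain ⟨ε1, hε1, hb1⟩ := ExtD_rad D x w0 hcrit
  set ε' := min ε ε1 with hε'
  have hε'0 : 0 < ε' := lt_min hε hε1
  have hsub : ball (w0 : ℂ) ε' ⊆ ball (w0 : ℂ) ε := ball_subset_ball (min_le_left _ _)
  have hsub1 : ball (w0 : ℂ) ε' ⊆ ball (w0 : ℂ) ε1 := ball_subset_ball (min_le_right _ _)
  have hτ' : ∀ v ∈ ball (w0 : ℂ) ε', |v.im| < τ := fun v hv => ExtD_mem hετ (hsub hv)
  have hconjb : ∀ v ∈ ball (w0 : ℂ) ε', (starRingEnd ℂ) v ∈ ball (w0 : ℂ) ε' := by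
    intro v hv
    rw [mem_ball] at hv ⊢
    have h1 := Complex.dist_conj_conj v (w0 : ℂ)
    rw [Complex.conj_ofReal] at h1
    rw [h1]
    exact hv
  set f1 : ℂ → ℂ := fun v => p.k * S.P j x v ^ 2 +
    (D.l x : ℂ) ^ 2 / (starRingEnd ℂ) (p.k * T.P i x ((starRingEnd ℂ) v) ^ 2) with hf1
  set f2 : ℂ → ℂ := fun v => p.k * T.P i x v ^ 2 +
    (D.l x : ℂ) ^ 2 / (starRingEnd ℂ) (p.k * S.P j x ((starRingEnd ℂ) v) ^ 2) with hf2
  have hreal : ∀ v ∈ ball (w0 : ℂ) ε', v.im = 0 → f1 v = f2 v := by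
    intro v hv hv0
    obtain ⟨w, rfl⟩ : ∃ w : ℝ, v = (w : ℂ) := ⟨v.re, Complex.ext (by simp) (by simp [hv0])⟩
    have h1 := bdry_eq p hτ hH hH' S T hNB w0 ε θ hθc hθ j i hj hi x w (hsub hv)
      (hb1 w (hsub1 hv))
    simp only [hf1, hf2, Complex.conj_ofReal]
    apply ExtD_eq hk hl
    rw [norm_pow, norm_pow]
    exact h1
  set F : ℂ → ℂ := fun v => if 0 ≤ v.im then f1 v else f2 v with hF
  have hS : ContinuousOn (fun v => S.P j x v) (Us 1 τ) := ExtD_cont S j x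
  have hT : ContinuousOn (fun v => T.P i x v) (Us (-1) τ) := ExtD_cont T i x
  have hcF : ContinuousOn F (ball (w0 : ℂ) ε') := by
    refine ExtD_paste ?_ ?_ hreal
    · have h1 : ContinuousOn (fun v => T.P i x ((starRingEnd ℂ) v))
          (ball (w0 : ℂ) ε' ∩ {v | 0 ≤ v.im}) := by
        refine hT.comp Complex.continuous_conj.continuousOn ?_
        intro v hv
        have h2 : ((starRingEnd ℂ) v).im ≤ 0 := by
          rw [Complex.conj_im]
          exact neg_nonpos.2 hv.2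
        exact ExtD_us2 h2 (hτ' _ (hconjb v hv.1))
      have h2 : ContinuousOn (fun v => S.P j x v) (ball (w0 : ℂ) ε' ∩ {v | 0 ≤ v.im}) :=
        hS.mono fun v hv => ExtD_us1 hv.2 (hτ' v hv.1)
      refine (continuousOn_const.mul (h2.pow 2)).add (continuousOn_const.div ?_ ?_)
      · exact Complex.continuous_conj.comp_continuousOn (continuousOn_const.mul (h1.pow 2))
      · intro v hv
        have h3 : ((starRingEnd ℂ) v).im ≤ 0 := by
          rw [Complex.conj_im]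
          exact neg_nonpos.2 hv.2
        exact (_root_.map_ne_zero _).2 (mul_ne_zero hk0 (pow_ne_zero _
          (ExtD_ne T i x (ExtD_us2 h3 (hτ' _ (hconjb v hv.1))))))
    · have h1 : ContinuousOn (fun v => S.P j x ((starRingEnd ℂ) v))
          (ball (w0 : ℂ) ε' ∩ {v | v.im ≤ 0}) := by
        refine hS.comp Complex.continuous_conj.continuousOn ?_
        intro v hv
        have h2 : 0 ≤ ((starRingEnd ℂ) v).im := by
          rw [Complex.conj_im]
          exact neg_nonneg.2 hv.2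
        exact ExtD_us1 h2 (hτ' _ (hconjb v hv.1))
      have h2 : ContinuousOn (fun v => T.P i x v) (ball (w0 : ℂ) ε' ∩ {v | v.im ≤ 0}) :=
        hT.mono fun v hv => ExtD_us2 hv.2 (hτ' v hv.1)
      refine (continuousOn_const.mul (h2.pow 2)).add (continuousOn_const.div ?_ ?_)
      · exact Complex.continuous_conj.comp_continuousOn (continuousOn_const.mul (h1.pow 2))
      · intro v hv
        have h3 : 0 ≤ ((starRingEnd ℂ) v).im := by
          rw [Complex.conj_im]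
          exact neg_nonneg.2 hv.2
        exact (_root_.map_ne_zero _).2 (mul_ne_zero hk0 (pow_ne_zero _
          (ExtD_ne S j x (ExtD_us1 h3 (hτ' _ (hconjb v hv.1))))))
  -- complex differentiability of the reflected term
  have hrefl : ∀ {P : ℂ → ℂ} {v : ℂ}, DifferentiableAt ℂ P ((starRingEnd ℂ) v) →
      P ((starRingEnd ℂ) v) ≠ 0 → DifferentiableAt ℂ (fun u =>
        (D.l x : ℂ) ^ 2 / (starRingEnd ℂ) (p.k * P ((starRingEnd ℂ) u) ^ 2)) v := by
    intro P v hP hP0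
    have h1 := hP.conj_conj
    rw [Complex.conj_conj] at h1
    have h2 : (fun u => (D.l x : ℂ) ^ 2 / (starRingEnd ℂ) (p.k * P ((starRingEnd ℂ) u) ^ 2)) =
        fun u => (D.l x : ℂ) ^ 2 / ((starRingEnd ℂ) p.k *
          ((⇑(starRingEnd ℂ) ∘ P ∘ ⇑(starRingEnd ℂ)) u) ^ 2) := by
      funext u
      simp
    rw [h2]
    refine DifferentiableAt.div (differentiableAt_const _)
      ((differentiableAt_const _).mul (h1.pow 2)) ?_
    exact mul_ne_zero ((_root_.map_ne_zero _).2 hk0) (pow_ne_zero _ ((_root_.map_ne_zero _).2 hP0))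
  have hdF : ∀ v ∈ ball (w0 : ℂ) ε', v.im ≠ 0 → DifferentiableAt ℂ F v := by
    intro v hv hv0
    rcases lt_or_gt_of_ne hv0 with hv1 | hv1
    · have hvc : 0 < ((starRingEnd ℂ) v).im := by
        rw [Complex.conj_im]
        exact neg_pos.2 hv1
      have hvc' := hτ' _ (hconjb v hv)
      have h1 : DifferentiableAt ℂ f2 v :=
        ((differentiableAt_const _).mul
          ((T.dv_in (by norm_num) hH' i x v (ExtD_ks2 hv1 (hτ' v hv))).differentiableAt.pow 2)).add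
        (hrefl (S.dv_in (by norm_num) hH j x _ (ExtD_ks1 hvc hvc')).differentiableAt
          (ExtD_ne S j x (ExtD_us1 hvc.le hvc')))
      refine h1.congr_of_eventuallyEq ?_
      filter_upwards [(isOpen_lt Complex.continuous_im continuous_const).mem_nhds hv1] with u hu
      have hu : u.im < 0 := hu
      show (if 0 ≤ u.im then f1 u else f2 u) = f2 u
      rw [if_neg (not_le.2 hu)]
    · have hvc : ((starRingEnd ℂ) v).im < 0 := by
        rw [Complex.conj_im]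
        exact neg_neg_iff_pos.2 hv1
      have hvc' := hτ' _ (hconjb v hv)
      have h1 : DifferentiableAt ℂ f1 v :=
        ((differentiableAt_const _).mul
          ((S.dv_in (by norm_num) hH j x v (ExtD_ks1 hv1 (hτ' v hv))).differentiableAt.pow 2)).add
        (hrefl (T.dv_in (by norm_num) hH' i x _ (ExtD_ks2 hvc hvc')).differentiableAt
          (ExtD_ne T i x (ExtD_us2 hvc.le hvc')))
      refine h1.congr_of_eventuallyEq ?_
      filter_upwards [(isOpen_lt continuous_const Complex.continuous_im).mem_nhds hv1] with u hu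
      have hu : 0 < u.im := hu
      show (if 0 ≤ u.im then f1 u else f2 u) = f1 u
      rw [if_pos hu.le]
  have hY := H34.painleve isOpen_ball hcF hdF
  obtain ⟨δ1, hδ1, hb2⟩ := Metric.isOpen_iff.1
    ((isOpen_ball (x := (w0 : ℂ)) (ε := ε')).preimage p.g.continuous) T0
    (by show p.g.eval T0 ∈ ball (w0 : ℂ) ε'; rw [hw0]; exact mem_ball_self hε'0)
  refine ⟨min δ δ1, lt_min hδ hδ1, fun T' => F (p.g.eval T'), ?_, ?_⟩
  · refine hY.comp p.g.differentiable.differentiableOn ?_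
    intro T' hT'
    exact hb2 (ball_subset_ball (min_le_right _ _) hT')
  · intro T' hT' hTH hTH'
    have hconj : (starRingEnd ℂ) T' ∈ ball T0 (min δ δ1) := by
      rw [mem_ball] at hT' ⊢
      have h1 := Complex.dist_conj_conj T' T0
      rw [hT0c] at h1
      rw [h1]
      exact hT'
    have hv : p.g.eval T' ∈ ball (w0 : ℂ) ε' := hb2 (ball_subset_ball (min_le_right _ _) hT')
    have hvc : p.g.eval ((starRingEnd ℂ) T') ∈ ball (w0 : ℂ) ε' :=
      hb2 (ball_subset_ball (min_le_right _ _) hconj)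
    have h3 := hθT T' (ball_subset_ball (min_le_left _ _) hT')
    have h3c := hθT _ (ball_subset_ball (min_le_left _ _) hconj)
    have him : (p.g.eval T').im ≠ 0 := hTH.1
    have hgc := p.greal T'
    show _ = if 0 ≤ (p.g.eval T').im then f1 (p.g.eval T') else f2 (p.g.eval T')
    rcases lt_or_gt_of_ne him with h1 | h1
    · rw [if_neg (not_le.2 h1)]
      have h1c : 0 < (p.g.eval ((starRingEnd ℂ) T')).im := by
        rw [hgc, Complex.conj_im]
        exact neg_pos.2 h1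
      have h4 : p.lab T i (p.g.eval T') = T' := by
        rw [hi _ h3.1 (ExtD_us2 h1.le (hτ' _ hv)), h3.2]
      have h5 := p.z_lab T hH' i (ExtD_ks2 h1 (hτ' _ hv)) x
      rw [h4] at h5
      have h6 : p.lab S j (p.g.eval ((starRingEnd ℂ) T')) = (starRingEnd ℂ) T' := by
        rw [hj _ h3c.1 (ExtD_us1 h1c.le (hτ' _ hvc)), h3c.2]
      have h7 := p.z_lab S hH j (ExtD_ks1 h1c (hτ' _ hvc)) x
      rw [h6] at h7
      rw [h5, h7]
      simp only [hf2]
      rw [hgc]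
    · rw [if_pos h1.le]
      have h1c : (p.g.eval ((starRingEnd ℂ) T')).im < 0 := by
        rw [hgc, Complex.conj_im]
        exact neg_neg_iff_pos.2 h1
      have h4 : p.lab S j (p.g.eval T') = T' := by
        rw [hj _ h3.1 (ExtD_us1 h1.le (hτ' _ hv)), h3.2]
      have h5 := p.z_lab S hH j (ExtD_ks1 h1 (hτ' _ hv)) x
      rw [h4] at h5
      have h6 : p.lab T i (p.g.eval ((starRingEnd ℂ) T')) = (starRingEnd ℂ) T' := by
        rw [hi _ h3c.1 (ExtD_us2 h1c.le (hτ' _ hvc)), h3c.2]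
      have h7 := p.z_lab T hH' i (ExtD_ks2 h1c (hτ' _ hvc)) x
      rw [h6] at h7
      rw [h5, h7]
      simp only [hf1]
      rw [hgc]

end Pool.W4b1b5d.H33
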