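import Pool.Agent.W_4b1b5d_h33.ExtC
import Pool.Agent.W_4b1b5d_h33.ExtD
import Pool.Agent.W_4b1b5d_h33.AsyC
import Pool.Agent.W_4b1b5d_h33.Ent
import Pool.Agent.W_4b1b5d_h33.EndA
import Pool.Agent.W_4b1b5d_h33.EndB

/-!
# Conclusion at one energy
-/

set_option autoImplicit false

namespace Pool.W4b1b5d.H33

open Pool.W4b1b5d.H3 Pool.W4b1b5d.SH Polynomial Set Metric

/-- TASK EndE (4).  **The conclusion at one energy.**

Proof.  Fix `x`.  Apply `tplane` with `Ω = Om p`, `F = Fx p x`, `z = p.z x`.  `hloc`: let `T ∉ Om p`,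
`T ∉ Fx p x`.  Then `(g T).im = 0` (or `(g (conj T)).im = 0`, which is the same by `greal`).  If `T` is
real use `ext_real`.  If `T` is not real use `ext_nonreal` at `T` and at `conj T` (`g' (conj T) = conj (g' T) ≠ 0`,
differentiate `greal`, or: `g.derivative` is also real): `f = k Z1(T') + l²/conj (k Z2(conj T'))`, with
`‖Z2‖ ≥ l > 0`.  The bounds are `z_bdd` (`g` is bounded on bounded sets) and `z_asym`.  So there is a real
`A` with `kap k l A (z T) = T` on `Om p`, so `R(x,Y) = g(kap k l A Y)` for all `Y = z T`, `T ∈ Om p`: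
infinitely many `Y` (`z` is injective on `Om p`, which is open and nonempty).  `laurent_id`. -/
theorem energy {D : PD} (p : PS D) {τ : ℝ} (hτ : 0 < τ) (hH : Ks 1 τ ⊆ D.H)
    (hH' : Ks (-1) τ ⊆ D.H) (S : Sh D 2 1 τ) (T : Sh D 2 (-1) τ) (hN : NRL p S T)
    (hNB : NB p S T) (x : V2) :
    ∃ A : ℝ, ∀ Y : ℂ, Y ≠ 0 → D.R 0 x Y = p.g.eval (kap p.k (D.l x) A Y) := by
  obtain ⟨hO, hdense, hsymm, him⟩ := Om_basic p
  have hzO : ∀ T' ∈ Om p, D.l x < ‖p.z x T'‖ := fun T' hT' => (p.z_spec x hT'.1).1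
  have hdz : DifferentiableOn ℂ (p.z x) (Om p) := (p.z_diff x).mono fun T' hT' => hT'.1
  have hk0 : p.k ≠ 0 := by
    intro h0
    have := p.hk
    rw [h0, norm_zero] at this
    exact zero_ne_one this
  -- the derivative of `g` is real
  have hgd : ∀ T', p.g.derivative.eval ((starRingEnd ℂ) T') =
      (starRingEnd ℂ) (p.g.derivative.eval T') := by
    intro T'
    have h1 : HasDerivAt (fun T => p.g.eval T) (p.g.derivative.eval T') T' := p.g.hasDerivAt T'
    have h2 := h1.conj_conj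
    have h3 : ((starRingEnd ℂ) ∘ (fun T => p.g.eval T) ∘ (starRingEnd ℂ)) = fun T => p.g.eval T := by
      funext T
      simp only [Function.comp_apply]
      rw [p.greal, Complex.conj_conj]
    rw [h3] at h2
    exact (p.g.hasDerivAt _).unique h2
  have hloc : ∀ T', T' ∉ Om p → T' ∉ Fx p x → ∃ δ : ℝ, 0 < δ ∧ ∃ Z : ℂ → ℂ,
      DifferentiableOn ℂ Z (ball T' δ) ∧ ∀ T'' ∈ ball T' δ, T'' ∈ Om p →
        p.k * p.z x T'' + (D.l x : ℂ) ^ 2 /
          (starRingEnd ℂ) (p.k * p.z x ((starRingEnd ℂ) T'')) = Z T'' := by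
    intro T' hT' hF
    have hgr : (p.g.eval T').im = 0 := by
      by_contra hne
      apply hT'
      have h3 : (p.g.eval ((starRingEnd ℂ) T')).im ≠ 0 := by
        rw [p.greal, Complex.conj_im]
        exact neg_ne_zero.2 hne
      exact ⟨⟨hne, fun h => hF (Or.inr (Or.inl h))⟩, ⟨h3, fun h => hF (Or.inr (Or.inr (Or.inl h)))⟩⟩
    have hd : p.g.derivative.eval T' ≠ 0 := fun h => hF (Or.inl h)
    by_cases hTim : T'.im = 0
    · obtain ⟨δ, hδ, Z, hZ, hZ2⟩ := ext_real p hτ hH hH' S T hNB x T' hTim hd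
        (fun Y hY hR0 hR1 => hF (Or.inr (Or.inr (Or.inr ⟨Y, hY, hR1, hR0⟩))))
      exact ⟨δ, hδ, Z, hZ, fun T'' h1 h2 => hZ2 T'' h1 h2.1 h2.2⟩
    · obtain ⟨δ1, hδ1, Z1, hZ1, hl1, he1⟩ := ext_nonreal p hτ hH hH' S T hN x T' hTim hgr hd
      have him' : ((starRingEnd ℂ) T').im ≠ 0 := by
        rw [Complex.conj_im]
        exact neg_ne_zero.2 hTim
      obtain ⟨δ2, hδ2, Z2, hZ2, hl2, he2⟩ := ext_nonreal p hτ hH hH' S T hN x
        ((starRingEnd ℂ) T') him' (by rw [p.greal, Complex.conj_im, hgr, neg_zero])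
        (by rw [hgd]; exact (_root_.map_ne_zero _).2 hd)
      have hcb : ∀ T'' ∈ ball T' (min δ1 δ2), (starRingEnd ℂ) T'' ∈ ball ((starRingEnd ℂ) T') δ2 := by
        intro T'' h
        rw [mem_ball, Complex.dist_conj_conj]
        exact (mem_ball.1 h).trans_le (min_le_right _ _)
      have hb1 : ∀ T'' ∈ ball T' (min δ1 δ2), T'' ∈ ball T' δ1 := fun T'' h =>
        mem_ball.2 ((mem_ball.1 h).trans_le (min_le_left _ _))
      refine ⟨min δ1 δ2, lt_min hδ1 hδ2, fun T'' => p.k * Z1 T'' + (D.l x : ℂ) ^ 2 /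
          (starRingEnd ℂ) (p.k * Z2 ((starRingEnd ℂ) T'')), ?_, ?_⟩
      · intro T'' hT''
        refine DifferentiableAt.differentiableWithinAt ?_
        have d1 : DifferentiableAt ℂ (fun T => p.k * Z1 T) T'' :=
          ((hZ1 T'' (hb1 T'' hT'')).differentiableAt
            (isOpen_ball.mem_nhds (hb1 T'' hT''))).const_mul p.k
        have d2 : DifferentiableAt ℂ (fun T => p.k * Z2 T) ((starRingEnd ℂ) T'') :=
          ((hZ2 _ (hcb T'' hT'')).differentiableAt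
            (isOpen_ball.mem_nhds (hcb T'' hT''))).const_mul p.k
        have d3 : DifferentiableAt ℂ ((starRingEnd ℂ) ∘ (fun T => p.k * Z2 T) ∘ (starRingEnd ℂ)) T'' :=
          differentiableAt_conj_conj_iff.2 d2
        refine d1.add ((differentiableAt_const _).div d3 ?_)
        refine (_root_.map_ne_zero _).2 (mul_ne_zero hk0 ?_)
        intro h0
        have := hl2 _ (hcb T'' hT'')
        rw [h0, norm_zero] at this
        exact absurd this (not_le.2 (D.lpos x))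
      · intro T'' h1 h2
        show _ = p.k * Z1 T'' + (D.l x : ℂ) ^ 2 / (starRingEnd ℂ) (p.k * Z2 ((starRingEnd ℂ) T''))
        rw [he1 T'' (hb1 T'' h1) h2.1, he2 _ (hcb T'' h1) h2.2]
  have hb : ∀ ρ : ℝ, ∃ C : ℝ, ∀ T' ∈ Om p, ‖T'‖ ≤ ρ → ‖p.z x T'‖ ≤ C := by
    intro ρ'
    obtain ⟨C1, hC1, hC2⟩ := z_bdd p
    obtain ⟨M1, hM1⟩ := (isCompact_closedBall (0 : ℂ) ρ').exists_bound_of_continuousOn
      p.g.continuous.continuousOn
    refine ⟨C1 * (1 + M1), fun T' hT' hρ => (hC2 x T' hT'.1).trans ?_⟩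
    have := hM1 T' (by simpa using hρ)
    gcongr
  obtain ⟨ρ, C, hC⟩ := z_asym p
  obtain ⟨A, hA⟩ := tplane p.hk (D.lpos x) (Om p) (Fx p x) hO hdense hsymm him (Fx_finite p x)
    (p.z x) hdz hzO hb hloc ρ C (fun T' hT' hρ => hC x T' hT'.1 hρ)
  refine ⟨A, laurent_id x p.g (by rw [p.gdeg]) p.k A ((p.z x) '' Om p) ?_ ?_⟩
  · refine Set.Infinite.image ?_ ?_
    · intro T1 h1 T2 h2 h12
      rw [← hA T1 h1, ← hA T2 h2, h12]
    · obtain ⟨T1, hT1⟩ := hdense.nonempty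
      exact infinite_of_mem_nhds T1 (hO.mem_nhds hT1)
  · rintro _ ⟨T', hT', rfl⟩
    refine ⟨?_, ?_⟩
    · intro h0
      have := hzO T' hT'
      rw [h0, norm_zero] at this
      exact absurd this (not_lt.2 (D.lpos x).le)
    · rw [(p.z_spec x hT'.1).2, hA T' hT']

end Pool.W4b1b5d.H33
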