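import Pool.Agent.W_4b1b5d_h33.Lab

/-!
# The function `z`
-/

set_option autoImplicit false

namespace Pool.W4b1b5d.H33

open Pool.W4b1b5d.H3 Pool.W4b1b5d.SH Polynomial Set

namespace PS

variable {D : PD}

theorem LabB_mem (p : PS D) {T : ℂ} (hT : p.g.eval T ∈ D.H) :
    T.im ≠ 0 ∧ (p.x0, zz p.k (D.l p.x0) (p.w p.x0) T) ∈ D.E 1 ∧
      D.R 0 p.x0 (zz p.k (D.l p.x0) (p.w p.x0) T) = p.g.eval T ∧
      kap p.k (D.l p.x0) (p.w p.x0) (zz p.k (D.l p.x0) (p.w p.x0) T) = T := by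
  have h1 : T.im ≠ 0 := p.g_nonreal hT.1
  have h2 := zz_spec (c := p.w p.x0) p.hk (D.lpos p.x0) h1
  have hne : zz p.k (D.l p.x0) (p.w p.x0) T ≠ 0 := by
    intro h0
    rw [h0, norm_zero] at h2
    exact absurd h2.1 (not_lt.2 (D.lpos p.x0).le)
  have h3 : D.R 0 p.x0 (zz p.k (D.l p.x0) (p.w p.x0) T) = p.g.eval T := by
    rw [p.str p.x0 p.x0_mem _ hne, h2.2]
  refine ⟨h1, ⟨?_, ?_⟩, h3, h2.2⟩
  · show D.l p.x0 < ‖zz p.k (D.l p.x0) (p.w p.x0) T‖ ^ 1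
    rw [pow_one]
    exact h2.1
  · show D.R 0 p.x0 (zz p.k (D.l p.x0) (p.w p.x0) T ^ 1) ∈ D.H
    rw [pow_one, h3]
    exact hT

/-- TASK Lab (7).  `z`: from the first property of the transport (`zz_spec`, `g_nonreal`). -/
theorem z_spec (p : PS D) (x : V2) {T : ℂ} (hT : p.g.eval T ∈ D.H) :
    D.l x < ‖p.z x T‖ ∧ D.R 0 x (p.z x T) = p.g.eval T := by
  obtain ⟨-, h2, h3, -⟩ := p.LabB_mem hT
  obtain ⟨h4, h5⟩ := (exists_transport D 1 le_rfl).choose_spec.1 p.x0 x _ h2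
  rw [pow_one, pow_one] at h5
  have h6 : D.l x < ‖p.z x T‖ ^ 1 := h4.1
  rw [pow_one] at h6
  exact ⟨h6, h5.trans h3⟩

/-- TASK Lab (8). -/
theorem z_diff (p : PS D) (x : V2) :
    DifferentiableOn ℂ (p.z x) {T | p.g.eval T ∈ D.H} := by
  have h1 := (exists_transport D 1 le_rfl).choose_spec.2.2.2.2.2.1 p.x0 x
  have h2 : DifferentiableOn ℂ (zz p.k (D.l p.x0) (p.w p.x0)) {T | p.g.eval T ∈ D.H} :=
    (zz_diff p.k (D.l p.x0) (p.w p.x0)).mono fun T hT => (p.LabB_mem hT).1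
  exact h1.comp h2 fun T hT => (p.LabB_mem hT).2.1

/-- TASK Lab (9). -/
theorem z_cont (p : PS D) {T : ℂ} (hT : p.g.eval T ∈ D.H) : Continuous fun x => p.z x T := by
  have h1 := (exists_transport D 1 le_rfl).choose_spec.2.2.2.1 p.x0
  have h2 : Continuous fun x : V2 => (x, zz p.k (D.l p.x0) (p.w p.x0) T) := by fun_prop
  exact h1.comp_continuous h2 fun x => (p.LabB_mem hT).2.1

/-- TASK Lab (10). -/
theorem z_x0 (p : PS D) {T : ℂ} (hT : p.g.eval T ∈ D.H) :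
    kap p.k (D.l p.x0) (p.w p.x0) (p.z p.x0 T) = T := by
  obtain ⟨-, h2, -, h4⟩ := p.LabB_mem hT
  have h1 : p.z p.x0 T = zz p.k (D.l p.x0) (p.w p.x0) T :=
    (exists_transport D 1 le_rfl).choose_spec.2.1 p.x0 _ h2
  rw [h1, h4]

/-- TASK Lab (11).  Sheets and `z`: last property of the transport applied to `q = P_j(·,v)²`, and
`zz_unique` at `x0`. -/
theorem z_lab (p : PS D) {s τ : ℝ} (S : Sh D 2 s τ) (hH : Ks s τ ⊆ D.H) (j : Fin S.n) {v : ℂ}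
    (hv : v ∈ Ks s τ) (x : V2) : p.z x (p.lab S j v) = S.P j x v ^ 2 := by
  have hvU : v ∈ Us s τ := ks_us hv
  have hq : Continuous fun y : V2 => S.P j y v ^ 2 := by
    have h1 : Continuous fun y : V2 => (y, v) := by fun_prop
    exact ((S.cont j).comp_continuous h1 fun y => ⟨mem_univ _, hvU⟩).pow 2
  have h1 := (exists_transport D 1 le_rfl).choose_spec.2.2.2.2.2.2 v (fun y => S.P j y v ^ 2)
    (hH hv) hq (fun y => by
      rw [pow_one, pow_one, norm_pow]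
      exact ⟨S.lt j y v hv, S.root j y v hvU⟩) p.x0 x
  have h2 : S.P j p.x0 v ^ 2 = zz p.k (D.l p.x0) (p.w p.x0) (p.lab S j v) := by
    refine zz_unique p.hk (D.lpos p.x0) (p.lab_im S j hv) ?_ rfl
    rw [norm_pow]
    exact S.le j p.x0 v hvU
  show Tr D p.x0 x (zz p.k (D.l p.x0) (p.w p.x0) (p.lab S j v)) = _
  rw [← h2]
  exact h1

end PS

end Pool.W4b1b5d.H33
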