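import Pool.Agent.W_4b1b5d_h66.SHGlue
import Pool.Agent.W_4b1b5d_h34.Painleve
import Pool.Agent.W_4b1b5d_h33.LabB
import Pool.Agent.W_4b1b5d_h33.LocInv

/-!
# Extension of `z` and of `f` across the real values of `g`: sheets with given label
-/

set_option autoImplicit false

namespace Pool.W4b1b5d.H33

open Pool.W4b1b5d.H3 Pool.W4b1b5d.SH Polynomial Set Metric

/-- Nonreal labels: a sheet of `S` with nonreal simple label at the real value `w` is equal to a sheet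
of `T` on the whole plane, for real values near `w`. -/
def NRL {D : PD} (p : PS D) {s s' τ : ℝ} (S : Sh D 2 s τ) (T : Sh D 2 s' τ) : Prop :=
  ∀ (j : Fin S.n) (w : ℝ), (p.lab S j w).im ≠ 0 → p.g.derivative.eval (p.lab S j w) ≠ 0 →
    ∃ i : Fin T.n, ∀ᶠ w' : ℝ in nhds w, ∀ x, S.P j x w' = T.P i x w'

/-- No bad coincidence: if two sheets over the two half planes agree at an outer simple real solution
then they have the same label. -/
def NB {D : PD} (p : PS D) {s s' τ : ℝ} (S : Sh D 2 s τ) (T : Sh D 2 s' τ) : Prop :=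
  ∀ (j : Fin S.n) (i : Fin T.n) (x : V2) (w : ℝ), S.P j x w = T.P i x w →
    D.l x < ‖S.P j x w‖ ^ 2 → D.R 1 x (S.P j x w ^ 2) ≠ 0 → p.lab S j w = p.lab T i w

theorem ExtA_us_convex (s τ : ℝ) : Convex ℝ (Us s τ) := by
  have h : Us s τ = (fun v : ℂ => s * v.im) ⁻¹' Ico 0 τ := rfl
  rw [h]
  have h2 : (fun v : ℂ => s * v.im) = ⇑(s • Complex.imLm) := by
    funext v
    simp
  rw [h2]
  exact (convex_Ico 0 τ).linear_preimage (s • Complex.imLm)

/-- TASK Ext (1).  A sheet with the label `θ`.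

Proof.  Let `A = ball w0 ε ∩ Ks s τ`, convex, nonempty (`w0 + i s t`, `t` small).  At one point `v1 ∈ A`
`lab_ex` gives `j` with `lab j v1 = θ v1`.  By `sec_eq` (for `q = θ`) `lab j = θ` on `A`, and by
continuity (`lab_cont`) on `ball w0 ε ∩ Us s τ ⊆ closure A`. -/
theorem ex_sheet {D : PD} (p : PS D) {s τ : ℝ} (hs : s = 1 ∨ s = -1) (hτ : 0 < τ)
    (S : Sh D 2 s τ) (w0 ε : ℝ) (hε : 0 < ε) (θ : ℂ → ℂ)
    (hθ : ContinuousOn θ (ball (w0 : ℂ) ε))
    (hg : ∀ v ∈ ball (w0 : ℂ) ε, p.g.eval (θ v) = v ∧ p.g.derivative.eval (θ v) ≠ 0) :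
    ∃ j, ∀ v ∈ ball (w0 : ℂ) ε, v ∈ Us s τ → p.lab S j v = θ v := by
  have hv0 : (w0 : ℂ) ∈ Us s τ := by
    constructor
    · rw [Complex.ofReal_im, mul_zero]
    · rw [Complex.ofReal_im, mul_zero]
      exact hτ
  obtain ⟨r, hr1, hr2⟩ := ((appr_mem hs hv0).and
    ((appr_tendsto s (w0 : ℂ)) (isOpen_ball.mem_nhds (mem_ball_self hε)))).exists
  set v1 : ℂ := (w0 : ℂ) + ((s * r : ℝ) : ℂ) * Complex.I with hv1
  have hb : v1 ∈ ball (w0 : ℂ) ε := hr2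
  obtain ⟨j, hj⟩ := p.lab_ex S hr1 (hg v1 hb).1
  refine ⟨j, fun v hv hv' => ?_⟩
  have hA : IsPreconnected (ball (w0 : ℂ) ε ∩ Us s τ) :=
    ((convex_ball (w0 : ℂ) ε).inter (ExtA_us_convex s τ)).isPreconnected
  have key : EqOn θ (p.lab S j) (ball (w0 : ℂ) ε ∩ Us s τ) :=
    sec_eq p.g hA (hθ.mono inter_subset_left) ((p.lab_cont S j).mono inter_subset_right)
      (fun u hu => (hg u hu.1).1) (fun u hu => p.lab_g S j hu.2) (fun u hu => (hg u hu.1).2)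
      ⟨hb, ks_us hr1⟩ hj.symm
  exact (key ⟨hv, hv'⟩).symm

theorem ExtA_sq_us_convex (s τ : ℝ) : Convex ℝ (Us s τ) := by
  have h : Us s τ = (fun v : ℂ => s * v.im) ⁻¹' Ico 0 τ := rfl
  rw [h]
  have h2 : (fun v : ℂ => s * v.im) = ⇑(s • Complex.imLm) := by
    funext v
    simp
  rw [h2]
  exact (convex_Ico 0 τ).linear_preimage (s • Complex.imLm)

/-- TASK Ext (2).  Two sheets of the same `S` whose labels agree at one point of the closed half ball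
have the same square at every point of the closed half ball.

Proof.  `A = ball w0 ε ∩ Us s τ` is convex; `lab j = θ` on `A` and `lab i = θ` at `v1 ∈ A`, so
`lab i = θ` on `A` by `sec_eq`.  On `A ∩ Ks s τ`: `P_i² = z x (lab) = P_j²` (`z_lab`), and by continuity
of the sheets (`Sh.cont`) on `A` (`A ⊆ closure (A ∩ Ks s τ)`: `v + i s t`, `t → 0+`). -/
theorem sq_eq {D : PD} (p : PS D) {s τ : ℝ} (hs : s = 1 ∨ s = -1) (hτ : 0 < τ)
    (hH : Ks s τ ⊆ D.H) (S : Sh D 2 s τ) (w0 ε : ℝ) (θ : ℂ → ℂ)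
    (hθ : ContinuousOn θ (ball (w0 : ℂ) ε))
    (hg : ∀ v ∈ ball (w0 : ℂ) ε, p.g.eval (θ v) = v ∧ p.g.derivative.eval (θ v) ≠ 0)
    (j i : Fin S.n) (hj : ∀ v ∈ ball (w0 : ℂ) ε, v ∈ Us s τ → p.lab S j v = θ v)
    (v1 : ℂ) (hv1 : v1 ∈ ball (w0 : ℂ) ε) (hv1' : v1 ∈ Us s τ) (hi : p.lab S i v1 = θ v1)
    (v : ℂ) (hv : v ∈ ball (w0 : ℂ) ε) (hv' : v ∈ Us s τ) (x : V2) :
    S.P i x v ^ 2 = S.P j x v ^ 2 := by
  have hA : IsPreconnected (ball (w0 : ℂ) ε ∩ Us s τ) :=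
    ((convex_ball (w0 : ℂ) ε).inter (ExtA_sq_us_convex s τ)).isPreconnected
  have key : EqOn θ (p.lab S i) (ball (w0 : ℂ) ε ∩ Us s τ) :=
    sec_eq p.g hA (hθ.mono inter_subset_left) ((p.lab_cont S i).mono inter_subset_right)
      (fun u hu => (hg u hu.1).1) (fun u hu => p.lab_g S i hu.2) (fun u hu => (hg u hu.1).2)
      ⟨hv1, hv1'⟩ hi.symm
  have h1 := (appr_lim hs (S.cont i) x hv').pow 2
  have h2 := (appr_lim hs (S.cont j) x hv').pow 2
  refine tendsto_nhds_unique_of_eventuallyEq h1 h2 ?_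
  filter_upwards [appr_mem hs hv', (appr_tendsto s v) (isOpen_ball.mem_nhds hv)] with r hr hrb
  have hrb' : v + ((s * r : ℝ) : ℂ) * Complex.I ∈ ball (w0 : ℂ) ε := hrb
  have e1 := key ⟨hrb', ks_us hr⟩
  have e2 := hj _ hrb' (ks_us hr)
  rw [← p.z_lab S hH i hr x, ← p.z_lab S hH j hr x, ← e1, e2]

end Pool.W4b1b5d.H33
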