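import Pool.Agent.W_4b1b5d_h66.SHGlue
import Pool.Agent.W_4b1b5d_h34.Pair
import Pool.Agent.W_4b1b5d_h13.Mean
import Pool.Agent.W_4b1b5d_h13.Loop
import Pool.Agent.W_4b1b5d_h33.ExtA

/-!
# Momentum forms of the sheets
-/

set_option autoImplicit false

namespace Pool.W4b1b5d.H33

open Pool.W4b1b5d.H3 Pool.W4b1b5d.SH Pool.W4b1b5d.H34 Polynomial Set Metric MeasureTheory

/-- The momentum covector of the sheet `j`. -/
noncomputable def mom {D : PD} {s τ : ℝ} (S : Sh D 2 s τ) (j : Fin S.n) (v : ℂ) (x : V2) :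
    Fin 2 → ℂ :=
  cov D.al (S.P j x v) (D.l x / S.P j x v)

/-- Imaginary part, as a complex covector. -/
noncomputable def imv (c : Fin 2 → ℂ) : Fin 2 → ℂ := fun m => ((c m).im : ℂ)

/-- The dichotomy for linear forms bounded on `S`.  In the second case the complete line in `S` has an
integer direction `κ` which is a multiple of an axis. -/
def Dic {D : PD} (p : PS D) : Prop :=
  (∀ d : V2 →ₗ[ℝ] ℝ, (∃ C, ∀ x ∈ p.S, |d x| ≤ C) → d = 0) ∨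
  ∃ (κ : Fin 2 → ℤ) (c σ : ℝ), κ ≠ 0 ∧ c ≠ 0 ∧ (σ = 1 ∨ σ = -1) ∧
    (∀ (P : ℂ) (l : ℝ), P ≠ 0 → (cl (cov D.al P (l / P)) (fun i => (κ i : ℝ))) ^ 2 =
      (c : ℂ) ^ 2 * (σ * (p.k * P ^ 2 + (starRingEnd ℂ) p.k * (l : ℂ) ^ 2 / P ^ 2) + 2 * l) / 4) ∧
    (∃ x ∈ p.S, ∀ r : ℝ, x + r • (fun i => (κ i : ℝ) : V2) ∈ p.S) ∧
    ∀ d : V2 →ₗ[ℝ] ℝ, (∃ C, ∀ x ∈ p.S, |d x| ≤ C) → d (fun i => (κ i : ℝ)) = 0

/-- The truncated forms (helper35). -/
def Trunc {D : PD} {τ : ℝ} (S : Sh D 2 1 τ) (T : Sh D 2 (-1) τ) : Prop :=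
  ∀ (j : Fin S.n) (i : Fin T.n), ∀ᵐ w : ℝ, CForm (fun x => Set.indicator
    {x : V2 | D.l x < ‖S.P j x w‖ ^ 2 ∧ S.P j x w = T.P i x w} (fun x => imv (mom S j w x)) x)

theorem Mom_cov_cont (al : Fin 2 → ℂ) : Continuous fun z : ℂ × ℂ => cov al z.1 z.2 := by
  refine continuous_pi fun i => ?_
  unfold cov
  fin_cases i
  · simp only [Fin.zero_eta, Matrix.cons_val_zero]
    fun_prop
  · simp only [Fin.mk_one, Matrix.cons_val_one, Matrix.cons_val_fin_one]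
    fun_prop

/-- TASK Mom (3).  Continuity in `(x,v)` up to the boundary. -/
theorem mom_cont {D : PD} {s τ : ℝ} (S : Sh D 2 s τ) (j : Fin S.n) :
    ContinuousOn (fun q : V2 × ℂ => mom S j q.2 q.1) (univ ×ˢ Us s τ) := by
  have hP : ContinuousOn (fun q : V2 × ℂ => S.P j q.1 q.2) (univ ×ˢ Us s τ) := S.cont j
  have hl : ContinuousOn (fun q : V2 × ℂ => ((D.l q.1 : ℝ) : ℂ)) (univ ×ˢ Us s τ) :=
    (Complex.continuous_ofReal.comp (D.lsm.continuous.comp continuous_fst)).continuousOn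
  have hne : ∀ q ∈ (univ ×ˢ Us s τ : Set (V2 × ℂ)), S.P j q.1 q.2 ≠ 0 := by
    rintro ⟨x, v⟩ ⟨-, hv⟩ h0
    have h1 := S.le j x v hv
    have h2 : S.P j x v = 0 := h0
    rw [h2, norm_zero] at h1
    have h3 := D.lpos x
    norm_num at h1
    linarith
  have h3 := (Mom_cov_cont D.al).comp_continuousOn (hP.prodMk (hl.div hP hne))
  refine h3.congr fun q _ => ?_
  rfl

end Pool.W4b1b5d.H33
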