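import Pool.Agent.W_4b1b5d_h33.Axes
import Pool.Agent.W_4b1b5d_h33.EndE
import Pool.Agent.W_4b1b5d_h33.BadD
import Pool.Agent.W_4b1b5d_h35.TrunH
import Pool.Agent.W_4b1b5d_h66.SHInst

/-!
# The plateau theorem at one energy, and the frozen statement
-/

set_option autoImplicit false

open Filter Topology Polynomial Set
open Pool.W4b1b5d.H3 Pool.W4b1b5d.E Pool.W4b1b5d.SH Pool.W4b1b5d.H34 Pool.W4b1b5d.H63
open Pool.Agent.U4b

namespace Pool.W4b1b5d.H33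

/-- The direction condition of `Dic` for a multiple of an axis. -/
theorem dir_cond (al : Fin 2 → ℂ) (hal : ((starRingEnd ℂ) (al 0) * al 1).im ≠ 0) (k ν : ℂ)
    (σ : ℝ) (hσ : ν ^ 2 = σ * k) (hν : ‖ν‖ = 1) (κ : V2) (c : ℝ) (hc : c ≠ 0)
    (h : ev al ν = c • κ) (P : ℂ) (l : ℝ) (hP : P ≠ 0) :
    (cl (cov al P (l / P)) κ) ^ 2 =
      ((2 / c : ℝ) : ℂ) ^ 2 * (σ * (k * P ^ 2 + (starRingEnd ℂ) k * (l : ℂ) ^ 2 / P ^ 2) + 2 * l) / 4 := by
  have h1 := cl_ev al hal P (l / P) ν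
  rw [h, map_smul] at h1
  have hcC : (c : ℂ) ≠ 0 := by exact_mod_cast hc
  have h2 : cl (cov al P (l / P)) κ = (ν * P + (starRingEnd ℂ) ν * (l / P)) / c := by
    rw [eq_div_iff hcC, ← h1]
    simp only [Complex.real_smul]
    ring
  have h3 : ν * (starRingEnd ℂ) ν = 1 := by
    rw [Complex.mul_conj, Complex.normSq_eq_norm_sq, hν]
    norm_num
  have h4 : ((starRingEnd ℂ) ν) ^ 2 = σ * (starRingEnd ℂ) k := by
    rw [← map_pow, hσ, map_mul, Complex.conj_ofReal]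
  rw [h2]
  have h5 : (ν * P + (starRingEnd ℂ) ν * (l / P)) ^ 2 =
      σ * (k * P ^ 2 + (starRingEnd ℂ) k * (l : ℂ) ^ 2 / P ^ 2) + 2 * l := by
    have h6 : (ν * P + (starRingEnd ℂ) ν * (l / P)) ^ 2 =
        ν ^ 2 * P ^ 2 + ((starRingEnd ℂ) ν) ^ 2 * ((l : ℂ) ^ 2 / P ^ 2) +
          2 * (ν * (starRingEnd ℂ) ν) * l := by
      field_simp
      ring
    rw [h6, hσ, h4, h3]
    ring
  rw [div_pow, h5]
  push_cast
  field_simp
  ring

/-- The dichotomy for the structure on `S`. -/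
theorem dichotomy (I : ID) (V : Uni I) (G : Matrix (Fin 2) (Fin 2) ℝ) (hG : G.PosDef)
    {k t : ℂ} (hk : ‖k‖ = 1) (hkt : t * k = (starRingEnd ℂ) k) (S : Set V2) (hS : IsOpen S)
    (hGA : ∀ x ∈ S, GA I V t x) (hfr : ∀ x ∈ frontier S, fderiv ℝ I.U x = 0)
    (hne : ∃ x ∈ S, fderiv ℝ I.U x ≠ 0) {D : PD} (p : PS D) (hal : D.al = I.al) (hpk : p.k = k)
    (hpS : p.S = S) : PartII (Ham (fun x => I.mu x • G) I.U) ∨ Dic p := by
  obtain ⟨ν, hν2⟩ : ∃ ν : ℂ, ν ^ 2 = k := IsAlgClosed.exists_pow_nat_eq k (by norm_num)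
  have hν : ‖ν‖ = 1 := by
    have h1 := congrArg norm hν2
    rw [norm_pow, hk] at h1
    exact (pow_eq_one_iff_of_nonneg (norm_nonneg ν) (by norm_num)).1 h1
  have hkk : k * (starRingEnd ℂ) k = 1 := by
    rw [Complex.mul_conj, Complex.normSq_eq_norm_sq, hk]
    norm_num
  have ht : (starRingEnd ℂ) t = k ^ 2 := by
    have h1 : t = (starRingEnd ℂ) k ^ 2 := by
      linear_combination (starRingEnd ℂ) k * hkt - t * hkk
    rw [h1, map_pow, Complex.conj_conj]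
  have hν4 : ν ^ 4 = (starRingEnd ℂ) t := by
    rw [ht, ← hν2]
    ring
  have hrho : ContDiff ℝ (⊤ : ℕ∞) (fun y => (I.mu y)⁻¹) := I.musm.inv fun x => (I.mupos x).ne'
  have hRU := hrho.mul I.Usm
  rcases Pool.W4b1b5d.H13.dich hS hG I.musm I.mupos I.muper I.Usm I.Uper hfr (ev I.al ν)
    (ev I.al (Complex.I * ν)) (fun v => span_ev I.al I.hal ν hν v)
    (fun x hx => mixed_real I.al t ν hν hν4 hrho (wave_S I V t S hS hGA hx).1)
    (fun x hx => mixed_real I.al t ν hν hν4 hRU (wave_S I V t S hS hGA hx).2) hne with h | h | h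
  · exact Or.inl h
  · right; left
    intro d hd
    rw [hpS] at hd
    exact h d hd
  · right; right
    obtain ⟨κ, c, hκ, hc, hef, hline, hd⟩ := h
    rcases hef with hef | hef
    · refine ⟨κ, 2 / c, 1, hκ, div_ne_zero two_ne_zero hc, Or.inl rfl, ?_, ?_, ?_⟩
      · intro P l hP
        rw [hal, hpk]
        exact dir_cond I.al I.hal k ν 1 (by rw [hν2]; simp) hν _ c hc hef P l hP
      · rw [hpS]
        exact hline
      · intro d hd'
        rw [hpS] at hd'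
        exact hd d hd'
    · refine ⟨κ, 2 / c, -1, hκ, div_ne_zero two_ne_zero hc, Or.inr rfl, ?_, ?_, ?_⟩
      · intro P l hP
        rw [hal, hpk]
        refine dir_cond I.al I.hal k (Complex.I * ν) (-1) ?_ ?_ _ c hc hef P l hP
        · rw [mul_pow, Complex.I_sq, hν2]
          push_cast
          ring
        · rw [norm_mul, Complex.norm_I, hν, one_mul]
      · rw [hpS]
        exact hline
      · intro d hd'
        rw [hpS] at hd'
        exact hd d hd'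

/-- The inputs about sheets. -/
def NrlAll : Prop := ∀ (D : PD) (p : PS D) (_ : Dic p) (s s' τ : ℝ) (_ : s = 1 ∨ s = -1)
  (_ : s' = -s) (_ : 0 < τ) (_ : Ks s τ ⊆ D.H) (_ : Ks s' τ ⊆ D.H) (S : Sh D 2 s τ)
  (T : Sh D 2 s' τ), NRL p S T

def MomAll : Prop := ∀ (D : PD) (s τ : ℝ) (_ : s = 1 ∨ s = -1) (_ : 0 < τ) (_ : Ks s τ ⊆ D.H)
  (S : Sh D 2 s τ) (j : Fin S.n) (w : ℝ), CForm (mom S j w)

theorem Ks_sub {D : PD} {τ : ℝ} (h : ∀ v : ℂ, 0 < |v.im| → |v.im| < τ → v ∈ D.H) {s : ℝ}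
    (hs : s = 1 ∨ s = -1) : Ks s τ ⊆ D.H := by
  intro v hv
  have h1 : |v.im| = s * v.im := by
    rcases hs with rfl | rfl
    · rw [one_mul]
      have := hv.1
      rw [one_mul] at this
      exact abs_of_pos this
    · have := hv.1
      rw [abs_of_neg (by linarith)]
      ring
  exact h v (by rw [h1]; exact hv.1) (by rw [h1]; exact hv.2)

/-- **The plateau theorem at one energy.** -/
theorem energyThm (hNrl : NrlAll) (hMom : MomAll) : EnergyThm := by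
  intro I N hN V G hG hal2 k t hk hkt S hSo hSp hGA hfr hne hSU M hM hbig h hUh a ha htop
  have hl : ∀ x, 0 < I.ell h x := fun x => div_pos (sub_pos.2 (hUh x)) (I.mupos x)
  obtain ⟨g, hgr, hgd, hstr⟩ := exists_g I V hk hkt S hSo hSp hGA hSU M hbig h a ha htop
  obtain ⟨D, hD⟩ : ∃ D, D = mkPD I N hN M hM h a ha htop (fun k x => hbig k h x) hl := ⟨_, rfl⟩
  have hDal : D.al = I.al := by rw [hD]; rfl
  have hDM : D.M = M := by rw [hD]; rfl
  have hDl : ∀ x, D.l x = I.ell h x := by intro x; rw [hD]; rfl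
  have hDR : ∀ x Y, D.R 0 x Y = LB M (Bt I h) 0 x Y := by intro x Y; rw [hD]; rfl
  obtain ⟨x1, hx1, hx1U⟩ := hne
  obtain ⟨p, hpk, hpS, hpg⟩ : ∃ p : PS D, p.k = k ∧ p.S = S ∧ p.g = g := by
    refine ⟨{ k := k, hk := hk, w := wk I V k h, wc := (wk_smooth I V k h).continuous, g := g,
              greal := hgr, gdeg := by rw [hgd, hDM], S := S, So := hSo, Sp := hSp,
              Sne := ⟨x1, hx1⟩, str := ?_ }, rfl, rfl, rfl⟩
    intro x hx Y hY
    rw [hDR, hstr x hx Y hY, kap, hDl]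
  rcases dichotomy I V G hG hk hkt S hSo hGA hfr ⟨x1, hx1, hx1U⟩ p hDal hpk hpS with
    hII | hDic
  · exact Or.inl hII
  right
  obtain ⟨τ, hτ, hτH⟩ := D.exists_tau
  have hH : Ks 1 τ ⊆ D.H := Ks_sub hτH (Or.inl rfl)
  have hH' : Ks (-1) τ ⊆ D.H := Ks_sub hτH (Or.inr rfl)
  obtain ⟨Sp⟩ := D.exists_Sh 2 (by norm_num) 1 τ (Or.inl rfl) hτ hH
  obtain ⟨Sm⟩ := D.exists_Sh 2 (by norm_num) (-1) τ (Or.inr rfl) hτ hH'
  have hN1 : NRL p Sp Sm := hNrl D p hDic 1 (-1) τ (Or.inl rfl) rfl hτ hH hH' Sp Sm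
  have hN2 : NRL p Sm Sp := hNrl D p hDic (-1) 1 τ (Or.inr rfl) (by norm_num) hτ hH' hH Sm Sp
  have hTr : Trunc Sp Sm := Pool.W4b1b5d.TR.trunc33 hτ hH hH' Sp Sm
  have hNB : NB p Sp Sm := NB_of p hDic hτ hH hH' Sp Sm
    (fun j w => hMom D 1 τ (Or.inl rfl) hτ hH Sp j w)
    (fun j w => hMom D (-1) τ (Or.inr rfl) hτ hH' Sm j w) hN1 hN2 hTr
  choose A hA using energy p hτ hH hH' Sp Sm hN1 hNB
  refine ⟨g, A, hgd.le, ?_⟩
  intro x Y hY
  rw [← hDR, hA x Y hY, hpg, kap, hpk, hDl]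

end Pool.W4b1b5d.H33
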