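import Pool.Agent.W_4b1b5d_h33.LabB

/-!
# Bounds for `z`
-/

set_option autoImplicit false

namespace Pool.W4b1b5d.H33

open Pool.W4b1b5d.H3 Pool.W4b1b5d.SH Polynomial Set Metric

/-- TASK Asy (1).  From `PD.R_bound` and `z_spec`. -/
theorem z_bdd {D : PD} (p : PS D) : ∃ C : ℝ, 0 < C ∧ ∀ (x : V2) (T : ℂ), p.g.eval T ∈ D.H →
    ‖p.z x T‖ ≤ C * (1 + ‖p.g.eval T‖) := by
  obtain ⟨C, hC, h1, -⟩ := D.R_bound
  refine ⟨C, hC, fun x T hT => ?_⟩
  obtain ⟨a, b⟩ := p.z_spec x hT
  have := h1 x (p.z x T) a.le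
  rwa [b] at this

/-- TASK Asy (2).  Top coefficients: `a = (leading coefficient of g) * k^M`: compare the behaviour of
`R(x0,Y) = g(kap Y)` for `|Y| → ∞` (`R_grow` and `g(kap Y)/Y^M → g_M k^M`), or compare the coefficients of
the two Laurent polynomials. -/
theorem top_eq {D : PD} (p : PS D) : D.a = p.g.leadingCoeff * p.k ^ D.M := by
  set A : ℝ := p.w p.x0 with hA
  set P : ℂ[X] := C p.k * X ^ 2 + C (A : ℂ) * X + C ((starRingEnd ℂ) p.k * (D.l p.x0 : ℂ) ^ 2)
    with hP
  set Q : ℂ[X] := ∑ m ∈ Finset.range (D.M + 1), C (p.g.coeff m) * (P ^ m * X ^ (D.M - m))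
    with hQ
  have hQe : ∀ Y : ℂ, Y ≠ 0 → Q.eval Y = p.g.eval (kap p.k (D.l p.x0) A Y) * Y ^ D.M := by
    intro Y hY
    rw [hQ, Polynomial.eval_finsetSum,
      Polynomial.eval_eq_sum_range' (n := D.M + 1) (by rw [p.gdeg]; omega), Finset.sum_mul]
    refine Finset.sum_congr rfl fun m hm => ?_
    have hm' : m ≤ D.M := by
      have := Finset.mem_range.1 hm
      omega
    have e : P.eval Y = kap p.k (D.l p.x0) A Y * Y := by
      rw [hP]
      simp only [eval_mul, eval_C, eval_pow, eval_add, eval_X]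
      unfold kap
      field_simp
    rw [eval_mul, eval_C, eval_mul, eval_pow, e, eval_pow, eval_X, mul_pow]
    have e2 : Y ^ D.M = Y ^ m * Y ^ (D.M - m) := by
      rw [← pow_add]
      congr 1
      omega
    rw [e2]
    ring
  have hpQ : D.pol p.x0 = Q := by
    refine Polynomial.eq_of_infinite_eval_eq _ _ (Set.Infinite.mono (s := {0}ᶜ) ?_ ?_)
    · intro Y hY
      show (D.pol p.x0).eval Y = Q.eval Y
      rw [hQe Y hY, ← D.R_pol p.x0 hY, p.str p.x0 p.x0_mem Y hY]
    · exact (Set.finite_singleton (0 : ℂ)).infinite_compl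
  have hPdeg : P.natDegree ≤ 2 := by
    rw [hP]
    compute_degree
  have hP2 : P.coeff 2 = p.k := by
    rw [hP, coeff_add, coeff_add, coeff_C_mul, coeff_X_pow, coeff_C_mul, coeff_X, coeff_C]
    simp
  obtain ⟨h1, h2⟩ := D.pol_deg p.x0
  have h3 : (D.pol p.x0).coeff (2 * D.M) = D.a := by
    rw [← h2, leadingCoeff, h1]
  rw [← h3, hpQ, hQ, finset_sum_coeff, Finset.sum_eq_single D.M]
  · rw [coeff_C_mul, Nat.sub_self, pow_zero, mul_one, mul_comm 2 D.M,
      coeff_pow_of_natDegree_le hPdeg, hP2, leadingCoeff, p.gdeg]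
  · intro m hm hne
    have hm' : m < D.M := by
      have := Finset.mem_range.1 hm
      omega
    have h5 : (P ^ m * X ^ (D.M - m)).coeff (2 * D.M) = 0 := by
      refine coeff_eq_zero_of_natDegree_lt (lt_of_le_of_lt natDegree_mul_le ?_)
      rw [natDegree_X_pow]
      have := (natDegree_pow_le (p := P) (n := m)).trans (Nat.mul_le_mul_left m hPdeg)
      omega
    rw [coeff_C_mul, h5, mul_zero]
  · intro h
    exact absurd (Finset.mem_range.2 (by omega)) h

end Pool.W4b1b5d.H33
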