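import Pool.Agent.W_4b1b5d_h33.AsyA

/-!
# Bounds for `z`, powers
-/

set_option autoImplicit false

namespace Pool.W4b1b5d.H33

open Pool.W4b1b5d.H3 Pool.W4b1b5d.SH Polynomial Set Metric

theorem AsyB_poly (g : ℂ[X]) : ∃ C : ℝ, 0 ≤ C ∧ ∀ T : ℂ, 1 ≤ ‖T‖ →
    ‖g.eval T - g.leadingCoeff * T ^ g.natDegree‖ ≤ C * ‖T‖ ^ (g.natDegree - 1) := by
  have hdeg : g.eraseLead.natDegree < g.natDegree - 1 + 1 := by
    have := g.eraseLead_natDegree_le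
    omega
  refine ⟨∑ i ∈ Finset.range (g.natDegree - 1 + 1), ‖g.eraseLead.coeff i‖,
    Finset.sum_nonneg fun i _ => norm_nonneg _, fun T hT => ?_⟩
  have e1 : g.eval T - g.leadingCoeff * T ^ g.natDegree = g.eraseLead.eval T := by
    have h := congrArg (Polynomial.eval T) g.eraseLead_add_C_mul_X_pow
    rw [eval_add, eval_mul, eval_C, eval_pow, eval_X] at h
    linear_combination -h
  rw [e1, Polynomial.eval_eq_sum_range' hdeg, Finset.sum_mul]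
  refine (norm_sum_le _ _).trans (Finset.sum_le_sum fun i hi => ?_)
  rw [norm_mul, norm_pow]
  have hi' := Finset.mem_range.mp hi
  exact mul_le_mul_of_nonneg_left (pow_le_pow_right₀ hT (by omega)) (norm_nonneg _)

/-- TASK Asy (3).  `(k z/T)^M → 1` for `T → ∞`, uniformly in `x`.  From
`|R(x,z) - a z^M| ≤ C |z|^(M-1)` (`R_grow`), `|g(T) - g_M T^M| ≤ C |T|^(M-1)` for `|T| ≥ 1`, `top_eq`
and `R(x,z) = g(T)`: first `|z| ≤ C |T|` (from the first inequality, `|a| |z|^M ≤ C |z|^(M-1) + |g(T)|`),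
then `|(k z)^M - T^M| ≤ C |T|^(M-1)`. -/
theorem z_pow {D : PD} (p : PS D) : ∃ C : ℝ, 0 < C ∧ ∀ (x : V2) (T : ℂ), p.g.eval T ∈ D.H →
    1 ≤ ‖T‖ → ‖(p.k * p.z x T) ^ D.M - T ^ D.M‖ ≤ C * ‖T‖ ^ (D.M - 1) := by
  obtain ⟨C1, hC1, hR⟩ := D.R_grow
  obtain ⟨C2, hC2, hg⟩ := AsyB_poly p.g
  rw [p.gdeg] at hg
  set lc := p.g.leadingCoeff with hlc
  have htop : D.a = lc * p.k ^ D.M := top_eq p
  have ha : 0 < ‖D.a‖ := norm_pos_iff.mpr D.ha
  have hnorm : ‖D.a‖ = ‖lc‖ := by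
    rw [htop, norm_mul, norm_pow, p.hk, one_pow, mul_one]
  obtain ⟨m, hm⟩ : ∃ m, D.M = m + 1 := ⟨D.M - 1, by have := D.hM; omega⟩
  set K' : ℝ := 2 * (‖lc‖ + C2) / ‖D.a‖ with hK'
  have hK'0 : 0 ≤ K' := by positivity
  set K : ℝ := 1 + 2 * C1 / ‖D.a‖ + K' with hK
  have hq : 0 ≤ 2 * C1 / ‖D.a‖ := by positivity
  have hK1 : 1 ≤ K := by rw [hK]; linarith
  have hz : ∀ (x : V2) (T : ℂ), p.g.eval T ∈ D.H → 1 ≤ ‖T‖ → ‖p.z x T‖ ≤ K * ‖T‖ := by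
    intro x T hT h1
    by_contra hcon
    push Not at hcon
    have hs := p.z_spec x hT
    have hr := (hR x (p.z x T) hs.1.le).1
    rw [hs.2] at hr
    have hgt := hg T h1
    set Z := ‖p.z x T‖ with hZ
    set t := ‖T‖ with ht
    have ht0 : 0 < t := by linarith
    have hZ0 : 0 < Z := lt_of_le_of_lt (by positivity) hcon
    have hZK : K ≤ Z := by nlinarith
    rw [hm, Nat.add_sub_cancel] at hr hgt
    have h2 : ‖D.a‖ * Z ^ (m + 1) ≤ ‖p.g.eval T‖ + C1 * Z ^ m := by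
      have h3 : ‖D.a * p.z x T ^ (m + 1)‖ ≤ ‖p.g.eval T‖
          + ‖p.g.eval T - D.a * p.z x T ^ (m + 1)‖ := by
        have := norm_sub_le (p.g.eval T) (p.g.eval T - D.a * p.z x T ^ (m + 1))
        rwa [sub_sub_cancel] at this
      rw [norm_mul, norm_pow] at h3
      linarith
    have h4 : ‖p.g.eval T‖ ≤ (‖lc‖ + C2) * t ^ (m + 1) := by
      have h5 : ‖p.g.eval T‖ ≤ ‖lc * T ^ (m + 1)‖ + ‖p.g.eval T - lc * T ^ (m + 1)‖ := by
        have := norm_add_le (lc * T ^ (m + 1)) (p.g.eval T - lc * T ^ (m + 1))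
        rwa [add_sub_cancel] at this
      rw [norm_mul, norm_pow] at h5
      have h6 : t ^ m ≤ t ^ (m + 1) := pow_le_pow_right₀ h1 (by omega)
      nlinarith
    have h7 : C1 * Z ^ m ≤ ‖D.a‖ / 2 * Z ^ (m + 1) := by
      have h8 : C1 ≤ ‖D.a‖ / 2 * Z := by
        have h9 : 2 * C1 / ‖D.a‖ ≤ Z := by rw [hK] at hZK; linarith
        rw [div_le_iff₀ ha] at h9
        linarith
      calc C1 * Z ^ m ≤ (‖D.a‖ / 2 * Z) * Z ^ m :=
            mul_le_mul_of_nonneg_right h8 (by positivity)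
        _ = ‖D.a‖ / 2 * Z ^ (m + 1) := by ring
    have h10 : Z ^ (m + 1) ≤ K' * t ^ (m + 1) := by
      have h11 : ‖D.a‖ / 2 * Z ^ (m + 1) ≤ (‖lc‖ + C2) * t ^ (m + 1) := by linarith
      rw [hK', div_mul_eq_mul_div, le_div_iff₀ ha]
      linarith
    have h12 : (K * t) ^ (m + 1) < Z ^ (m + 1) :=
      pow_lt_pow_left₀ hcon (by positivity) (by omega)
    rw [mul_pow] at h12
    have h13 : K ≤ K ^ (m + 1) := le_self_pow₀ hK1 (by omega)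
    have h14 : K' < K ^ (m + 1) := lt_of_lt_of_le (by rw [hK]; linarith) h13
    have h15 : K' * t ^ (m + 1) < K ^ (m + 1) * t ^ (m + 1) :=
      mul_lt_mul_of_pos_right h14 (by positivity)
    linarith
  refine ⟨(C1 * K ^ m + C2) / ‖D.a‖, by positivity, fun x T hT h1 => ?_⟩
  have hs := p.z_spec x hT
  have hr := (hR x (p.z x T) hs.1.le).1
  rw [hs.2] at hr
  have hgt := hg T h1
  have hzK := hz x T hT h1
  rw [hm, Nat.add_sub_cancel] at hr hgt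
  rw [hm, Nat.add_sub_cancel, div_mul_eq_mul_div, le_div_iff₀ ha]
  have h2 : ‖p.z x T‖ ^ m ≤ K ^ m * ‖T‖ ^ m := by
    rw [← mul_pow]
    exact pow_le_pow_left₀ (norm_nonneg _) hzK m
  have h3 : D.a * p.z x T ^ (m + 1) - lc * T ^ (m + 1)
      = lc * ((p.k * p.z x T) ^ (m + 1) - T ^ (m + 1)) := by
    rw [htop, hm, mul_pow]
    ring
  have h4 : ‖lc * ((p.k * p.z x T) ^ (m + 1) - T ^ (m + 1))‖
      ≤ C1 * ‖p.z x T‖ ^ m + C2 * ‖T‖ ^ m := by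
    rw [← h3]
    have h5 : D.a * p.z x T ^ (m + 1) - lc * T ^ (m + 1)
        = (p.g.eval T - lc * T ^ (m + 1)) - (p.g.eval T - D.a * p.z x T ^ (m + 1)) := by ring
    rw [h5]
    exact (norm_sub_le _ _).trans (by linarith)
  rw [norm_mul, ← hnorm] at h4
  have h6 : C1 * ‖p.z x T‖ ^ m ≤ C1 * (K ^ m * ‖T‖ ^ m) := mul_le_mul_of_nonneg_left h2 hC1.le
  calc ‖(p.k * p.z x T) ^ (m + 1) - T ^ (m + 1)‖ * ‖D.a‖
      = ‖D.a‖ * ‖(p.k * p.z x T) ^ (m + 1) - T ^ (m + 1)‖ := mul_comm _ _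
    _ ≤ C1 * ‖p.z x T‖ ^ m + C2 * ‖T‖ ^ m := h4
    _ ≤ (C1 * K ^ m + C2) * ‖T‖ ^ m := by linarith

end Pool.W4b1b5d.H33
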