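import Pool.Agent.W_4b1b5d_h63.PlEnd
import Pool.Agent.W_4b1b5d_h13.Dich
import Pool.Agent.W_4b1b5d_h33.Mom

/-!
# Axes, wave equations on `S`, dichotomy
-/

set_option autoImplicit false

open Filter Topology Polynomial Set
open Pool.W4b1b5d.H3 Pool.W4b1b5d.E Pool.W4b1b5d.SH Pool.W4b1b5d.H34 Pool.W4b1b5d.H63
open Pool.Agent.U4b

namespace Pool.W4b1b5d.H33

theorem wave_S (I : ID) (V : Uni I) (θ : ℂ) (S : Set V2) (hS : IsOpen S)
    (hGA : ∀ x ∈ S, GA I V θ x) {x : V2} (hx : x ∈ S) :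
    dd I.al (ddr I.al (fun y => (I.mu y)⁻¹)) x =
        θ * dd (cj I.al) (ddr (cj I.al) (fun y => (I.mu y)⁻¹)) x ∧
      dd I.al (ddr I.al (fun y => (I.mu y)⁻¹ * I.U y)) x =
        θ * dd (cj I.al) (ddr (cj I.al) (fun y => (I.mu y)⁻¹ * I.U y)) x := by
  obtain ⟨z1, z0, hz1, hz0, hp1, hp0, hb, e1, e0⟩ := exists_z I V
  have hrho : ContDiff ℝ (⊤ : ℕ∞) (fun y => (I.mu y)⁻¹) := I.musm.inv fun x => (I.mupos x).ne'
  have hRU := hrho.mul I.Usm
  have hF : ∀ᶠ y in 𝓝 x, FF I.al (fun y => (I.mu y)⁻¹) (fun y => (I.mu y)⁻¹ * I.U y) z1 z0 θ y := by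
    filter_upwards [hS.mem_nhds hx] with y hy
    exact FF_of_GA I V z1 z0 hz1 hz0 hb (hGA y hy)
  constructor
  · exact wave_of I.al θ (-2) (by norm_num)
      (w := fun y => (((I.mu y)⁻¹ : ℝ) : ℂ)) (z := z1)
      (Sm.of (Complex.ofRealCLM.contDiff.comp hrho) x) (Sm.of hz1 x)
      (Eventually.of_forall e1) (hF.mono fun y hy => hy.1)
  · exact wave_of I.al θ 2 (by norm_num)
      (w := fun y => (((I.mu y)⁻¹ * I.U y : ℝ) : ℂ)) (z := z0)
      (Sm.of (Complex.ofRealCLM.contDiff.comp hRU) x) (Sm.of hz0 x)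
      (Eventually.of_forall e0) (hF.mono fun y hy => hy.2)

/-- real derivative along `ev` -/
theorem fderiv_real_ev (al : Fin 2 → ℂ) (ν : ℂ) {w : V2 → ℝ} (hw : ContDiff ℝ (⊤ : ℕ∞) w)
    (x : V2) : ((Lines_D (ev al ν) w x : ℝ) : ℂ) =
      ν * ddr al w x + (starRingEnd ℂ) ν * ddr (cj al) w x := by
  have h1 : fderiv ℝ (fun y => (w y : ℂ)) x (ev al ν) = ((Lines_D (ev al ν) w x : ℝ) : ℂ) := by
    have h2 := (Complex.ofRealCLM.hasFDerivAt.comp x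
      (hw.differentiable (by simp) x).hasFDerivAt)
    have h3 : (fun y => (w y : ℂ)) = Complex.ofRealCLM ∘ w := rfl
    rw [h3, h2.fderiv]
    rfl
  rw [← h1, fderiv_ev]
  rfl

/-- The mixed derivative along the axes vanishes. -/
theorem mixed_real (al : Fin 2 → ℂ) (c ν : ℂ) (hν : ‖ν‖ = 1) (hc : ν ^ 4 = (starRingEnd ℂ) c)
    {w : V2 → ℝ} (hw : ContDiff ℝ (⊤ : ℕ∞) w) {x : V2}
    (h : dd al (ddr al w) x = c * dd (cj al) (ddr (cj al) w) x) :
    Lines_D (ev al (Complex.I * ν)) (Lines_D (ev al ν) w) x = 0 := by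
  have hwC : ContDiff ℝ (⊤ : ℕ∞) (fun y => (w y : ℂ)) := Complex.ofRealCLM.contDiff.comp hw
  have h1 := mixed_zero al c ν hν hc (w := fun y => (w y : ℂ)) (x := x) (Sm.of hwC x) h
  have hsm : ContDiff ℝ (⊤ : ℕ∞) (Lines_D (ev al ν) w) :=
    (hw.fderiv_right (m := ((⊤ : ℕ∞) : WithTop ℕ∞)) (by simp)).clm_apply contDiff_const
  have h2 := fderiv_real_ev al (Complex.I * ν) hsm x
  have h3 : (fun y => ((Lines_D (ev al ν) w y : ℝ) : ℂ)) =
      fun y => ν * ddr al w y + (starRingEnd ℂ) ν * ddr (cj al) w y := by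
    funext y
    exact fderiv_real_ev al ν hw y
  have h4 : ((Lines_D (ev al (Complex.I * ν)) (Lines_D (ev al ν) w) x : ℝ) : ℂ) = 0 := by
    rw [h2]
    unfold ddr
    rw [h3]
    exact h1
  exact_mod_cast h4

theorem span_ev (al : Fin 2 → ℂ) (hal : ((starRingEnd ℂ) (al 0) * al 1).im ≠ 0) (ν : ℂ)
    (hν : ‖ν‖ = 1) (v : V2) :
    ∃ s t : ℝ, v = s • ev al ν + t • ev al (Complex.I * ν) := by
  obtain ⟨lam, h1, -⟩ := dir_decomp al hal v
  have hν' : ν * (starRingEnd ℂ) ν = 1 := by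
    rw [Complex.mul_conj, Complex.normSq_eq_norm_sq, hν]
    norm_num
  refine ⟨(lam * (starRingEnd ℂ) ν).re, (lam * (starRingEnd ℂ) ν).im, ?_⟩
  have h2 : lam = (((lam * (starRingEnd ℂ) ν).re : ℂ) + ((lam * (starRingEnd ℂ) ν).im : ℂ) *
      Complex.I) * ν := by
    rw [Complex.re_add_im]
    linear_combination -lam * hν'
  obtain ⟨s, hs⟩ : ∃ s : ℝ, s = (lam * (starRingEnd ℂ) ν).re := ⟨_, rfl⟩
  obtain ⟨t, ht⟩ : ∃ t : ℝ, t = (lam * (starRingEnd ℂ) ν).im := ⟨_, rfl⟩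
  rw [← hs, ← ht] at h2 ⊢
  funext i
  have h3 : ((v i : ℝ) : ℂ) = ((s • ev al ν + t • ev al (Complex.I * ν)) i : ℝ) := by
    rw [h1 i, h2]
    simp only [Pi.add_apply, Pi.smul_apply, smul_eq_mul, Complex.ofReal_add, Complex.ofReal_mul,
      ev_coe, map_mul, map_add, Complex.conj_ofReal, Complex.conj_I]
    ring
  exact_mod_cast h3

/-- The square of the momentum along an axis. -/
theorem cl_ev (al : Fin 2 → ℂ) (hal : ((starRingEnd ℂ) (al 0) * al 1).im ≠ 0) (P Q ν : ℂ) :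
    cl (cov al P Q) (ev al ν) = ν * P + (starRingEnd ℂ) ν * Q := by
  obtain ⟨h1, h2⟩ := cov_spec al hal P Q
  rw [cl_apply, ev_coe, ev_coe, map_mul, map_mul]
  linear_combination ν * h1 + (starRingEnd ℂ) ν * h2

end Pool.W4b1b5d.H33
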