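import Pool.Agent.W_4b1b5d_h33.MomB

/-!
# The pairing argument
-/

set_option autoImplicit false

namespace Pool.W4b1b5d.H33

open Pool.W4b1b5d.H3 Pool.W4b1b5d.SH Pool.W4b1b5d.H34 Polynomial Set Metric MeasureTheory

/-- TASK Bad (1).  The pairing argument.  `W` is a nonempty set, `u = Im a` on `W` and `0` outside,
`a' = a` on `W`, and `Re a ∧ Im a` times `-q` is positive on `W` (`q ≠ 0` real constant).

Proof.  The function `f x = (Re a0 u1 - Re a1 u0)(x)` is continuous, periodic, `0` outside of `W` and of
constant strict sign on `W`, so its integral `r0` is not `0` (`cell_zero`).  `Im a ∧ u = 0` everywhere.  So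
`∫ (a0 u1 - a1 u0) = r0` is real and not zero; `pairing`.  `(a - a') ∧ u = 0` everywhere. -/
theorem bad_pair {a a' : V2 → Fin 2 → ℂ} (W : Set V2) (ha : CForm a) (ha' : CForm a')
    (hu : CForm (fun x => Set.indicator W (fun x => imv (a x)) x)) (hne : W.Nonempty)
    (heq : ∀ x ∈ W, a' x = a x) (q : ℝ)
    (hpos : ∀ x ∈ W, 0 < q * ((a x 0).re * (a x 1).im - (a x 1).re * (a x 0).im)) :
    ∃ r0 : ℝ, r0 ≠ 0 ∧
      mn a 0 * mn (fun x => Set.indicator W (fun x => imv (a x)) x) 1
        - mn a 1 * mn (fun x => Set.indicator W (fun x => imv (a x)) x) 0 = r0 ∧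
      mn a' 0 * mn (fun x => Set.indicator W (fun x => imv (a x)) x) 1
        - mn a' 1 * mn (fun x => Set.indicator W (fun x => imv (a x)) x) 0 = r0 := by
  classical
  set u : V2 → Fin 2 → ℂ := fun x => Set.indicator W (fun x => imv (a x)) x with hudef
  have huW : ∀ x ∈ W, u x = imv (a x) := fun x hx => by
    simp only [hudef]
    rw [Set.indicator_of_mem hx]
  have huN : ∀ x, x ∉ W → u x = 0 := fun x hx => by
    simp only [hudef]
    rw [Set.indicator_of_notMem hx]
  set f : V2 → ℝ := fun x => (a x 0 * u x 1 - a x 1 * u x 0).re with hfdef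
  have hf : ∀ x, a x 0 * u x 1 - a x 1 * u x 0 = (f x : ℂ) := by
    intro x
    apply Complex.ext
    · rw [Complex.ofReal_re]
    · rw [Complex.ofReal_im]
      by_cases hx : x ∈ W
      · rw [huW x hx]
        simp only [imv, Complex.sub_im, Complex.mul_im, Complex.ofReal_re, Complex.ofReal_im]
        ring
      · rw [huN x hx]
        simp
  have hfW : ∀ x ∈ W, f x = (a x 0).re * (a x 1).im - (a x 1).re * (a x 0).im := by
    intro x hx
    simp only [hfdef]
    rw [huW x hx]
    simp only [imv, Complex.sub_re, Complex.mul_re, Complex.ofReal_re, Complex.ofReal_im]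
    ring
  have hfN : ∀ x, x ∉ W → f x = 0 := by
    intro x hx
    simp only [hfdef]
    rw [huN x hx]
    simp
  have ca : ∀ i, Continuous fun x => a x i := fun i => (continuous_pi_iff.1 ha.cont) i
  have cu : ∀ i, Continuous fun x => u x i := fun i => (continuous_pi_iff.1 hu.cont) i
  have hfc : Continuous f :=
    Complex.continuous_re.comp (((ca 0).mul (cu 1)).sub ((ca 1).mul (cu 0)))
  have hfp : Per f := by
    intro x k
    simp only [hfdef]
    rw [ha.per x k]
    have h1 : u (x + fun i => (k i : ℝ)) = u x := hu.per x k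
    rw [h1]
  have hr0 : ∫ x in cell, f x ≠ 0 := by
    intro h0
    have h1 : ∀ x, q * f x = 0 := by
      intro x
      refine cell_zero (f := fun x => q * f x) (continuous_const.mul hfc) ?_ ?_ ?_ x
      · intro x k
        show q * f _ = q * f x
        rw [hfp x k]
      · intro x
        by_cases hx : x ∈ W
        · have := hpos x hx
          rw [← hfW x hx] at this
          exact this.le
        · show 0 ≤ q * f x
          rw [hfN x hx, mul_zero]
      · rw [integral_const_mul, h0, mul_zero]
    obtain ⟨x, hx⟩ := hne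
    have h2 := hpos x hx
    rw [← hfW x hx, h1 x] at h2
    exact lt_irrefl _ h2
  have h9 : ∫ x in cell, (f x : ℂ) = ((∫ x in cell, f x : ℝ) : ℂ) := integral_ofReal
  refine ⟨∫ x in cell, f x, hr0, ?_, ?_⟩
  · rw [← pairing ha hu, ← h9]
    congr 1
    funext x
    exact hf x
  · rw [← pairing ha' hu, ← h9]
    congr 1
    funext x
    rw [← hf x]
    by_cases hx : x ∈ W
    · rw [heq x hx]
    · have h1 : (Set.indicator W (fun x => imv (a x)) x) = 0 := huN x hx
      have h2 : u x = 0 := huN x hx
      rw [h2]
      simp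

end Pool.W4b1b5d.H33
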