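import Pool.Agent.W_4b1b5d_h33.Mom

/-!
# Mean of a form vanishing on `S`
-/

set_option autoImplicit false

namespace Pool.W4b1b5d.H33

open Pool.W4b1b5d.H3 Pool.W4b1b5d.SH Pool.W4b1b5d.H34 Polynomial Set Metric MeasureTheory

/-- TASK Bad (2).  The mean of a real closed form `u` (all components real) which vanishes on `S` is a
real linear form bounded on `S`: `H13.mean_bdd` for `fun x => cl (u x)`; here `d x = ∑ (mn u i).re x i`. -/
theorem mean_form {u : V2 → Fin 2 → ℂ} (hu : CForm u) (him : ∀ x i, (u x i).im = 0) {S : Set V2}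
    (hS : IsOpen S) (hS' : IsPreconnected S) (h0 : ∀ x ∈ S, u x = 0) :
    (∀ i, (mn u i).im = 0) ∧
    ∃ d : V2 →ₗ[ℝ] ℝ, (∀ v, d v = (mn u 0).re * v 0 + (mn u 1).re * v 1) ∧
      ∃ C, ∀ x ∈ S, |d x| ≤ C := by
  have hci : ∀ i, Continuous fun x => u x i := fun i => (continuous_apply i).comp hu.cont
  have hint : ∀ i, IntegrableOn (fun x => u x i) cell := fun i => cont_intCell (hci i)
  have hmn : ∀ i, (mn u i).im = 0 := by
    intro i
    have h1 : (mn u i).im = ∫ x in cell, (u x i).im :=
      (Complex.imCLM.integral_comp_comm (hint i)).symm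
    rw [h1]
    simp only [him, integral_zero]
  refine ⟨hmn, (mn u 0).re • LinearMap.proj 0 + (mn u 1).re • LinearMap.proj 1, ?_, ?_⟩
  · intro v
    simp only [LinearMap.add_apply, LinearMap.smul_apply, LinearMap.proj_apply, smul_eq_mul]
  · obtain ⟨psi, hpsi⟩ := hu.prim
    have hc : Continuous fun x => cl (u x) := cl_cont.comp hu.cont
    have hp : Per fun x => cl (u x) := by
      intro x k
      show cl (u _) = cl (u x)
      rw [hu.per x k]
    obtain ⟨C, hC⟩ := Pool.W4b1b5d.H13.mean_bdd hc hp hpsi hS hS' (by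
      intro x hx
      show cl (u x) = 0
      rw [h0 x hx]
      ext v
      simp [cl_apply])
    refine ⟨C, fun x hx => ?_⟩
    have h1 : ∫ y in Icc (0 : V2) 1, cl (u y) x =
        (((mn u 0).re * x 0 + (mn u 1).re * x 1 : ℝ) : ℂ) := by
      have h2 : ∀ y, cl (u y) x = (x 0 : ℂ) * u y 0 + (x 1 : ℂ) * u y 1 := fun y => cl_apply _ _
      have h3 : ∫ y in cell, cl (u y) x = (x 0 : ℂ) * mn u 0 + (x 1 : ℂ) * mn u 1 := by
        simp only [h2]
        rw [integral_add ((hint 0).const_mul _) ((hint 1).const_mul _), integral_const_mul,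
          integral_const_mul]
        rfl
      have h4 : ∀ i, mn u i = ((mn u i).re : ℂ) := fun i =>
        (Complex.ext (by rw [Complex.ofReal_re]) (by rw [Complex.ofReal_im, hmn i]))
      have h5 : ∫ y in Icc (0 : V2) 1, cl (u y) x = ∫ y in cell, cl (u y) x := rfl
      rw [h5, h3, h4 0, h4 1]
      push_cast
      simp only [Complex.ofReal_re]
      ring
    have h6 := hC x hx
    rw [h1, Complex.norm_real, Real.norm_eq_abs] at h6
    simpa only [LinearMap.add_apply, LinearMap.smul_apply, LinearMap.proj_apply, smul_eq_mul]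
      using h6

end Pool.W4b1b5d.H33
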