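import Pool.Agent.W_4b1b5d_h33.Mom

/-!
# The density
-/

set_option autoImplicit false

namespace Pool.W4b1b5d.H33

open Pool.W4b1b5d.H3 Pool.W4b1b5d.SH Pool.W4b1b5d.H34 Polynomial Set Metric MeasureTheory

/-- TASK Mom (2).  Density: `Re a ∧ Im a` for `a = cov al P (l/P)`.
From `cov_spec`: `al·a = P`, `conj al·a = Q = l/P`, so `P conj P - Q conj Q =
(al0 conj al1 - conj al0 al1) (a0 conj a1 - a1 conj a0)`, and `a ∧ conj a = -2 i Re a ∧ Im a`,
`al0 conj al1 - conj al0 al1 = -2 i Im (conj al0 al1)`. -/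
theorem density (al : Fin 2 → ℂ) (hal : ((starRingEnd ℂ) (al 0) * al 1).im ≠ 0) {P : ℂ}
    (hP : P ≠ 0) (l : ℝ) :
    (cov al P (l / P) 0).re * (cov al P (l / P) 1).im
      - (cov al P (l / P) 1).re * (cov al P (l / P) 0).im
    = -(‖P‖ ^ 2 - l ^ 2 / ‖P‖ ^ 2) / (4 * ((starRingEnd ℂ) (al 0) * al 1).im) := by
  obtain ⟨h1, h2⟩ := cov_spec al hal P (l / P)
  set a0 := cov al P (l / P) 0
  set a1 := cov al P (l / P) 1
  have hP2 : ‖P‖ ^ 2 = ‖al 0 * a0 + al 1 * a1‖ ^ 2 := by rw [h1]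
  have hQ2 : l ^ 2 / ‖P‖ ^ 2 =
      ‖(starRingEnd ℂ) (al 0) * a0 + (starRingEnd ℂ) (al 1) * a1‖ ^ 2 := by
    rw [h2, norm_div, div_pow]
    congr 1
    rw [Complex.norm_real, Real.norm_eq_abs, sq_abs]
  have key : ‖P‖ ^ 2 - l ^ 2 / ‖P‖ ^ 2 =
      -(4 * ((starRingEnd ℂ) (al 0) * al 1).im) * (a0.re * a1.im - a1.re * a0.im) := by
    rw [hQ2, hP2, ← Complex.normSq_eq_norm_sq, ← Complex.normSq_eq_norm_sq, Complex.normSq_apply,
      Complex.normSq_apply]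
    simp only [Complex.add_re, Complex.add_im, Complex.mul_re, Complex.mul_im, Complex.conj_re,
      Complex.conj_im]
    ring
  rw [key]
  field_simp

end Pool.W4b1b5d.H33
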