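import Pool.Agent.W_4b1b5d_h33.Mom

/-!
# Loop data
-/

set_option autoImplicit false

namespace Pool.W4b1b5d.H33

open Pool.W4b1b5d.H3 Pool.W4b1b5d.SH Pool.W4b1b5d.H34 Polynomial Set Metric MeasureTheory

/-- TASK Mom (4).  The loop data along the complete line.  Let `s r = cl (mom S j w (x1 + r κ)) κ / c`.
On `S` the label gives `k P² + conj k l²/P² = lab - w(x)` (`lab_all`), so
`(s r)² = ((2 l - σ w)(x1 + r κ) + σ lab) / 4`.  The sign conditions: for `v = w + i s ε`, `ε > 0` small,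
the label is not real (`lab_im`) and `H13.quadrant` applies (`V r = (2 l - σ w)(x1 + r κ)`,
`ζ = -σ lab`); let `ε → 0` (`mom_cont`). -/
theorem loop_data {D : PD} (p : PS D) {s τ : ℝ} (hs : s = 1 ∨ s = -1) (hτ : 0 < τ)
    (S : Sh D 2 s τ) (j : Fin S.n) (w : ℝ) (κ : Fin 2 → ℤ) (c σ : ℝ) (hc : c ≠ 0)
    (hσ : σ = 1 ∨ σ = -1)
    (hcov : ∀ (P : ℂ) (l : ℝ), P ≠ 0 → (cl (cov D.al P (l / P)) (fun i => (κ i : ℝ))) ^ 2 =
      (c : ℂ) ^ 2 * (σ * (p.k * P ^ 2 + (starRingEnd ℂ) p.k * (l : ℂ) ^ 2 / P ^ 2) + 2 * l) / 4)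
    (x1 : V2) (hl : ∀ r : ℝ, x1 + r • (fun i => (κ i : ℝ) : V2) ∈ p.S) :
    let sr : ℝ → ℂ := fun r => cl (mom S j w (x1 + r • (fun i => (κ i : ℝ) : V2)))
      (fun i => (κ i : ℝ)) / c
    Continuous sr ∧
    (∀ r, sr r ^ 2 = (((2 * D.l (x1 + r • (fun i => (κ i : ℝ) : V2))
      - σ * p.w (x1 + r • (fun i => (κ i : ℝ) : V2)) : ℝ) : ℂ) - (-σ * p.lab S j w)) / 4) ∧
    (∀ r r', 0 ≤ (sr r).re * (sr r').re) ∧ ∀ r r', 0 ≤ (sr r).im * (sr r').im := by
  intro sr
  set κv : V2 := fun i => (κ i : ℝ) with hκv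
  have hwU : ((w : ℝ) : ℂ) ∈ Us s τ := by
    show s * ((w : ℂ)).im ∈ Ico 0 τ
    rw [Complex.ofReal_im, mul_zero]
    exact ⟨le_rfl, hτ⟩
  have hss : s * s = 1 := by rcases hs with h | h <;> rw [h] <;> norm_num
  -- the functions at the value `v`
  set g : ℂ → ℝ → ℂ := fun v r => cl (mom S j v (x1 + r • κv)) κv / c with hg
  have hgc : ∀ v ∈ Us s τ, Continuous (g v) := by
    intro v hv
    have h1 : Continuous fun r : ℝ => mom S j v (x1 + r • κv) := by
      have h2 : Continuous fun r : ℝ => ((x1 + r • κv, v) : V2 × ℂ) := by fun_prop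
      exact (mom_cont S j).comp_continuous h2 fun r => ⟨mem_univ _, hv⟩
    exact ((cl_cont.comp h1).clm_apply continuous_const).div_const _
  have hcC : (c : ℂ) ≠ 0 := by exact_mod_cast hc
  have hsq : ∀ v ∈ Us s τ, ∀ r, g v r ^ 2 = (((2 * D.l (x1 + r • κv)
      - σ * p.w (x1 + r • κv) : ℝ) : ℂ) - (-σ * p.lab S j v)) / 4 := by
    intro v hv r
    set x := x1 + r • κv with hx
    have hP0 : S.P j x v ≠ 0 := by
      intro h0
      have h1 := S.le j x v hv
      rw [h0, norm_zero, zero_pow two_ne_zero] at h1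
      exact absurd h1 (not_le.2 (D.lpos x))
    have h1 := hcov (S.P j x v) (D.l x) hP0
    have h2 := p.lab_all S j hv (hl r)
    rw [← hx] at h2
    unfold kap at h2
    have h3 : g v r = cl (cov D.al (S.P j x v) (D.l x / S.P j x v)) κv / c := rfl
    rw [h3, div_pow, h1, ← h2]
    have hP2 : S.P j x v ^ 2 ≠ 0 := pow_ne_zero 2 hP0
    field_simp
    push_cast
    ring
  refine ⟨hgc _ hwU, hsq _ hwU, ?_⟩
  -- approximation
  have hvK : ∀ n : ℕ, ((w : ℂ) + ((s * (τ / (n + 2)) : ℝ) : ℂ) * Complex.I) ∈ Ks s τ := by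
    intro n
    show s * ((w : ℂ) + ((s * (τ / (n + 2)) : ℝ) : ℂ) * Complex.I).im ∈ Ioo 0 τ
    have h1 : ((w : ℂ) + ((s * (τ / (n + 2)) : ℝ) : ℂ) * Complex.I).im = s * (τ / (n + 2)) := by
      rw [Complex.add_im, Complex.ofReal_im, Complex.mul_I_im, Complex.ofReal_re, zero_add]
    rw [h1, ← mul_assoc, hss, one_mul]
    have hn : (1 : ℝ) < n + 2 := by
      have : (0 : ℝ) ≤ n := Nat.cast_nonneg n
      linarith
    exact ⟨by positivity, div_lt_self hτ hn⟩
  have hKU : Ks s τ ⊆ Us s τ := fun v hv => ⟨hv.1.le, hv.2⟩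
  set vn : ℕ → ℂ := fun n => (w : ℂ) + ((s * (τ / (n + 2)) : ℝ) : ℂ) * Complex.I with hvn
  have hlim0 : Filter.Tendsto vn Filter.atTop (nhds ((w : ℝ) : ℂ)) := by
    have h1 : Filter.Tendsto (fun n : ℕ => τ / ((n : ℝ) + 2)) Filter.atTop (nhds 0) :=
      tendsto_const_nhds.div_atTop
        (Filter.tendsto_atTop_add_const_right _ _ tendsto_natCast_atTop_atTop)
    have h2 : Filter.Tendsto (fun n : ℕ => s * (τ / ((n : ℝ) + 2))) Filter.atTop (nhds (s * 0)) :=
      h1.const_mul s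
    have h3 : Filter.Tendsto (fun n : ℕ => (w : ℂ) + ((s * (τ / ((n : ℝ) + 2)) : ℝ) : ℂ) * Complex.I)
        Filter.atTop (nhds ((w : ℂ) + (((s * 0 : ℝ)) : ℂ) * Complex.I)) :=
      (((Complex.continuous_ofReal.tendsto _).comp h2).mul_const _).const_add _
    have e : (w : ℂ) + (((s * 0 : ℝ)) : ℂ) * Complex.I = w := by simp
    rw [e] at h3
    exact h3
  have hlim : ∀ r, Filter.Tendsto (fun n => g (vn n) r) Filter.atTop (nhds (g w r)) := by
    intro r
    have h1 : Filter.Tendsto (fun n => ((x1 + r • κv, vn n) : V2 × ℂ)) Filter.atTop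
        (nhdsWithin (x1 + r • κv, ((w : ℝ) : ℂ)) (univ ×ˢ Us s τ)) := by
      refine tendsto_nhdsWithin_iff.2 ⟨tendsto_const_nhds.prodMk_nhds hlim0, ?_⟩
      exact Filter.Eventually.of_forall fun n => ⟨mem_univ _, hKU (hvK n)⟩
    have h2 := (mom_cont S j (x1 + r • κv, ((w : ℝ) : ℂ)) ⟨mem_univ _, hwU⟩).tendsto.comp h1
    have h3 : Continuous fun m : Fin 2 → ℂ => cl m κv / (c : ℂ) :=
      (cl_cont.clm_apply continuous_const).div_const _
    exact (h3.tendsto _).comp h2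
  have hquad : ∀ n, (∀ r r', 0 < (g (vn n) r).re * (g (vn n) r').re) ∧
      ∀ r r', 0 < (g (vn n) r).im * (g (vn n) r').im := by
    intro n
    have h1 := p.lab_im S j (hvK n)
    have hζ : (-σ * p.lab S j (vn n)).im ≠ 0 := by
      have : (-σ * p.lab S j (vn n)).im = -σ * (p.lab S j (vn n)).im := by
        rw [show (-(σ : ℂ)) = ((-σ : ℝ) : ℂ) by push_cast; ring, Complex.im_ofReal_mul]
      rw [this]
      refine mul_ne_zero ?_ h1
      rcases hσ with h | h <;> rw [h] <;> norm_num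
    obtain ⟨-, h2, h3⟩ := H13.quadrant (hgc _ (hKU (hvK n))) hζ (hsq _ (hKU (hvK n)))
    exact ⟨h2, h3⟩
  refine ⟨fun r r' => ?_, fun r r' => ?_⟩
  · have h1 := ((Complex.continuous_re.tendsto _).comp (hlim r)).mul
      ((Complex.continuous_re.tendsto _).comp (hlim r'))
    exact ge_of_tendsto' h1 fun n => ((hquad n).1 r r').le
  · have h1 := ((Complex.continuous_im.tendsto _).comp (hlim r)).mul
      ((Complex.continuous_im.tendsto _).comp (hlim r'))
    exact ge_of_tendsto' h1 fun n => ((hquad n).2 r r').le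

end Pool.W4b1b5d.H33
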