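import Pool.Agent.W_4b1b5d_h33.BadA
import Pool.Agent.W_4b1b5d_h33.BadB
import Pool.Agent.W_4b1b5d_h33.MomC
import Pool.Agent.W_4b1b5d_h33.MomD

/-!
# No bad coincidence with real labels at a good value
-/

set_option autoImplicit false

namespace Pool.W4b1b5d.H33

open Pool.W4b1b5d.H3 Pool.W4b1b5d.SH Pool.W4b1b5d.H34 Polynomial Set Metric MeasureTheory

/-- The loop integral of a closed periodic form is its mean. -/
theorem BadC_loop {a : V2 → Fin 2 → ℂ} (ha : CForm a) (κ : Fin 2 → ℤ) (x : V2) :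
    ∫ r in (0 : ℝ)..1, cl (a (x + r • (fun i => (κ i : ℝ) : V2))) (fun i => (κ i : ℝ)) =
      (κ 0 : ℂ) * mn a 0 + (κ 1 : ℂ) * mn a 1 := by
  obtain ⟨ψ, hψ⟩ := ha.prim
  have h1 := H13.loop_eq (a := fun x => cl (a x)) (cl_cont.comp ha.cont)
    (by intro x k; simp only [ha.per x k]) hψ κ x
  rw [h1]
  have ca : ∀ i, Continuous fun x => a x i := fun i => (continuous_pi_iff.1 ha.cont) i
  have e : ∀ x : V2, cl (a x) (fun i => (κ i : ℝ)) = (κ 0 : ℂ) * a x 0 + (κ 1 : ℂ) * a x 1 := by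
    intro x
    rw [cl_apply]
    push_cast
    rfl
  simp only [e]
  change ∫ x in cell, _ = _
  have i0 : Integrable (fun x => (κ 0 : ℂ) * a x 0) (volume.restrict cell) :=
    cont_intCell (continuous_const.mul (ca 0))
  have i1 : Integrable (fun x => (κ 1 : ℂ) * a x 1) (volume.restrict cell) :=
    cont_intCell (continuous_const.mul (ca 1))
  rw [integral_add i0 i1, integral_const_mul, integral_const_mul]
  rfl

/-- TASK Bad (3).  **No bad coincidence with different real labels at a value with a truncated form.**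

Proof.  `W` is disjoint from `p.S`: at `x ∈ p.S` with `S.P j x w = T.P i x w` the labels agree
(`lab_all`).  `u` = the truncated form is zero on `p.S`; `mean_form`: `d`, bounded on `p.S`.  `bad_pair` for
`a = mom S j w`, `a' = mom T i w`, `q = -(4 Im(conj al0 al1))` (`density`, `‖P‖² > l`); `a' = a` on `W`.
`mn u ≠ 0` because `r0 ≠ 0`, so `d ≠ 0` and the second alternative of `Dic` holds, `d κ = 0`, so
`mn u = μ (-κ 1, κ 0)` with `μ ≠ 0` real and `mn a 0 * mn u 1 - mn a 1 * mn u 0 = μ (cl (mn a) κ)`: so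
`cl (mn a) κ = r0/μ = cl (mn a') κ` is real.  By `H13.loop_eq` (for `fun x => cl (a x)`, and
`∫ cl (a x) κ = cl (mn a) κ`) these are the loop integrals `c ∫ sr`.  `loop_data` and `H13.loop_real`
(labels `-σ lab` real) give `-σ lab S j w = -σ lab T i w`, contradiction. -/
theorem bad_real {D : PD} (p : PS D) (hDic : Dic p) {τ : ℝ} (hτ : 0 < τ) (S : Sh D 2 1 τ)
    (T : Sh D 2 (-1) τ) (j : Fin S.n) (i : Fin T.n) (w : ℝ) (hS : CForm (mom S j w))
    (hT : CForm (mom T i w))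
    (hu : CForm (fun x => Set.indicator
      {x : V2 | D.l x < ‖S.P j x w‖ ^ 2 ∧ S.P j x w = T.P i x w} (fun x => imv (mom S j w x)) x))
    (x1 : V2) (hx1 : D.l x1 < ‖S.P j x1 w‖ ^ 2) (hx1' : S.P j x1 w = T.P i x1 w)
    (hj : (p.lab S j w).im = 0) (hi : (p.lab T i w).im = 0) (hne : p.lab S j w ≠ p.lab T i w) :
    False := by
  have hwS : ((w : ℝ) : ℂ) ∈ Us 1 τ := ⟨by simp, by simpa using hτ⟩
  have hwT : ((w : ℝ) : ℂ) ∈ Us (-1) τ := ⟨by simp, by simpa using hτ⟩
  set W : Set V2 := {x : V2 | D.l x < ‖S.P j x w‖ ^ 2 ∧ S.P j x w = T.P i x w} with hW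
  set u : V2 → Fin 2 → ℂ := fun x => Set.indicator W (fun x => imv (mom S j w x)) x with hudef
  -- `u` is real
  have hureal : ∀ x i, (u x i).im = 0 := by
    intro x i
    by_cases hx : x ∈ W
    · rw [hudef]
      simp only [Set.indicator_of_mem hx]
      simp [imv]
    · rw [hudef]
      simp only [Set.indicator_of_notMem hx]
      simp
  -- `u` vanishes on `p.S`
  have hu0 : ∀ x ∈ p.S, u x = 0 := by
    intro x hx
    have hx' : x ∉ W := by
      rintro ⟨-, h2⟩
      apply hne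
      rw [← p.lab_all S j hwS hx, ← p.lab_all T i hwT hx, h2]
    rw [hudef]
    simp only [Set.indicator_of_notMem hx']
  obtain ⟨him, d, hd, hC⟩ := mean_form hu hureal p.So p.Sp hu0
  -- the pairing
  have heq : ∀ x ∈ W, mom T i w x = mom S j w x := by
    rintro x ⟨-, h2⟩
    unfold mom
    rw [h2]
  have hpos : ∀ x ∈ W, 0 < (-(4 * ((starRingEnd ℂ) (D.al 0) * D.al 1).im)) *
      ((mom S j w x 0).re * (mom S j w x 1).im - (mom S j w x 1).re * (mom S j w x 0).im) := by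
    rintro x ⟨h1, -⟩
    have hl := D.lpos x
    have hP2 : 0 < ‖S.P j x w‖ ^ 2 := hl.trans h1
    have hP : S.P j x w ≠ 0 := by
      intro h
      rw [h, norm_zero] at hP2
      norm_num at hP2
    unfold mom
    rw [density D.al D.hal hP (D.l x)]
    have h4 : (4 * ((starRingEnd ℂ) (D.al 0) * D.al 1).im) ≠ 0 := mul_ne_zero four_ne_zero D.hal
    have h5 : ∀ K A : ℝ, K ≠ 0 → -K * (-A / K) = A := by
      intro K A hK
      field_simp
    rw [h5 _ _ h4, sub_pos, div_lt_iff₀ hP2]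
    nlinarith
  obtain ⟨r0, hr0, e1, e2⟩ := bad_pair W hS hT hu ⟨x1, hx1, hx1'⟩ heq _ hpos
  change mn (mom S j w) 0 * mn u 1 - mn (mom S j w) 1 * mn u 0 = r0 at e1
  change mn (mom T i w) 0 * mn u 1 - mn (mom T i w) 1 * mn u 0 = r0 at e2
  have hm : ∀ i, mn u i = ((mn u i).re : ℂ) := fun i => Complex.ext rfl (by simp [him i])
  set m0 : ℝ := (mn u 0).re with hm0
  set m1 : ℝ := (mn u 1).re with hm1
  rw [hm 0, hm 1] at e1 e2
  -- the direction
  rcases hDic with h | ⟨κ, c, σ, hκ, hc, hσ, hcov, ⟨x2, -, hl⟩, hdk⟩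
  · have hd0 := h d hC
    have a0 : m0 = 0 := by
      have := hd (Pi.single 0 1)
      rw [hd0] at this
      simpa using this.symm
    have a1 : m1 = 0 := by
      have := hd (Pi.single 1 1)
      rw [hd0] at this
      simpa using this.symm
    rw [← hm0, ← hm1, a0, a1] at e1
    apply hr0
    have : (r0 : ℂ) = 0 := by
      rw [← e1]
      simp
    exact_mod_cast this
  have hdk' := hdk d hC
  rw [hd] at hdk'
  have hk2 : 0 < ((κ 0 : ℝ)) ^ 2 + ((κ 1 : ℝ)) ^ 2 := by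
    by_contra hcon
    have k0 : (κ 0 : ℝ) = 0 := by nlinarith [sq_nonneg (κ 0 : ℝ), sq_nonneg (κ 1 : ℝ)]
    have k1 : (κ 1 : ℝ) = 0 := by nlinarith [sq_nonneg (κ 0 : ℝ), sq_nonneg (κ 1 : ℝ)]
    apply hκ
    funext m
    fin_cases m
    · exact_mod_cast k0
    · exact_mod_cast k1
  obtain ⟨t, ht1, ht0⟩ : ∃ t : ℝ, m1 = t * κ 0 ∧ m0 = -(t * κ 1) := by
    refine ⟨(m1 * κ 0 - m0 * κ 1) / ((κ 0 : ℝ) ^ 2 + (κ 1 : ℝ) ^ 2), ?_, ?_⟩
    · rw [div_mul_eq_mul_div, eq_div_iff hk2.ne']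
      linear_combination (κ 1 : ℝ) * hdk'
    · rw [div_mul_eq_mul_div, ← neg_div, eq_div_iff hk2.ne']
      linear_combination (κ 0 : ℝ) * hdk'
  have hm1c : (m1 : ℂ) = t * κ 0 := by rw [ht1]; push_cast; rfl
  have hm0c : (m0 : ℂ) = -(t * κ 1) := by rw [ht0]; push_cast; rfl
  rw [hm1c, hm0c] at e1 e2
  have E1 : (t : ℂ) * ((κ 0 : ℂ) * mn (mom S j w) 0 + (κ 1 : ℂ) * mn (mom S j w) 1) = r0 := by
    linear_combination e1
  have E2 : (t : ℂ) * ((κ 0 : ℂ) * mn (mom T i w) 0 + (κ 1 : ℂ) * mn (mom T i w) 1) = r0 := by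
    linear_combination e2
  rw [← BadC_loop hS κ x2] at E1
  rw [← BadC_loop hT κ x2] at E2
  have ht : (t : ℂ) ≠ 0 := by
    intro h
    rw [h, zero_mul] at E1
    apply hr0
    exact_mod_cast E1.symm
  obtain ⟨sc, sq, s1, s2⟩ := loop_data p (Or.inl rfl) hτ S j w κ c σ hc hσ hcov x2 hl
  obtain ⟨tc, tq, t1, t2⟩ := loop_data p (Or.inr rfl) hτ T i w κ c σ hc hσ hcov x2 hl
  set sr : ℝ → ℂ := fun r => cl (mom S j w (x2 + r • (fun i => (κ i : ℝ) : V2)))
      (fun i => (κ i : ℝ)) / c with hsr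
  set tr : ℝ → ℂ := fun r => cl (mom T i w (x2 + r • (fun i => (κ i : ℝ) : V2)))
      (fun i => (κ i : ℝ)) / c with htr
  have hc' : (c : ℂ) ≠ 0 := by exact_mod_cast hc
  have I1 : ∫ r in (0 : ℝ)..1, sr r = ((r0 / (t * c) : ℝ) : ℂ) := by
    rw [hsr, intervalIntegral.integral_div]
    push_cast
    rw [← E1]
    field_simp
  have I2 : ∫ r in (0 : ℝ)..1, tr r = ((r0 / (t * c) : ℝ) : ℂ) := by
    rw [htr, intervalIntegral.integral_div]
    push_cast
    rw [← E2]
    field_simp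
  have lS : p.lab S j w = ((p.lab S j w).re : ℂ) := Complex.ext rfl (by simp [hj])
  have lT : p.lab T i w = ((p.lab T i w).re : ℂ) := Complex.ext rfl (by simp [hi])
  have hfin := H13.loop_real (s := sr) (t := tr) sc tc
    (V := fun r => 2 * D.l (x2 + r • (fun i => (κ i : ℝ) : V2))
      - σ * p.w (x2 + r • (fun i => (κ i : ℝ) : V2)))
    (a := -σ * (p.lab S j w).re) (b := -σ * (p.lab T i w).re)
    (by
      intro r
      rw [sq r, lS]
      push_cast
      simp)
    (by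
      intro r
      rw [tq r, lT]
      push_cast
      simp)
    s1 s2 t1 t2 (by rw [I1, Complex.ofReal_im]) (Or.inl (by rw [I1, I2]))
  have hσ0 : -σ ≠ 0 := by
    rcases hσ with h | h <;> rw [h] <;> norm_num
  have hre : (p.lab S j w).re = (p.lab T i w).re := mul_left_cancel₀ hσ0 hfin
  exact hne (by rw [lS, lT, hre])

end Pool.W4b1b5d.H33
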