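import Pool.Agent.W_4b1b5d_h33.ExtA

/-!
# Boundary values with the same label
-/

set_option autoImplicit false

namespace Pool.W4b1b5d.H33

open Pool.W4b1b5d.H3 Pool.W4b1b5d.SH Polynomial Set Metric

theorem ExtB_mem (s : ℝ) {τ : ℝ} (hτ : 0 < τ) (w : ℝ) : (w : ℂ) ∈ Us s τ := by
  refine ⟨?_, ?_⟩
  · simp
  · simpa using hτ

/-- TASK Ext (3).  Boundary values with the same label agree off the circle.

Proof.  Let `S.P j x w` be off the circle.  `Sh.glue` (`R_Y ≠ 0` by `hcrit`, `Sh.root`) gives `i'` with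
`T.P i' x w = S.P j x w`; by `NB` `lab T i' w = lab S j w = θ w`; by `sq_eq` for `T`,
`T.P i' x w ^2 = T.P i x w ^2`.  So the first alternative.  If `T.P i x w` is off the circle, the same in
the other direction (`glue` from `T` to `S`, `NB` read backwards).  Otherwise both are on the circle
(`Sh.le`). -/
theorem bdry_eq {D : PD} (p : PS D) {τ : ℝ} (hτ : 0 < τ) (hH : Ks 1 τ ⊆ D.H)
    (hH' : Ks (-1) τ ⊆ D.H) (S : Sh D 2 1 τ) (T : Sh D 2 (-1) τ) (hNB : NB p S T)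
    (w0 ε : ℝ) (θ : ℂ → ℂ) (hθ : ContinuousOn θ (ball (w0 : ℂ) ε))
    (hg : ∀ v ∈ ball (w0 : ℂ) ε, p.g.eval (θ v) = v ∧ p.g.derivative.eval (θ v) ≠ 0)
    (j : Fin S.n) (i : Fin T.n) (hj : ∀ v ∈ ball (w0 : ℂ) ε, v ∈ Us 1 τ → p.lab S j v = θ v)
    (hi : ∀ v ∈ ball (w0 : ℂ) ε, v ∈ Us (-1) τ → p.lab T i v = θ v) (x : V2) (w : ℝ)
    (hw : (w : ℂ) ∈ ball (w0 : ℂ) ε)
    (hcrit : ∀ Y : ℂ, D.l x < ‖Y‖ → D.R 0 x Y = w → D.R 1 x Y ≠ 0) :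
    S.P j x w ^ 2 = T.P i x w ^ 2 ∨ (‖S.P j x w‖ ^ 2 = D.l x ∧ ‖T.P i x w‖ ^ 2 = D.l x) := by
  have hwS : (w : ℂ) ∈ Us 1 τ := ExtB_mem 1 hτ w
  have hwT : (w : ℂ) ∈ Us (-1) τ := ExtB_mem (-1) hτ w
  rcases (S.le j x w hwS).lt_or_eq with h1 | h1
  · left
    have h2 : D.R 0 x (S.P j x w ^ 2) = (w : ℂ) := S.root j x w hwS
    have h3 : D.R 1 x (S.P j x w ^ 2) ≠ 0 := hcrit _ (by rw [norm_pow]; exact h1) h2
    obtain ⟨i', hi', -⟩ := T.exh_bdry (by norm_num) (Or.inr rfl) hτ hH' x w (S.P j x w) h1 h2 h3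
    have h4 := hNB j i' x w hi'.symm h1 h3
    rw [hj w hw hwS] at h4
    have h5 := sq_eq p (Or.inr rfl) hτ hH' T w0 ε θ hθ hg i i' hi w hw hwT h4.symm w hw hwT x
    rw [← h5, hi']
  rcases (T.le i x w hwT).lt_or_eq with h6 | h6
  · left
    have h2 : D.R 0 x (T.P i x w ^ 2) = (w : ℂ) := T.root i x w hwT
    have h3 : D.R 1 x (T.P i x w ^ 2) ≠ 0 := hcrit _ (by rw [norm_pow]; exact h6) h2
    obtain ⟨j', hj', -⟩ := S.exh_bdry (by norm_num) (Or.inl rfl) hτ hH x w (T.P i x w) h6 h2 h3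
    have h4 := hNB j' i x w hj' (by rw [hj']; exact h6) (by rw [hj']; exact h3)
    rw [hi w hw hwT] at h4
    have h5 := sq_eq p (Or.inl rfl) hτ hH S w0 ε θ hθ hg j j' hj w hw hwS h4 w hw hwS x
    rw [← h5, hj']
  · exact Or.inr ⟨h1.symm, h6.symm⟩

end Pool.W4b1b5d.H33
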