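import Pool.Agent.W_4b1b5d_h33.ExtA

/-!
# Extension of `z` at nonreal points
-/

set_option autoImplicit false

namespace Pool.W4b1b5d.H33

open Pool.W4b1b5d.H3 Pool.W4b1b5d.SH Polynomial Set Metric

/-- Pasting along the real axis. -/
theorem ExtC_paste {U : Set ℂ} {f1 f2 : ℂ → ℂ} (h1 : ContinuousOn f1 (U ∩ {v | 0 ≤ v.im}))
    (h2 : ContinuousOn f2 (U ∩ {v | v.im ≤ 0})) (h : ∀ v ∈ U, v.im = 0 → f1 v = f2 v) :
    ContinuousOn (fun v => if 0 ≤ v.im then f1 v else f2 v) U := by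
  classical
  have hcl : closure {v : ℂ | 0 ≤ v.im} = {v : ℂ | 0 ≤ v.im} :=
    (isClosed_le continuous_const Complex.continuous_im).closure_eq
  have hneg : {v : ℂ | ¬ 0 ≤ v.im} = {v : ℂ | v.im < 0} := by
    ext v
    simp
  refine ContinuousOn.if ?_ ?_ ?_
  · intro v hv
    have h3 := hv.2
    rw [Complex.frontier_setOfPred_le_im] at h3
    exact h v hv.1 h3
  · rw [hcl]
    exact h1
  · rw [hneg, Complex.closure_setOfPred_im_lt]
    exact h2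

/-- Points of a small ball with real centre. -/
theorem ExtC_mem {w0 ε τ : ℝ} (h : ε ≤ τ) {v : ℂ} (hv : v ∈ ball (w0 : ℂ) ε) : |v.im| < τ := by
  rw [mem_ball, dist_eq_norm] at hv
  have h1 := Complex.abs_im_le_norm (v - w0)
  have h2 : (v - w0).im = v.im := by simp
  rw [h2] at h1
  linarith

theorem ExtC_us1 {τ : ℝ} {v : ℂ} (h1 : 0 ≤ v.im) (h2 : |v.im| < τ) : v ∈ Us 1 τ :=
  ⟨by rwa [one_mul], by rw [one_mul]; exact (abs_lt.1 h2).2⟩

theorem ExtC_us2 {τ : ℝ} {v : ℂ} (h1 : v.im ≤ 0) (h2 : |v.im| < τ) : v ∈ Us (-1) τ :=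
  ⟨by linarith, by linarith [(abs_lt.1 h2).1]⟩

theorem ExtC_ks1 {τ : ℝ} {v : ℂ} (h1 : 0 < v.im) (h2 : |v.im| < τ) : v ∈ Ks 1 τ :=
  ⟨by rwa [one_mul], by rw [one_mul]; exact (abs_lt.1 h2).2⟩

theorem ExtC_ks2 {τ : ℝ} {v : ℂ} (h1 : v.im < 0) (h2 : |v.im| < τ) : v ∈ Ks (-1) τ :=
  ⟨by linarith, by linarith [(abs_lt.1 h2).1]⟩

theorem ExtC_mem0 (s : ℝ) {τ : ℝ} (hτ : 0 < τ) (w : ℝ) : (w : ℂ) ∈ Us s τ :=
  ⟨by simp, by simpa using hτ⟩

/-- The sheets are continuous in `v`. -/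
theorem ExtC_cont {D : PD} {s τ : ℝ} (S : Sh D 2 s τ) (j : Fin S.n) (x : V2) :
    ContinuousOn (fun v => S.P j x v) (Us s τ) := by
  have hc : Continuous (fun w : ℂ => ((x, w) : V2 × ℂ)) := by fun_prop
  exact (S.cont j).comp hc.continuousOn (fun v hv => ⟨mem_univ _, hv⟩)

/-- TASK Ext (4).  Extension of `z x` near a nonreal point `T0` with `g(T0)` real.

Proof.  `loc_inv` for `r = τ`: `ε, δ, θ`; `ex_sheet`: `j` (for `S`), `i` (for `T`).  `lab S j w0 = T0` is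
not real, so `NRL` gives `i'` with `S.P j x w = T.P i' x w` for all `x` and real `w` near `w0`; at `x0` the
labels of `i'` and `j` agree, so `sq_eq` (for `T`) gives `T.P i x w ^2 = S.P j x w ^2` for real `w` in
`ball w0 ε'`, `ε' ≤ ε`.  Put `Yv v = S.P j x v ^2` for `0 ≤ Im v` and `T.P i x v ^2` for `Im v < 0`: it is
continuous on `ball w0 ε'` and differentiable where `Im v ≠ 0` (`Sh.dv_in`), so differentiable
(Painleve).  `Z T = Yv (g T)` on a ball `ball T0 δ'` with `g (ball T0 δ') ⊆ ball w0 ε'`.  For `T'` in it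
with `g T' ∈ D.H`: `T' = θ (g T') = lab (g T')`, so `z x T' = Z T'` by `z_lab`. -/
theorem ext_nonreal {D : PD} (p : PS D) {τ : ℝ} (hτ : 0 < τ) (hH : Ks 1 τ ⊆ D.H)
    (hH' : Ks (-1) τ ⊆ D.H) (S : Sh D 2 1 τ) (T : Sh D 2 (-1) τ) (hN : NRL p S T) (x : V2)
    (T0 : ℂ) (h0 : T0.im ≠ 0) (hr : (p.g.eval T0).im = 0)
    (hd : p.g.derivative.eval T0 ≠ 0) :
    ∃ δ : ℝ, 0 < δ ∧ ∃ Z : ℂ → ℂ, DifferentiableOn ℂ Z (ball T0 δ) ∧
      (∀ T' ∈ ball T0 δ, D.l x ≤ ‖Z T'‖) ∧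
      ∀ T' ∈ ball T0 δ, p.g.eval T' ∈ D.H → p.z x T' = Z T' := by
  classical
  obtain ⟨w0, hw0⟩ : ∃ w0 : ℝ, p.g.eval T0 = (w0 : ℂ) :=
    ⟨(p.g.eval T0).re, Complex.ext (by simp) (by simp [hr])⟩
  obtain ⟨ε, δ, θ, hε, hετ, hδ, hθd, hθ0, hθ, hθT⟩ := loc_inv p.g T0 hd τ hτ
  rw [hw0] at hθd hθ0 hθ hθT
  have hθc : ContinuousOn θ (ball (w0 : ℂ) ε) := hθd.continuousOn
  obtain ⟨j, hj⟩ := ex_sheet p (Or.inl rfl) hτ S w0 ε hε θ hθc hθ
  obtain ⟨i, hi⟩ := ex_sheet p (Or.inr rfl) hτ T w0 ε hε θ hθc hθ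
  have hwb : (w0 : ℂ) ∈ ball (w0 : ℂ) ε := mem_ball_self hε
  have hlab : p.lab S j w0 = T0 := by
    rw [hj _ hwb (ExtC_mem0 1 hτ w0), hθ0]
  obtain ⟨i', hi'⟩ := hN j w0 (by rw [hlab]; exact h0) (by rw [hlab]; exact hd)
  have hlab' : p.lab T i' w0 = θ w0 := by
    have h1 : S.P j p.x0 w0 = T.P i' p.x0 w0 := hi'.self_of_nhds p.x0
    have h2 : p.lab T i' w0 = p.lab S j w0 := by
      unfold PS.lab
      rw [h1]
    rw [h2, hlab, hθ0]
  have hsq := fun v hv hv' => sq_eq p (Or.inr rfl) hτ hH' T w0 ε θ hθc hθ i i' hi w0 hwb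
    (ExtC_mem0 (-1) hτ w0) hlab' v hv hv' x
  -- the radius
  obtain ⟨ε1, hε1, hb1⟩ := Metric.eventually_nhds_iff.1 hi'
  set ε' := min ε ε1 with hε'
  have hε'0 : 0 < ε' := lt_min hε hε1
  have hsub : ball (w0 : ℂ) ε' ⊆ ball (w0 : ℂ) ε := ball_subset_ball (min_le_left _ _)
  have hτ' : ∀ v ∈ ball (w0 : ℂ) ε', |v.im| < τ := fun v hv => ExtC_mem hετ (hsub hv)
  have hreal : ∀ v ∈ ball (w0 : ℂ) ε', v.im = 0 → S.P j x v ^ 2 = T.P i x v ^ 2 := by
    intro v hv hv0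
    obtain ⟨w, rfl⟩ : ∃ w : ℝ, v = (w : ℂ) := ⟨v.re, Complex.ext (by simp) (by simp [hv0])⟩
    have h1 : dist w w0 < ε1 := by
      have h2 := mem_ball.1 hv
      rw [Complex.dist_eq, ← Complex.ofReal_sub, Complex.norm_real] at h2
      exact h2.trans_le (min_le_right _ _)
    rw [hb1 h1 x, hsq w (hsub hv) (ExtC_mem0 (-1) hτ w)]
  set f1 : ℂ → ℂ := fun v => S.P j x v ^ 2 with hf1
  set f2 : ℂ → ℂ := fun v => T.P i x v ^ 2 with hf2
  set Yv : ℂ → ℂ := fun v => if 0 ≤ v.im then f1 v else f2 v with hYv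
  have hcY : ContinuousOn Yv (ball (w0 : ℂ) ε') := by
    refine ExtC_paste ?_ ?_ hreal
    · exact ((ExtC_cont S j x).pow 2).mono fun v hv => ExtC_us1 hv.2 (hτ' v hv.1)
    · exact ((ExtC_cont T i x).pow 2).mono fun v hv => ExtC_us2 hv.2 (hτ' v hv.1)
  have hdY : ∀ v ∈ ball (w0 : ℂ) ε', v.im ≠ 0 → DifferentiableAt ℂ Yv v := by
    intro v hv hv0
    rcases lt_or_gt_of_ne hv0 with hv1 | hv1
    · have h1 : DifferentiableAt ℂ f2 v :=
        ((T.dv_in (by norm_num) hH' i x v (ExtC_ks2 hv1 (hτ' v hv))).differentiableAt).pow 2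
      refine h1.congr_of_eventuallyEq ?_
      filter_upwards [(isOpen_lt Complex.continuous_im continuous_const).mem_nhds hv1] with u hu
      have hu : u.im < 0 := hu
      show (if 0 ≤ u.im then f1 u else f2 u) = f2 u
      rw [if_neg (not_le.2 hu)]
    · have h1 : DifferentiableAt ℂ f1 v :=
        ((S.dv_in (by norm_num) hH j x v (ExtC_ks1 hv1 (hτ' v hv))).differentiableAt).pow 2
      refine h1.congr_of_eventuallyEq ?_
      filter_upwards [(isOpen_lt continuous_const Complex.continuous_im).mem_nhds hv1] with u hu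
      have hu : 0 < u.im := hu
      show (if 0 ≤ u.im then f1 u else f2 u) = f1 u
      rw [if_pos hu.le]
  have hY := H34.painleve isOpen_ball hcY hdY
  obtain ⟨δ1, hδ1, hb2⟩ := Metric.isOpen_iff.1
    ((isOpen_ball (x := (w0 : ℂ)) (ε := ε')).preimage p.g.continuous) T0
    (by show p.g.eval T0 ∈ ball (w0 : ℂ) ε'; rw [hw0]; exact mem_ball_self hε'0)
  refine ⟨min δ δ1, lt_min hδ hδ1, fun T' => Yv (p.g.eval T'), ?_, ?_, ?_⟩
  · refine hY.comp p.g.differentiable.differentiableOn ?_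
    intro T' hT'
    exact hb2 (ball_subset_ball (min_le_right _ _) hT')
  · intro T' hT'
    have hv : p.g.eval T' ∈ ball (w0 : ℂ) ε' := hb2 (ball_subset_ball (min_le_right _ _) hT')
    show D.l x ≤ ‖if 0 ≤ (p.g.eval T').im then f1 (p.g.eval T') else f2 (p.g.eval T')‖
    split_ifs with h1
    · show D.l x ≤ ‖S.P j x (p.g.eval T') ^ 2‖
      rw [norm_pow]
      exact S.le j x _ (ExtC_us1 h1 (hτ' _ hv))
    · show D.l x ≤ ‖T.P i x (p.g.eval T') ^ 2‖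
      rw [norm_pow]
      exact T.le i x _ (ExtC_us2 (not_le.1 h1).le (hτ' _ hv))
  · intro T' hT' hTH
    have hv : p.g.eval T' ∈ ball (w0 : ℂ) ε' := hb2 (ball_subset_ball (min_le_right _ _) hT')
    have h3 := hθT T' (ball_subset_ball (min_le_left _ _) hT')
    have him : (p.g.eval T').im ≠ 0 := hTH.1
    show p.z x T' = if 0 ≤ (p.g.eval T').im then f1 (p.g.eval T') else f2 (p.g.eval T')
    rcases lt_or_gt_of_ne him with h1 | h1
    · rw [if_neg (not_le.2 h1)]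
      have h4 : p.lab T i (p.g.eval T') = T' := by
        rw [hi _ h3.1 (ExtC_us2 h1.le (hτ' _ hv)), h3.2]
      have h5 := p.z_lab T hH' i (ExtC_ks2 h1 (hτ' _ hv)) x
      rw [h4] at h5
      exact h5
    · rw [if_pos h1.le]
      have h4 : p.lab S j (p.g.eval T') = T' := by
        rw [hj _ h3.1 (ExtC_us1 h1.le (hτ' _ hv)), h3.2]
      have h5 := p.z_lab S hH j (ExtC_ks1 h1 (hτ' _ hv)) x
      rw [h4] at h5
      exact h5

end Pool.W4b1b5d.H33
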