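import Mathlib

/-!
# The function `kap Y = k Y + c + conj k l² / Y` and its outer inverse `zz`
-/

set_option autoImplicit false

namespace Pool.W4b1b5d.H33

open Complex

/-- `kap k l c Y = k Y + c + conj k l² / Y`; here `|k| = 1`, `l > 0`, `c` is real. -/
noncomputable def kap (k : ℂ) (l c : ℝ) (Y : ℂ) : ℂ :=
  k * Y + c + (starRingEnd ℂ) k * (l : ℂ) ^ 2 / Y

/-- The outer inverse of `kap`, defined for nonreal `T`:
`conj k * ((√(T-c+2l) + √(T-c-2l)) / 2)²`, principal roots. -/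
noncomputable def zz (k : ℂ) (l c : ℝ) (T : ℂ) : ℂ :=
  (starRingEnd ℂ) k *
    (((T - c + 2 * l) ^ (1 / 2 : ℂ) + (T - c - 2 * l) ^ (1 / 2 : ℂ)) / 2) ^ 2

/-- TASK Kap (1).  `kap` is real on the circle `|Y| = l`: there `l²/Y = conj Y`. -/
theorem kap_real {k : ℂ} {l c : ℝ} {Y : ℂ} (hl : 0 < l) (hY : ‖Y‖ = l) :
    (kap k l c Y).im = 0 := by
  have hY0 : Y ≠ 0 := by
    intro h0
    rw [h0, norm_zero] at hY
    exact hl.ne hY
  have h1 : (l : ℂ) ^ 2 = Y * (starRingEnd ℂ) Y := by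
    rw [Complex.mul_conj, Complex.normSq_eq_norm_sq, hY]
    push_cast
    ring
  have h2 : (starRingEnd ℂ) k * (l : ℂ) ^ 2 / Y = (starRingEnd ℂ) (k * Y) := by
    rw [h1, map_mul]
    field_simp
  unfold kap
  rw [h2, Complex.add_im, Complex.add_im, Complex.conj_im, Complex.ofReal_im]
  ring

/-- TASK Kap (2).  `kap Y - kap Y' = (Y - Y') (k - conj k l²/(Y Y'))` and `|Y Y'| > l²`. -/
theorem kap_inj {k : ℂ} {l c : ℝ} {Y Y' : ℂ} (hk : ‖k‖ = 1) (hl : 0 < l) (hY : l ≤ ‖Y‖)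
    (hY' : l < ‖Y'‖) (h : kap k l c Y = kap k l c Y') : Y = Y' := by
  have hY0 : Y ≠ 0 := by
    intro h0
    rw [h0, norm_zero] at hY
    linarith
  have hY0' : Y' ≠ 0 := by
    intro h0
    rw [h0, norm_zero] at hY'
    linarith
  have hfac : (Y - Y') * (k - (starRingEnd ℂ) k * (l : ℂ) ^ 2 / (Y * Y')) = 0 := by
    have h3 : kap k l c Y - kap k l c Y' = 0 := sub_eq_zero.2 h
    rw [← h3]
    unfold kap
    field_simp
    ring
  rcases mul_eq_zero.1 hfac with h4 | h4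
  · exact sub_eq_zero.1 h4
  · exfalso
    have h5 : ‖(starRingEnd ℂ) k * (l : ℂ) ^ 2 / (Y * Y')‖ = 1 := by
      rw [← sub_eq_zero.1 h4, hk]
    rw [norm_div, norm_mul, norm_mul, norm_pow, RCLike.norm_conj, hk, one_mul,
      Complex.norm_real, Real.norm_eq_abs, sq_abs] at h5
    have h6 : 0 < ‖Y‖ * ‖Y'‖ := mul_pos (by linarith) (by linarith)
    rw [div_eq_one_iff_eq h6.ne'] at h5
    nlinarith

/-- TASK Kap (3). -/
theorem kap_hasDerivAt (k : ℂ) (l c : ℝ) {Y : ℂ} (hY : Y ≠ 0) :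
    HasDerivAt (kap k l c) (k - (starRingEnd ℂ) k * (l : ℂ) ^ 2 / Y ^ 2) Y := by
  have h1 : HasDerivAt (fun Z : ℂ => k * Z) k Y := by
    simpa using (hasDerivAt_id Y).const_mul k
  have h2 : HasDerivAt (fun Z : ℂ => (starRingEnd ℂ) k * (l : ℂ) ^ 2 / Z)
      (-((starRingEnd ℂ) k * (l : ℂ) ^ 2 / Y ^ 2)) Y := by
    have h3 := (hasDerivAt_inv hY).const_mul ((starRingEnd ℂ) k * (l : ℂ) ^ 2)
    have h4 : (starRingEnd ℂ) k * (l : ℂ) ^ 2 * -(Y ^ 2)⁻¹ =
        -((starRingEnd ℂ) k * (l : ℂ) ^ 2 / Y ^ 2) := by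
      rw [div_eq_mul_inv]
      ring
    rw [h4] at h3
    simpa [div_eq_mul_inv] using h3
  have h5 := (h1.add_const (c : ℂ)).add h2
  have h6 : (fun Z : ℂ => k * Z + (c : ℂ)) + (fun Z : ℂ => (starRingEnd ℂ) k * (l : ℂ) ^ 2 / Z) =
      kap k l c := by
    funext Z
    rfl
  rw [h6] at h5
  rw [sub_eq_add_neg]
  exact h5

/-- TASK Kap (4). -/
theorem kap_deriv_ne {k : ℂ} {l : ℝ} {Y : ℂ} (hk : ‖k‖ = 1) (hl : 0 < l) (hY : l < ‖Y‖) :
    k - (starRingEnd ℂ) k * (l : ℂ) ^ 2 / Y ^ 2 ≠ 0 := by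
  intro h4
  have h5 : ‖(starRingEnd ℂ) k * (l : ℂ) ^ 2 / Y ^ 2‖ = 1 := by
    rw [← sub_eq_zero.1 h4, hk]
  rw [norm_div, norm_mul, norm_pow, norm_pow, RCLike.norm_conj, hk, one_mul,
    Complex.norm_real, Real.norm_eq_abs, sq_abs] at h5
  have h6 : 0 < ‖Y‖ ^ 2 := by
    have : 0 < ‖Y‖ := by linarith
    positivity
  rw [div_eq_one_iff_eq h6.ne'] at h5
  nlinarith

/-- The principal square root of a number in the upper half plane. -/
theorem Kap_sqrt_pos {a : ℂ} (ha : 0 < a.im) :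
    0 < (a ^ (1 / 2 : ℂ)).re ∧ 0 < (a ^ (1 / 2 : ℂ)).im := by
  have ha0 : a ≠ 0 := by
    intro h0
    rw [h0] at ha
    exact lt_irrefl _ ha
  have hpi := Real.pi_pos
  have harg1 : 0 < Complex.arg a := by
    rcases (Complex.arg_nonneg_iff.2 ha.le).lt_or_eq with h | h
    · exact h
    · exfalso
      have h2 := (Complex.arg_eq_zero_iff.1 h.symm).2
      exact ha.ne' h2
  have harg2 : Complex.arg a < Real.pi := by
    rcases (Complex.arg_le_pi a).lt_or_eq with h | h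
    · exact h
    · exfalso
      exact ha.ne' (Complex.arg_eq_pi_iff.1 h).2
  have him : (Complex.log a * (1 / 2 : ℂ)).im = Complex.arg a / 2 := by
    have h3 : (1 / 2 : ℂ) = ((1 / 2 : ℝ) : ℂ) := by push_cast; ring
    rw [h3, Complex.im_mul_ofReal, Complex.log_im]
    ring
  rw [Complex.cpow_def_of_ne_zero ha0]
  rw [Complex.exp_re, Complex.exp_im, him]
  constructor
  · exact mul_pos (Real.exp_pos _) (Real.cos_pos_of_mem_Ioo ⟨by linarith, by linarith⟩)
  · exact mul_pos (Real.exp_pos _) (Real.sin_pos_of_pos_of_lt_pi (by linarith) (by linarith))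

/-- The principal square root of a number in the lower half plane. -/
theorem Kap_sqrt_neg {a : ℂ} (ha : a.im < 0) :
    0 < (a ^ (1 / 2 : ℂ)).re ∧ (a ^ (1 / 2 : ℂ)).im < 0 := by
  have ha0 : a ≠ 0 := by
    intro h0
    rw [h0] at ha
    exact lt_irrefl _ ha
  have hpi := Real.pi_pos
  have harg1 : Complex.arg a < 0 := Complex.arg_neg_iff.2 ha
  have harg2 : -Real.pi < Complex.arg a := Complex.neg_pi_lt_arg a
  have him : (Complex.log a * (1 / 2 : ℂ)).im = Complex.arg a / 2 := by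
    have h3 : (1 / 2 : ℂ) = ((1 / 2 : ℝ) : ℂ) := by push_cast; ring
    rw [h3, Complex.im_mul_ofReal, Complex.log_im]
    ring
  rw [Complex.cpow_def_of_ne_zero ha0]
  rw [Complex.exp_re, Complex.exp_im, him]
  constructor
  · exact mul_pos (Real.exp_pos _) (Real.cos_pos_of_mem_Ioo ⟨by linarith, by linarith⟩)
  · exact mul_neg_of_pos_of_neg (Real.exp_pos _)
      (Real.sin_neg_of_neg_of_neg_pi_lt (by linarith) (by linarith))

/-- The square of the principal square root. -/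
theorem Kap_sqrt_sq (a : ℂ) : (a ^ (1 / 2 : ℂ)) ^ 2 = a := by
  have h := Complex.cpow_nat_inv_pow a (n := 2) (by norm_num)
  have h2 : ((2 : ℕ) : ℂ)⁻¹ = (1 / 2 : ℂ) := by norm_num
  rw [h2] at h
  exact h

/-- If `0 < Re A * Re B + Im A * Im B` then `|A - B| < |A + B|`. -/
theorem Kap_norm_lt {A B : ℂ} (h : 0 < A.re * B.re + A.im * B.im) : ‖A - B‖ < ‖A + B‖ := by
  have h1 : ‖A - B‖ ^ 2 < ‖A + B‖ ^ 2 := by
    rw [← Complex.normSq_eq_norm_sq, ← Complex.normSq_eq_norm_sq, Complex.normSq_apply,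
      Complex.normSq_apply]
    simp only [Complex.sub_re, Complex.sub_im, Complex.add_re, Complex.add_im]
    nlinarith
  exact lt_of_pow_lt_pow_left₀ 2 (norm_nonneg _) h1

/-- `k conj k = 1`. -/
theorem Kap_unit {k : ℂ} (hk : ‖k‖ = 1) : k * (starRingEnd ℂ) k = 1 := by
  rw [Complex.mul_conj, Complex.normSq_eq_norm_sq, hk]
  norm_num

/-- TASK Kap (5).  Let `a = T-c+2l`, `b = T-c-2l`, `A = √a`, `B = √b`, `p = (A+B)/2`.  Then
`p (A-B)/2 = (a-b)/4 = l` and `p² + ((A-B)/2)² = (a+b)/2 = T - c`, so `kap (conj k p²) = T`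
(`k conj k = 1`).  If `Im T > 0`, both `A` and `B` have positive real and imaginary parts (arguments in
`(0,π/2)`), if `Im T < 0` positive real and negative imaginary parts; in both cases
`Re (A conj B) > 0`, so `|A+B| > |A-B|` and `|p|² > |p| |A-B|/2 = l`. -/
theorem zz_spec {k : ℂ} {l c : ℝ} {T : ℂ} (hk : ‖k‖ = 1) (hl : 0 < l) (hT : T.im ≠ 0) :
    l < ‖zz k l c T‖ ∧ kap k l c (zz k l c T) = T := by
  set A : ℂ := (T - c + 2 * l) ^ (1 / 2 : ℂ) with hAdef
  set B : ℂ := (T - c - 2 * l) ^ (1 / 2 : ℂ) with hBdef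
  have hA2 : A ^ 2 = T - c + 2 * l := Kap_sqrt_sq _
  have hB2 : B ^ 2 = T - c - 2 * l := Kap_sqrt_sq _
  have hima : (T - c + 2 * l : ℂ).im = T.im := by simp
  have himb : (T - c - 2 * l : ℂ).im = T.im := by simp
  have hpos : 0 < A.re * B.re + A.im * B.im := by
    rcases lt_or_gt_of_ne hT with h | h
    · have h1 := Kap_sqrt_neg (a := T - c + 2 * l) (by rw [hima]; exact h)
      have h2 := Kap_sqrt_neg (a := T - c - 2 * l) (by rw [himb]; exact h)
      exact add_pos (mul_pos h1.1 h2.1) (mul_pos_of_neg_of_neg h1.2 h2.2)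
    · have h1 := Kap_sqrt_pos (a := T - c + 2 * l) (by rw [hima]; exact h)
      have h2 := Kap_sqrt_pos (a := T - c - 2 * l) (by rw [himb]; exact h)
      exact add_pos (mul_pos h1.1 h2.1) (mul_pos h1.2 h2.2)
  have hlt : ‖A - B‖ < ‖A + B‖ := Kap_norm_lt hpos
  have hsum : 0 < ‖A + B‖ := lt_of_le_of_lt (norm_nonneg _) hlt
  have hAB0 : A + B ≠ 0 := norm_pos_iff.1 hsum
  have hprod : (A + B) * (A - B) = 4 * l := by
    have h3 : (A + B) * (A - B) = A ^ 2 - B ^ 2 := by ring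
    rw [h3, hA2, hB2]
    ring
  have hk1 : k * (starRingEnd ℂ) k = 1 := Kap_unit hk
  have hck0 : (starRingEnd ℂ) k ≠ 0 := by
    intro h0
    rw [h0, mul_zero] at hk1
    exact zero_ne_one hk1
  have hzz : zz k l c T = (starRingEnd ℂ) k * ((A + B) / 2) ^ 2 := rfl
  constructor
  · rw [hzz, norm_mul, RCLike.norm_conj, hk, one_mul, norm_pow, norm_div]
    have h4 : ‖A + B‖ * ‖A - B‖ = 4 * l := by
      rw [← norm_mul, hprod, norm_mul, Complex.norm_real, Real.norm_eq_abs, abs_of_pos hl]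
      norm_num
    have h5 : ‖(2 : ℂ)‖ = 2 := by norm_num
    rw [h5]
    nlinarith
  · rw [hzz]
    unfold kap
    have h6 : (starRingEnd ℂ) k * (l : ℂ) ^ 2 / ((starRingEnd ℂ) k * ((A + B) / 2) ^ 2) =
        ((A - B) / 2) ^ 2 := by
      have h7 : (l : ℂ) = (A + B) * (A - B) / 4 := by
        rw [hprod]
        ring
      rw [h7]
      field_simp
      ring
    have h8 : k * ((starRingEnd ℂ) k * ((A + B) / 2) ^ 2) = ((A + B) / 2) ^ 2 := by
      rw [← mul_assoc, hk1, one_mul]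
    rw [h6, h8]
    have h9 : ((A + B) / 2) ^ 2 + (c : ℂ) + ((A - B) / 2) ^ 2 = (A ^ 2 + B ^ 2) / 2 + c := by
      ring
    rw [h9, hA2, hB2]
    ring

/-- TASK Kap (6). -/
theorem zz_unique {k : ℂ} {l c : ℝ} {T Y : ℂ} (hk : ‖k‖ = 1) (hl : 0 < l) (hT : T.im ≠ 0)
    (hY : l ≤ ‖Y‖) (h : kap k l c Y = T) : Y = zz k l c T := by
  have h1 := zz_spec (c := c) hk hl hT
  exact kap_inj hk hl hY h1.1 (h.trans h1.2.symm)

/-- TASK Kap (7).  Nonreal numbers are in the slit plane. -/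
theorem zz_diff (k : ℂ) (l c : ℝ) : DifferentiableOn ℂ (zz k l c) {T | T.im ≠ 0} := by
  intro T hT
  have hT' : T.im ≠ 0 := hT
  have hA : DifferentiableAt ℂ (fun T : ℂ => (T - c + 2 * l) ^ (1 / 2 : ℂ)) T := by
    apply DifferentiableAt.cpow_const
    · fun_prop
    · right
      have : (T - c + 2 * l : ℂ).im = T.im := by simp
      rw [this]
      exact hT'
  have hB : DifferentiableAt ℂ (fun T : ℂ => (T - c - 2 * l) ^ (1 / 2 : ℂ)) T := by
    apply DifferentiableAt.cpow_const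
    · fun_prop
    · right
      have : (T - c - 2 * l : ℂ).im = T.im := by simp
      rw [this]
      exact hT'
  have h := (((hA.add hB).div_const 2).pow 2).const_mul ((starRingEnd ℂ) k)
  exact h.differentiableWithinAt

/-- TASK Kap (8).  `kap (conj stuff)`: if `c` is real, `kap k l c (l²/conj Y) = conj (kap k l c Y)`. -/
theorem kap_symm (k : ℂ) (l c : ℝ) {Y : ℂ} (hY : Y ≠ 0) (hl : 0 < l) :
    kap k l c ((l : ℂ) ^ 2 / (starRingEnd ℂ) Y) = (starRingEnd ℂ) (kap k l c Y) := by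
  have hYc : (starRingEnd ℂ) Y ≠ 0 := (map_ne_zero _).2 hY
  have hlc : (l : ℂ) ≠ 0 := Complex.ofReal_ne_zero.2 hl.ne'
  unfold kap
  simp only [map_add, map_mul, map_div₀, map_pow, Complex.conj_ofReal, Complex.conj_conj]
  field_simp
  ring

end Pool.W4b1b5d.H33
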