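import Pool.Agent.W_4b1b5d_h66.SHTrans
import Pool.Agent.W_4b1b5d_h33.Kap

/-!
# Plateau structure, labels, the function `z`
-/

set_option autoImplicit false

namespace Pool.W4b1b5d.H33

open Pool.W4b1b5d.H3 Pool.W4b1b5d.SH Polynomial Set

/-- The structure on the open connected set `S`: `R(x,Y) = g(k Y + w x + conj k l²/Y)` with a real
polynomial `g` of degree `M`. -/
structure PS (D : PD) where
  k : ℂ
  hk : ‖k‖ = 1
  w : V2 → ℝ
  wc : Continuous w
  g : ℂ[X]
  greal : ∀ T, g.eval ((starRingEnd ℂ) T) = (starRingEnd ℂ) (g.eval T)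
  gdeg : g.natDegree = D.M
  S : Set V2
  So : IsOpen S
  Sp : IsPreconnected S
  Sne : S.Nonempty
  str : ∀ x ∈ S, ∀ Y : ℂ, Y ≠ 0 → D.R 0 x Y = g.eval (kap k (D.l x) (w x) Y)

namespace PS

variable {D : PD}

/-- The base point. -/
noncomputable def x0 (p : PS D) : V2 := p.Sne.some

theorem x0_mem (p : PS D) : p.x0 ∈ p.S := p.Sne.some_mem

/-- The label of the momentum sheet `j`. -/
noncomputable def lab (p : PS D) {s τ : ℝ} (S : Sh D 2 s τ) (j : Fin S.n) (v : ℂ) : ℂ :=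
  kap p.k (D.l p.x0) (p.w p.x0) (S.P j p.x0 v ^ 2)

/-- The transport of `exists_transport` for `e = 1`. -/
noncomputable def Tr (D : PD) : V2 → V2 → ℂ → ℂ := (exists_transport D 1 le_rfl).choose

/-- `z x T`: the transported outer solution of `R(x,z) = g(T)` with label `T`. -/
noncomputable def z (p : PS D) (x : V2) (T : ℂ) : ℂ :=
  Tr D p.x0 x (zz p.k (D.l p.x0) (p.w p.x0) T)

/-- TASK Lab (1).  `g` is not constant: `natDegree = M ≥ 1`. -/
theorem g_nonreal (p : PS D) {T : ℂ} (hT : (p.g.eval T).im ≠ 0) : T.im ≠ 0 := by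
  intro h0
  apply hT
  have h1 : (starRingEnd ℂ) T = T := Complex.conj_eq_iff_im.2 h0
  have h2 := p.greal T
  rw [h1] at h2
  exact Complex.conj_eq_iff_im.1 h2.symm

theorem Lab_ne (p : PS D) {s τ : ℝ} (S : Sh D 2 s τ) (j : Fin S.n) {v : ℂ} (hv : v ∈ Us s τ)
    (x : V2) : S.P j x v ^ 2 ≠ 0 := by
  intro h0
  have h1 := S.le j x v hv
  rw [← norm_pow, h0, norm_zero] at h1
  exact absurd h1 (not_le.2 (D.lpos x))

theorem Lab_str (p : PS D) {s τ : ℝ} (S : Sh D 2 s τ) (j : Fin S.n) {v : ℂ} (hv : v ∈ Us s τ)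
    {x : V2} (hx : x ∈ p.S) : p.g.eval (kap p.k (D.l x) (p.w x) (S.P j x v ^ 2)) = v := by
  rw [← p.str x hx _ (p.Lab_ne S j hv x)]
  exact S.root j x v hv

/-- TASK Lab (2).  On `S` the label does not depend on `x`.  Proof: `x ↦ kap k (l x) (w x) (P_j x v ^2)`
is continuous on the preconnected set `S` with values in the finite set of roots of `g - v`
(`IsPreconnected.constant_of_mapsTo` or: the image is preconnected and finite, so a subsingleton). -/
theorem lab_all (p : PS D) {s τ : ℝ} (S : Sh D 2 s τ) (j : Fin S.n) {v : ℂ} (hv : v ∈ Us s τ)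
    {x : V2} (hx : x ∈ p.S) : kap p.k (D.l x) (p.w x) (S.P j x v ^ 2) = p.lab S j v := by
  have hg0 : p.g - C v ≠ 0 := by
    intro h0
    have h1 : p.g = C v := sub_eq_zero.1 h0
    have h2 := p.gdeg
    rw [h1, natDegree_C] at h2
    have := D.hM
    omega
  have hfin : {T : ℂ | p.g.eval T = v}.Finite := by
    refine (p.g - C v).roots.toFinset.finite_toSet.subset fun T hT => ?_
    have hT' : p.g.eval T = v := hT
    rw [Finset.mem_coe, Multiset.mem_toFinset, mem_roots hg0, IsRoot.def, eval_sub, eval_C, hT',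
      sub_self]
  have hdt : IsDiscrete {T : ℂ | p.g.eval T = v} := hfin.isDiscrete
  have hPc : ContinuousOn (fun y : V2 => S.P j y v) p.S := by
    have h1 := S.cont j
    have h2 : ContinuousOn (fun y : V2 => ((y, v) : V2 × ℂ)) p.S := by fun_prop
    exact h1.comp (f := fun y : V2 => ((y, v) : V2 × ℂ)) h2 (fun y _ => ⟨mem_univ _, hv⟩)
  have hlc : ContinuousOn (fun y : V2 => ((D.l y : ℝ) : ℂ)) p.S :=
    (Complex.continuous_ofReal.comp D.lsm.continuous).continuousOn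
  have hwc : ContinuousOn (fun y : V2 => ((p.w y : ℝ) : ℂ)) p.S :=
    (Complex.continuous_ofReal.comp p.wc).continuousOn
  have hc : ContinuousOn (fun y : V2 => kap p.k (D.l y) (p.w y) (S.P j y v ^ 2)) p.S := by
    unfold kap
    exact ((continuousOn_const.mul (hPc.pow 2)).add hwc).add
      ((continuousOn_const.mul (hlc.pow 2)).div (hPc.pow 2) (fun y _ => p.Lab_ne S j hv y))
  exact p.Sp.constant_of_mapsTo (T := {T : ℂ | p.g.eval T = v}) hdt hc
    (fun y hy => p.Lab_str S j hv hy) hx p.x0_mem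

/-- TASK Lab (3). -/
theorem lab_g (p : PS D) {s τ : ℝ} (S : Sh D 2 s τ) (j : Fin S.n) {v : ℂ} (hv : v ∈ Us s τ) :
    p.g.eval (p.lab S j v) = v := by
  exact p.Lab_str S j hv p.x0_mem

/-- TASK Lab (4). -/
theorem lab_cont (p : PS D) {s τ : ℝ} (S : Sh D 2 s τ) (j : Fin S.n) :
    ContinuousOn (p.lab S j) (Us s τ) := by
  intro v hv
  have h1 : ContinuousWithinAt (fun v => S.P j p.x0 v) (Us s τ) v := by
    have hc : ContinuousWithinAt (fun z : V2 × ℂ => S.P j z.1 z.2) (univ ×ˢ Us s τ) (p.x0, v) :=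
      S.cont j (p.x0, v) ⟨mem_univ _, hv⟩
    have h2 : ContinuousWithinAt (fun v : ℂ => ((p.x0, v) : V2 × ℂ)) (Us s τ) v :=
      (by fun_prop : Continuous fun v : ℂ => ((p.x0, v) : V2 × ℂ)).continuousWithinAt
    exact ContinuousWithinAt.comp (f := fun v : ℂ => ((p.x0, v) : V2 × ℂ)) (x := v) hc h2
      (fun v hv => ⟨mem_univ _, hv⟩)
  have h0 : S.P j p.x0 v ≠ 0 := by
    intro h
    have h2 := S.le j p.x0 v hv
    rw [h, norm_zero] at h2
    have h3 := D.lpos p.x0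
    norm_num at h2
    linarith
  have h2 : ContinuousAt (kap p.k (D.l p.x0) (p.w p.x0)) (S.P j p.x0 v ^ 2) :=
    (kap_hasDerivAt p.k (D.l p.x0) (p.w p.x0) (pow_ne_zero 2 h0)).continuousAt
  exact ContinuousAt.comp_continuousWithinAt (f := fun v => S.P j p.x0 v ^ 2) (x := v) h2
    (h1.pow 2)

/-- TASK Lab (5). -/
theorem lab_im (p : PS D) {s τ : ℝ} (S : Sh D 2 s τ) (j : Fin S.n) {v : ℂ} (hv : v ∈ Ks s τ) :
    (p.lab S j v).im ≠ 0 := by
  apply p.g_nonreal
  rw [p.lab_g S j (ks_us hv)]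
  intro h
  have h1 := hv.1
  rw [h, mul_zero] at h1
  exact lt_irrefl _ h1

/-- TASK Lab (6).  Existence of a sheet with given label over an interior value: `zz` at `x0` and
`Sh.exh` for a square root of it. -/
theorem lab_ex (p : PS D) {s τ : ℝ} (S : Sh D 2 s τ) {v T : ℂ} (hv : v ∈ Ks s τ)
    (hT : p.g.eval T = v) : ∃ j, p.lab S j v = T := by
  have hvi : (p.g.eval T).im ≠ 0 := by
    rw [hT]
    intro h
    have h1 := hv.1
    rw [h, mul_zero] at h1
    exact lt_irrefl _ h1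
  have hTi := p.g_nonreal hvi
  obtain ⟨h1, h2⟩ := zz_spec (c := p.w p.x0) p.hk (D.lpos p.x0) hTi
  set Y := zz p.k (D.l p.x0) (p.w p.x0) T with hY
  have hY0 : Y ≠ 0 := by
    intro h
    rw [h, norm_zero] at h1
    have := D.lpos p.x0
    linarith
  have h3 : (Y ^ (1 / 2 : ℂ)) ^ 2 = Y := Kap_sqrt_sq Y
  have h4 : D.R 0 p.x0 ((Y ^ (1 / 2 : ℂ)) ^ 2) = v := by
    rw [h3, p.str p.x0 p.x0_mem Y hY0, h2, hT]
  have h5 : D.l p.x0 < ‖Y ^ (1 / 2 : ℂ)‖ ^ 2 := by
    rw [← norm_pow, h3]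
    exact h1
  obtain ⟨j, hj⟩ := S.exh p.x0 v _ hv h5 h4
  refine ⟨j, ?_⟩
  unfold lab
  rw [hj, h3, h2]

end PS

end Pool.W4b1b5d.H33
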