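import Pool.Agent.W_4b1b5d_h33.Mom

/-!
# Nonnegative periodic functions with integral zero
-/

set_option autoImplicit false

namespace Pool.W4b1b5d.H33

open Pool.W4b1b5d.H3 Pool.W4b1b5d.SH Pool.W4b1b5d.H34 Polynomial Set Metric MeasureTheory

/-- TASK Mom (1).  A nonnegative continuous periodic function with integral `0` over the cell is `0`.
(Zero on the cell: `MeasureTheory.setIntegral_eq_zero_iff_of_nonneg_ae` and continuity, the cell is the
closure of its interior; then periodicity.) -/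
theorem cell_zero {f : V2 → ℝ} (hf : Continuous f) (hp : Per f) (h0 : ∀ x, 0 ≤ f x)
    (h : ∫ x in cell, f x = 0) (x : V2) : f x = 0 := by
  have h1 : f =ᵐ[volume.restrict cell] 0 :=
    (setIntegral_eq_zero_iff_of_nonneg_ae (Filter.Eventually.of_forall h0) (cont_intCell hf)).1 h
  have hU : IsOpen (Set.pi univ (fun _ : Fin 2 => Ioo (0 : ℝ) 1)) :=
    isOpen_set_pi finite_univ fun _ _ => isOpen_Ioo
  have hsub : Set.pi univ (fun _ : Fin 2 => Ioo (0 : ℝ) 1) ⊆ cell := by
    intro y hy
    unfold cell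
    rw [mem_Icc]
    exact ⟨fun i => (hy i (mem_univ i)).1.le, fun i => (hy i (mem_univ i)).2.le⟩
  have h2 : EqOn f 0 (Set.pi univ (fun _ : Fin 2 => Ioo (0 : ℝ) 1)) :=
    Measure.eqOn_open_of_ae_eq (ae_restrict_of_ae_restrict_of_subset hsub h1) hU hf.continuousOn
      continuousOn_const
  have h3 := h2.closure hf continuous_const
  have h4 : (x + fun i => ((-⌊x i⌋ : ℤ) : ℝ)) ∈
      closure (Set.pi univ (fun _ : Fin 2 => Ioo (0 : ℝ) 1)) := by
    rw [closure_pi_set]
    intro i _
    rw [closure_Ioo (by norm_num : (0 : ℝ) ≠ 1)]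
    show x i + ((-⌊x i⌋ : ℤ) : ℝ) ∈ Icc (0 : ℝ) 1
    have h5 := Int.floor_le (x i)
    have h6 := Int.lt_floor_add_one (x i)
    rw [mem_Icc]
    push_cast
    constructor <;> linarith
  have h7 := h3 h4
  rw [hp x (fun i => -⌊x i⌋)] at h7
  exact h7

end Pool.W4b1b5d.H33
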