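import Pool.Agent.W_4b1b5d_h66.SHBasic
import Pool.Agent.W_4b1b5d_h66.SHStrip

/-!
# `|Im R| ≤ C (|Y| - l)`
-/

set_option autoImplicit false

namespace Pool.W4b1b5d.H33

open Pool.W4b1b5d.H3 Pool.W4b1b5d.SH Polynomial Set Metric

/-- TASK NrlA.  `R` is real on the circle `|Y| = l x` (`R_real`), and `R` is Lipschitz in `Y` with a
constant independent of `x`: compare `Y` with `Y' = (l x/|Y|) Y` on the circle; the segment `[Y',Y]` is
radial, in `l x ≤ ‖y‖ ≤ ρ`, `‖R_Y‖ ≤ C` there (`R_bdd` for `k = 1`, `l_bounds`), `R_hasDerivAt`, mean value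
inequality. -/
theorem im_bound (D : PD) (ρ : ℝ) : ∃ C : ℝ, 0 < C ∧ ∀ (x : V2) (Y : ℂ), D.l x ≤ ‖Y‖ →
    ‖Y‖ ≤ ρ → |(D.R 0 x Y).im| ≤ C * (‖Y‖ - D.l x) := by
  obtain ⟨c, C₀, hc, hl⟩ := D.l_bounds
  obtain ⟨C, hC, hR⟩ := D.R_bdd 1 c ρ hc
  refine ⟨C, hC, fun x Y hY hYρ => ?_⟩
  have hlx := D.lpos x
  have hYp : 0 < ‖Y‖ := lt_of_lt_of_le hlx hY
  set t : ℝ := D.l x / ‖Y‖ with ht
  have ht0 : 0 < t := div_pos hlx hYp
  have ht1 : t ≤ 1 := (div_le_one hYp).2 hY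
  have htY : t * ‖Y‖ = D.l x := div_mul_cancel₀ _ hYp.ne'
  set Y' : ℂ := (t : ℂ) * Y with hY'
  have hnY' : ‖Y'‖ = D.l x := by
    rw [hY', norm_mul, Complex.norm_real, Real.norm_eq_abs, abs_of_pos ht0, htY]
  have hseg : ∀ y ∈ segment ℝ Y' Y, D.l x ≤ ‖y‖ ∧ ‖y‖ ≤ ρ := by
    rintro y ⟨a, b, ha, hb, hab, rfl⟩
    have h1 : a • Y' + b • Y = ((a * t + b : ℝ) : ℂ) * Y := by
      rw [Complex.real_smul, Complex.real_smul, hY']
      push_cast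
      ring
    have h2 : 0 ≤ a * t + b := add_nonneg (mul_nonneg ha ht0.le) hb
    rw [h1, norm_mul, Complex.norm_real, Real.norm_eq_abs, abs_of_nonneg h2]
    have h3 : (a * t + b) * ‖Y‖ = a * D.l x + b * ‖Y‖ := by
      rw [add_mul, mul_assoc, htY]
    rw [h3]
    constructor
    · calc D.l x = a * D.l x + b * D.l x := by rw [← add_mul, hab, one_mul]
        _ ≤ a * D.l x + b * ‖Y‖ := by gcongr
    · calc a * D.l x + b * ‖Y‖ ≤ a * ‖Y‖ + b * ‖Y‖ := by gcongr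
        _ = ‖Y‖ := by rw [← add_mul, hab, one_mul]
        _ ≤ ρ := hYρ
  have hmv : ‖D.R 0 x Y - D.R 0 x Y'‖ ≤ C * ‖Y - Y'‖ := by
    refine (convex_segment Y' Y).norm_image_sub_le_of_norm_hasDerivWithin_le
      (f := fun y => D.R 0 x y) (f' := fun y => D.R 1 x y) ?_ ?_
      (left_mem_segment ℝ Y' Y) (right_mem_segment ℝ Y' Y)
    · intro y hy
      have h1 := (hseg y hy).1
      have hy0 : y ≠ 0 := by
        rintro rfl
        rw [norm_zero] at h1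
        linarith
      exact (D.R_hasDerivAt 0 x hy0).hasDerivWithinAt
    · intro y hy
      exact hR x y ((hl x).1.trans (hseg y hy).1) (hseg y hy).2
  have hdist : ‖Y - Y'‖ = ‖Y‖ - D.l x := by
    have h1 : Y - Y' = ((1 - t : ℝ) : ℂ) * Y := by
      rw [hY']
      push_cast
      ring
    rw [h1, norm_mul, Complex.norm_real, Real.norm_eq_abs, abs_of_nonneg (by linarith), sub_mul,
      one_mul, htY]
  have him : (D.R 0 x Y).im = (D.R 0 x Y - D.R 0 x Y').im := by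
    rw [Complex.sub_im, D.R_real x hnY', sub_zero]
  rw [him, ← hdist]
  exact (Complex.abs_im_le_norm _).trans hmv

/-- Corollary for the sheets: `l x + c |Im v| ≤ ‖P_j x v‖²` for bounded `v`.  TASK NrlA (2).  `R_bound`
bounds `‖P²‖` for `‖v‖ ≤ r`. -/
theorem sheet_gap {D : PD} {s τ : ℝ} (S : Sh D 2 s τ) (r : ℝ) : ∃ c : ℝ, 0 < c ∧
    ∀ j x v, v ∈ Us s τ → ‖v‖ ≤ r → D.l x + c * |v.im| ≤ ‖S.P j x v‖ ^ 2 := by
  obtain ⟨C1, hC1, hb, -⟩ := D.R_bound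
  obtain ⟨C, hC, him⟩ := im_bound D (C1 * (1 + r))
  refine ⟨C⁻¹, inv_pos.2 hC, fun j x v hv hr => ?_⟩
  have h1 := S.le j x v hv
  have h2 := S.root j x v hv
  rw [← norm_pow] at h1 ⊢
  have h3 := hb x _ h1
  rw [h2] at h3
  have h4 : ‖S.P j x v ^ 2‖ ≤ C1 * (1 + r) :=
    h3.trans (mul_le_mul_of_nonneg_left (by linarith) hC1.le)
  have h5 := him x _ h1 h4
  rw [h2] at h5
  have h6 : C⁻¹ * |v.im| ≤ ‖S.P j x v ^ 2‖ - D.l x := by
    rw [inv_mul_le_iff₀ hC]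
    exact h5
  linarith

end Pool.W4b1b5d.H33
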