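import Pool.Agent.W_4b1b5d_h33.ExtA

/-!
# Matching of the sheets with a nonreal label on `S`
-/

set_option autoImplicit false

namespace Pool.W4b1b5d.H33

open Pool.W4b1b5d.H3 Pool.W4b1b5d.SH Polynomial Set Metric

/-- gluing at an outer simple solution, general signs -/
theorem NrlB_glue {D : PD} {s s' τ : ℝ} (hs' : s' = 1 ∨ s' = -1) (hτ : 0 < τ)
    (hH' : Ks s' τ ⊆ D.H) (S : Sh D 2 s τ) (T : Sh D 2 s' τ) (j : Fin S.n) (x0 : V2) (w : ℝ)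
    (hy : D.l x0 < ‖S.P j x0 (w : ℂ)‖ ^ 2) (h1 : D.R 1 x0 (S.P j x0 (w : ℂ) ^ 2) ≠ 0) :
    ∃ i : Fin T.n, (∀ᶠ z : V2 × ℝ in nhds (x0, w), S.P j z.1 (z.2 : ℂ) = T.P i z.1 (z.2 : ℂ)) ∧
      ∀ i', T.P i' x0 (w : ℂ) = S.P j x0 (w : ℂ) → i' = i := by
  have he : 1 ≤ 2 := by norm_num
  have h0 : D.R 0 x0 (S.P j x0 (w : ℂ) ^ 2) = (w : ℂ) := S.root j x0 w (Sh.SHGlueC_mem s hτ w)
  have hne : S.P j x0 (w : ℂ) ≠ 0 := by
    intro h
    rw [h, norm_zero, zero_pow (by omega)] at hy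
    exact absurd hy (not_lt.2 (D.lpos x0).le)
  obtain ⟨i, hi, hiu⟩ := T.exh_bdry he hs' hτ hH' x0 w (S.P j x0 (w : ℂ)) hy h0 h1
  refine ⟨i, ?_, hiu⟩
  obtain ⟨G, ε, η, hε, hη, hG0, hG⟩ := D.loc_inv 2 he x0 (S.P j x0 (w : ℂ)) hne h1
  rw [h0] at hG hG0
  obtain ⟨δ1, hδ1, h1'⟩ := S.eq_loc he j x0 (w : ℂ) (Sh.SHGlueC_mem s hτ w) G ε η hε hη
    (fun z hz P hP hR => (hG z hz).2.2.2.2.2 P hP hR)
  obtain ⟨δ2, hδ2, h2'⟩ := T.eq_loc he i x0 (w : ℂ) (Sh.SHGlueC_mem s' hτ w) G ε η hε hη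
    (fun z hz P hP hR => (hG z hz).2.2.2.2.2 P (by rw [← hi]; exact hP) hR)
  have hev : ∀ᶠ z : V2 × ℝ in nhds (x0, w), dist z (x0, w) < min δ1 δ2 :=
    Metric.ball_mem_nhds _ (lt_min hδ1 hδ2)
  filter_upwards [hev] with z hz
  have hd : dist ((z.1, (z.2 : ℂ)) : V2 × ℂ) (x0, (w : ℂ)) = dist z (x0, w) := by
    rw [Prod.dist_eq, Prod.dist_eq, Complex.dist_of_im_eq (by simp)]
    simp [Real.dist_eq]
  rw [h1' (z.1, (z.2 : ℂ)) (by rw [hd]; exact hz.trans_le (min_le_left _ _))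
    (Sh.SHGlueC_mem s hτ z.2), h2' (z.1, (z.2 : ℂ))
    (by rw [hd]; exact hz.trans_le (min_le_right _ _)) (Sh.SHGlueC_mem s' hτ z.2)]

/-- the `Y`-derivative on `p.S` -/
theorem NrlB_R1 {D : PD} (p : PS D) {x : V2} (hx : x ∈ p.S) {Y : ℂ} (hY : Y ≠ 0) :
    D.R 1 x Y = p.g.derivative.eval (kap p.k (D.l x) (p.w x) Y) *
      (p.k - (starRingEnd ℂ) p.k * (D.l x : ℂ) ^ 2 / Y ^ 2) := by
  have h1 : HasDerivAt (D.R 0 x) (D.R 1 x Y) Y := D.R_hasDerivAt 0 x hY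
  have h2 : HasDerivAt (fun Z => p.g.eval (kap p.k (D.l x) (p.w x) Z))
      (p.g.derivative.eval (kap p.k (D.l x) (p.w x) Y) *
        (p.k - (starRingEnd ℂ) p.k * (D.l x : ℂ) ^ 2 / Y ^ 2)) Y :=
    HasDerivAt.comp Y (p.g.hasDerivAt _) (kap_hasDerivAt p.k (D.l x) (p.w x) hY)
  have h3 : (fun Z => p.g.eval (kap p.k (D.l x) (p.w x) Z)) =ᶠ[nhds Y] D.R 0 x := by
    filter_upwards [isOpen_ne.mem_nhds hY] with Z hZ
    exact (p.str x hx Z hZ).symm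
  exact h1.unique (h2.congr_of_eventuallyEq h3.symm)

theorem NrlB_off {D : PD} (p : PS D) {s τ : ℝ} (S : Sh D 2 s τ) (j : Fin S.n) {v : ℂ}
    (hv : v ∈ Us s τ) {x : V2} (hx : x ∈ p.S) (him : (p.lab S j v).im ≠ 0) :
    D.l x < ‖S.P j x v‖ ^ 2 := by
  rcases (S.le j x v hv).lt_or_eq with h | h
  · exact h
  · exfalso
    apply him
    rw [← p.lab_all S j hv hx]
    exact kap_real (D.lpos x) (by rw [norm_pow, h])

theorem NrlB_contx {D : PD} {s τ : ℝ} (S : Sh D 2 s τ) (j : Fin S.n) {v : ℂ}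
    (hv : v ∈ Us s τ) : Continuous fun x => S.P j x v := by
  rw [continuous_iff_continuousAt]
  intro x
  have h1 : ContinuousWithinAt (fun z : V2 × ℂ => S.P j z.1 z.2) (univ ×ˢ Us s τ) (x, v) :=
    S.cont j (x, v) ⟨mem_univ _, hv⟩
  have h2 : ContinuousWithinAt (fun y : V2 => ((y, v) : V2 × ℂ)) univ x :=
    (by fun_prop : Continuous fun y : V2 => ((y, v) : V2 × ℂ)).continuousWithinAt
  have h3 : ContinuousWithinAt (fun y => S.P j y v) univ x :=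
    ContinuousWithinAt.comp (g := fun z : V2 × ℂ => S.P j z.1 z.2)
      (f := fun y : V2 => ((y, v) : V2 × ℂ)) (x := x) h1 h2 (fun y _ => ⟨mem_univ _, hv⟩)
  exact (continuousWithinAt_univ _ _).1 h3

/-- TASK NrlB.  A sheet of `S` with a nonreal simple label at `w0` agrees on `p.S` with a sheet of `T`,
for real `w` near `w0`.  (The signs `s' = -s`.)

Proof.  At `x0 = p.x0`: `Y0 = S.P j x0 w0 ^2` is off the circle, because `kap` is real on the circle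
(`kap_real`), and `R_Y(x0,Y0) ≠ 0`: near `Y0`, `R(x0,Y) = g(kap Y)` (`p.str`), derivative
`g'(lab) kap'(Y0)`, `kap_hasDerivAt`, `kap_deriv_ne`.  `glue` gives `i` with
`S.P j x w = T.P i x w` for `(x,w)` near `(x0,w0)`.  So for real `w` near `w0` (say `|w - w0| < ε`):
`lab S j w = lab T i w`, not real (`lab_cont`).  Fix such a `w` and let `x ∈ p.S`:
`kap (S.P j x w ^2) = kap (T.P i x w ^2)` (`lab_all`), not real, so both are off the circle (`kap_real`)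
and `S.P j x w ^2 = T.P i x w ^2` (`kap_inj`), so `T.P i x w = ± S.P j x w ≠ 0`.  The quotient is
continuous on the preconnected set `p.S` with values in `{1,-1}`, and `1` at `x0`. -/
theorem match_S {D : PD} (p : PS D) {s s' τ : ℝ} (hs : s = 1 ∨ s = -1) (hs' : s' = -s)
    (hτ : 0 < τ) (hH : Ks s τ ⊆ D.H) (hH' : Ks s' τ ⊆ D.H) (S : Sh D 2 s τ) (T : Sh D 2 s' τ)
    (j : Fin S.n) (w0 : ℝ) (him : (p.lab S j w0).im ≠ 0)
    (hd : p.g.derivative.eval (p.lab S j w0) ≠ 0) :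
    ∃ i : Fin T.n, ∃ ε : ℝ, 0 < ε ∧ ∀ w : ℝ, |w - w0| < ε →
      (p.lab S j w).im ≠ 0 ∧ p.lab S j w = p.lab T i w ∧ ∀ x ∈ p.S, S.P j x w = T.P i x w := by
  have hs1 : s' = 1 ∨ s' = -1 := by
    rcases hs with h | h
    · right
      rw [hs', h]
    · left
      rw [hs', h]
      norm_num
  have hmem : ∀ w : ℝ, (w : ℂ) ∈ Us s τ := fun w => Sh.SHGlueC_mem s hτ w
  have hmem' : ∀ w : ℝ, (w : ℂ) ∈ Us s' τ := fun w => Sh.SHGlueC_mem s' hτ w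
  have hoff : D.l p.x0 < ‖S.P j p.x0 (w0 : ℂ)‖ ^ 2 := NrlB_off p S j (hmem w0) p.x0_mem him
  have hP0 : ∀ {x : V2} {P : ℂ}, D.l x < ‖P‖ ^ 2 → P ≠ 0 := by
    intro x P h h0
    rw [h0, norm_zero] at h
    have := D.lpos x
    norm_num at h
    linarith
  have hR1 : D.R 1 p.x0 (S.P j p.x0 (w0 : ℂ) ^ 2) ≠ 0 := by
    rw [NrlB_R1 p p.x0_mem (pow_ne_zero 2 (hP0 hoff))]
    refine mul_ne_zero hd (kap_deriv_ne p.hk (D.lpos _) ?_)
    rw [norm_pow]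
    exact hoff
  obtain ⟨i, hi, -⟩ := NrlB_glue hs1 hτ hH' S T j p.x0 w0 hoff hR1
  have hlab : ContinuousAt (fun w : ℝ => p.lab S j (w : ℂ)) w0 := by
    have h1 : ContinuousWithinAt (p.lab S j) (Us s τ) (w0 : ℂ) := p.lab_cont S j _ (hmem w0)
    have h2 : ContinuousWithinAt (fun w : ℝ => (w : ℂ)) univ w0 :=
      Complex.continuous_ofReal.continuousWithinAt
    have h3 : ContinuousWithinAt (fun w : ℝ => p.lab S j (w : ℂ)) univ w0 :=
      ContinuousWithinAt.comp (g := p.lab S j) (f := fun w : ℝ => (w : ℂ)) (x := w0) h1 h2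
        (fun w _ => hmem w)
    exact (continuousWithinAt_univ _ _).1 h3
  have hev1 : ∀ᶠ w : ℝ in nhds w0, (p.lab S j (w : ℂ)).im ≠ 0 :=
    (Complex.continuous_im.continuousAt.comp hlab).eventually_ne him
  have hev2 : ∀ᶠ w : ℝ in nhds w0, S.P j p.x0 (w : ℂ) = T.P i p.x0 (w : ℂ) := by
    have hc : ContinuousAt (fun w : ℝ => ((p.x0, w) : V2 × ℝ)) w0 := by fun_prop
    exact hc.eventually hi
  obtain ⟨ε, hε, hball⟩ := Metric.eventually_nhds_iff.1 (hev1.and hev2)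
  refine ⟨i, ε, hε, fun w hw => ?_⟩
  obtain ⟨h1, h2⟩ := hball (by rw [Real.dist_eq]; exact hw)
  have h3 : p.lab S j (w : ℂ) = p.lab T i (w : ℂ) := by
    unfold PS.lab
    rw [h2]
  refine ⟨h1, h3, ?_⟩
  have h1' : (p.lab T i (w : ℂ)).im ≠ 0 := by
    rw [← h3]
    exact h1
  have hoS : ∀ x ∈ p.S, D.l x < ‖S.P j x (w : ℂ)‖ ^ 2 := fun x hx =>
    NrlB_off p S j (hmem w) hx h1
  have hoT : ∀ x ∈ p.S, D.l x < ‖T.P i x (w : ℂ)‖ ^ 2 := fun x hx =>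
    NrlB_off p T i (hmem' w) hx h1'
  have hsq : ∀ x ∈ p.S, S.P j x (w : ℂ) ^ 2 = T.P i x (w : ℂ) ^ 2 := by
    intro x hx
    refine kap_inj (c := p.w x) p.hk (D.lpos x) ?_ ?_ ?_
    · rw [norm_pow]
      exact (hoS x hx).le
    · rw [norm_pow]
      exact hoT x hx
    · rw [p.lab_all S j (hmem w) hx, p.lab_all T i (hmem' w) hx, h3]
  have hq : ∀ x ∈ p.S, T.P i x (w : ℂ) / S.P j x (w : ℂ) ∈ ({1, -1} : Set ℂ) := by
    intro x hx
    have h4 := hP0 (hoS x hx)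
    rcases sq_eq_sq_iff_eq_or_eq_neg.1 (hsq x hx) with h5 | h5
    · left
      rw [← h5, div_self h4]
    · right
      rw [Set.mem_singleton_iff, div_eq_iff h4, h5]
      ring
  have hqc : ContinuousOn (fun x => T.P i x (w : ℂ) / S.P j x (w : ℂ)) p.S :=
    (NrlB_contx T i (hmem' w)).continuousOn.div (NrlB_contx S j (hmem w)).continuousOn
      fun x hx => hP0 (hoS x hx)
  intro x hx
  have hfin : IsDiscrete ({1, -1} : Set ℂ) := (Set.toFinite _).isDiscrete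
  have h6 := p.Sp.constant_of_mapsTo hfin hqc hq hx p.x0_mem
  have h7 : T.P i x (w : ℂ) / S.P j x (w : ℂ) = T.P i p.x0 (w : ℂ) / S.P j p.x0 (w : ℂ) := h6
  rw [← h2, div_self (hP0 (hoS p.x0 p.x0_mem)), div_eq_one_iff_eq (hP0 (hoS x hx))] at h7
  exact h7.symm

end Pool.W4b1b5d.H33
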